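import Pool.Agent.Lib_helper15.TEM.Defs
import Pool.Agent.Lib_helper71.LSP3.ExF

/-! T12, block EH. -/

set_option autoImplicit false

namespace Pool.Agent.EHB

open Pool.Agent.LSP
open Pool.Agent.LEV Pool.Agent.LVB Pool.Agent.KSL
open Pool.Agent.LK (KerC)
open Pool.Agent.FG61 (mu phi cc ff AA Lam)
open Complex MeasureTheory Filter Topology UpperHalfPlane ModularGroup ProbabilityTheory
open scoped MatrixGroups Modular ENNReal ModularForm ComplexConjugate ContDiff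

/-- harmonic average, with a small set of bad forms -/
theorem eh_harm {q : ℝ} (hq1 : 1 / 2 ≤ q) (hq2 : q ≤ 1) (A : Finset ℕ) (c : ℕ → ℝ)
    (hA : ∀ a ∈ A, 1 ≤ a) (hc : ∀ a, 0 ≤ c a) {ε : ℝ} (hε : 0 < ε) :
    ∃ (m₀ : ℕ) (s : ℕ → ℝ) (e κ et : ℝ) (N₀ : ℕ), 1 ≤ m₀ ∧ (∀ m, s m ≠ 0 → 1 ≤ m ∧ m ≤ m₀) ∧
      0 < e ∧ 0 < κ ∧ 0 < et ∧ ∀ (N : ℕ) [Fact N.Prime], N₀ ≤ N →
      ∀ (T : ℝ) (ρ : ℝ → ℝ) (B₀ E : ℕ) (x : ℕ → ℝ), ExVec q m₀ s e N T ρ B₀ E x →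
      ∀ Bad : S2 N → Prop, (∀ {ι : Type} [Fintype ι] (f : ι → S2 N), AllNew f →
        ∀ u : Finset ι, (∀ i ∈ u, Bad (f i)) → ∑ i ∈ u, om (f i) ≤ et) →
      ∀ {ι : Type} [Fintype ι] (f : ι → S2 N), AllNew f → ∃ t : Finset ι,
        (∀ i ∈ t, co (f i) N = 1 ∧
          (κ ≤ ‖Lh (f i)‖ * |MX E x (la (f i))| ∧ ¬ Bad (f i))) ∧
        1 / 2 * (q * ∑ a ∈ A, c a) - ε ≤ ∑ i ∈ t, om (f i) * Hd A c (la (f i)) := by
  classical
  have h2q0 : 0 ≤ 2 / q := by positivity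
  have h2q : 2 / q ≤ 4 := by
    rw [div_le_iff₀ (by linarith)]
    linarith
  obtain ⟨h₀, hh₀⟩ : ∃ h₀ : ℝ, h₀ = ∑ a ∈ A, c a := ⟨_, rfl⟩
  have hh0 : 0 ≤ h₀ := by rw [hh₀]; exact Finset.sum_nonneg fun a _ => hc a
  obtain ⟨B, hB⟩ : ∃ B : ℝ, B = h₀ + 1 := ⟨_, rfl⟩
  have hB1 : 1 ≤ B := by linarith
  -- small parameters
  obtain ⟨ε', hε0, hεε, hε1⟩ : ∃ ε' : ℝ, 0 < ε' ∧ ε' ≤ ε / 8 ∧ ε' ≤ 1 :=
    ⟨min ε 1 / 8, by positivity, by have := min_le_left ε 1; linarith,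
      by have := min_le_right ε 1; linarith⟩
  obtain ⟨e, he0, hse⟩ : ∃ e : ℝ, 0 < e ∧ Real.sqrt e = ε' / (400 * B) :=
    ⟨(ε' / (400 * B)) ^ 2, by positivity, Real.sqrt_sq (by positivity)⟩
  have hse1 : Real.sqrt e ≤ 1 := by
    rw [hse, div_le_one (by positivity)]
    linarith
  have he1 : e ≤ 1 := by
    have h2 : e = Real.sqrt e ^ 2 := (Real.sq_sqrt he0.le).symm
    rw [h2]
    exact pow_le_one₀ (Real.sqrt_nonneg _) hse1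
  obtain ⟨κ', hκ'0, hκ'⟩ : ∃ κ' : ℝ, 0 < κ' ∧ κ' ≤ ε' / (16 * B) :=
    ⟨ε' / (16 * B), by positivity, le_rfl⟩
  obtain ⟨τ, hτ0, hτ⟩ : ∃ τ : ℝ, 0 < τ ∧ (4 * B + 2) / (2 * τ) ≤ e / 8 := by
    refine ⟨4 * (4 * B + 2) / e, by positivity, le_of_eq ?_⟩
    field_simp
    norm_num
  obtain ⟨d, hd0, hdτ, hdε⟩ : ∃ d : ℝ, 0 < d ∧ τ * d / 2 ≤ e / 8 ∧ d ≤ ε' := by
    refine ⟨min (e / (4 * τ)) ε', lt_min (by positivity) hε0, ?_, min_le_right _ _⟩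
    have h2 := mul_le_mul_of_nonneg_left (min_le_left (e / (4 * τ)) ε') hτ0.le
    have h3 : τ * (e / (4 * τ)) = e / 4 := by field_simp
    rw [h3] at h2
    linarith
  obtain ⟨I, m₀, s, hIp, hm₀, hs, hsd, C₄, N₁, hC₄, hpoly⟩ := poly_data A c hA hc hd0
  rw [← hh₀] at hsd
  obtain ⟨x, hx⟩ : ∃ x : ℝ, x = ∑ m ∈ Finset.Icc 1 m₀, s m ^ 2 := ⟨_, rfl⟩
  have hx0 : 0 ≤ x := by rw [hx]; exact Finset.sum_nonneg fun m _ => sq_nonneg _
  rw [← hx] at hsd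
  have hxB : x ≤ B := by
    have := (abs_le.mp hsd).2
    linarith
  -- typical sizes
  obtain ⟨et, het0, het⟩ : ∃ et : ℝ, 0 < et ∧ Real.sqrt (et * C₄) ≤ ε' := by
    refine ⟨ε' ^ 2 / (C₄ + 1), by positivity, ?_⟩
    apply Real.sqrt_le_iff.mpr
    refine ⟨hε0.le, ?_⟩
    have h2 : ε' ^ 2 / (C₄ + 1) * C₄ = ε' ^ 2 * (C₄ / (C₄ + 1)) := by
      field_simp
    rw [h2]
    have h3 : C₄ / (C₄ + 1) ≤ 1 := by
      rw [div_le_one (by positivity)]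
      linarith
    calc ε' ^ 2 * (C₄ / (C₄ + 1)) ≤ ε' ^ 2 * 1 := by gcongr
      _ = ε' ^ 2 := mul_one _
  obtain ⟨σ, hσ0, hσ⟩ : ∃ σ : ℝ, 0 < σ ∧ 2 * σ ^ 2 ≤ ε' := by
    refine ⟨Real.sqrt (ε' / 2), Real.sqrt_pos.mpr (by positivity), le_of_eq ?_⟩
    rw [Real.sq_sqrt (by positivity)]
    ring
  -- sizes
  obtain ⟨Kc, hKc⟩ : ∃ Kc : ℝ, Kc = τ * ∑ m ∈ Finset.Icc 1 m₀, |s m| * Real.sqrt m +
      τ ^ 2 * ∑ m ∈ Finset.Icc 1 m₀, s m ^ 2 * m := ⟨_, rfl⟩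
  obtain ⟨N₂, hN₂⟩ := ex_pow (400 * Kc) (b := 1 / 20) (by norm_num)
  obtain ⟨N₃, hN₃⟩ := ex_pow (400 * m₀ + 10000) (b := 1 / 10) (by norm_num)
  refine ⟨m₀, s, e / 4, κ' * σ, et, N₁ + N₂ + N₃ + 10000, hm₀,
    fun m hm => ⟨(hs m hm).1, (hs m hm).2.1⟩, by positivity, by positivity, het0,
    fun N _ hN T ρ B₀ E xv hv Bad hBad ι _ f hf => ?_⟩
  have hNp : N.Prime := Fact.out
  obtain ⟨hρ, hB₀, hE1, hsupp, hzero, hTE, hWW, hlin, hQN⟩ := hv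
  have hT : 1 ≤ T := hρ.T1
  have hNr : (10000 : ℝ) ≤ N := by exact_mod_cast (by omega : 10000 ≤ N)
  have hN0 : (0 : ℝ) < N := by linarith
  have hi : Function.Injective f := hf.1
  have hn : ∀ i, IsNew (f i) := fun i => (hf.2 (f i)).mpr ⟨i, rfl⟩
  have hom : ∀ i, 0 ≤ om (f i) := fun i => (fid_om (hn i)).2.1.le
  have hE0 : (0 : ℝ) ≤ E := Nat.cast_nonneg E
  -- the length
  have hpw : (N : ℝ) ^ (9 / 10 : ℝ) * (N : ℝ) ^ (1 / 10 : ℝ) = N := by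
    rw [← Real.rpow_add hN0]
    norm_num
  have hN3 := hN₃ N (by omega)
  have hT2 : (1 : ℝ) ≤ T ^ 2 := by nlinarith
  have hlen1 : 400 * T ^ 2 * m₀ * E ≤ N := by
    have h2 : (0 : ℝ) ≤ m₀ := Nat.cast_nonneg m₀
    calc 400 * T ^ 2 * m₀ * E = (T ^ 2 * E) * (400 * m₀) := by ring
      _ ≤ (N : ℝ) ^ (9 / 10 : ℝ) * (N : ℝ) ^ (1 / 10 : ℝ) :=
          mul_le_mul hTE (by linarith) (by positivity) (by positivity)
      _ = N := hpw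
  have hlen2 : (E : ℝ) ≤ (1 / 100) ^ 2 * N := by
    have h2 : (E : ℝ) * 10000 ≤ N := by
      calc (E : ℝ) * 10000 ≤ (T ^ 2 * E) * 10000 := by
            refine mul_le_mul_of_nonneg_right ?_ (by norm_num)
            exact le_mul_of_one_le_left hE0 (by linarith)
        _ ≤ (N : ℝ) ^ (9 / 10 : ℝ) * (N : ℝ) ^ (1 / 10 : ℝ) := by
            refine mul_le_mul hTE ?_ (by norm_num) (by positivity)
            have h2 : (0 : ℝ) ≤ m₀ := Nat.cast_nonneg m₀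
            linarith
        _ = N := hpw
    linarith
  -- the dual norm
  have hgeo' := geo_poly hρ hB₀ N E m₀ hE1 hm₀ hlen1 xv hsupp hzero f hi hn s
    (fun m hm => ⟨(hs m hm).1, (hs m hm).2.1⟩)
  obtain ⟨F, hF⟩ : ∃ F : ι → ℝ, F = fun i => (Lh (f i)).re * MX E xv (la (f i)) := ⟨_, rfl⟩
  obtain ⟨S, hS⟩ : ∃ S : ι → ℝ, S = fun i => ∑ m ∈ Finset.Icc 1 m₀, s m * Um m (la (f i)) :=
    ⟨_, rfl⟩
  obtain ⟨hp1, hp2, hp3, hp4⟩ := hpoly N (by omega) f hf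
  have hSi : ∀ i, ∑ m ∈ Finset.Icc 1 m₀, s m * Um m (la (f i)) = S i := fun i => by rw [hS]
  have hFi : ∀ i, (Lh (f i)).re * MX E xv (la (f i)) = F i := fun i => by rw [hF]
  simp only [hSi] at hp1 hp2 hp3 hp4
  simp only [hSi, hFi] at hgeo'
  rw [← hx] at hp2 hp3 hQN hlin
  have h2nd : ∑ i, om (f i) * F i ^ 2 ≤ 2 / q * x + e := by
    have h2 := hgeo' 0
    simp only [zero_mul, add_zero, abs_zero, mul_zero, ne_eq, OfNat.ofNat_ne_zero,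
      not_false_eq_true, zero_pow] at h2
    linarith
  have h1st : x - e ≤ ∑ i, om (f i) * (F i * S i) := by
    have h2 := hgeo' (-τ)
    rw [← hx] at h2
    have h3 := ex_err (m₀ := m₀) (s := s) (V := fun m => WW E (wX E xv) m) (T := T)
      (E := (E : ℝ)) (N := (N : ℝ)) hτ0.le (by linarith) hE0 hTE
      (fun m hm => hWW m (hs m hm).1 (hs m hm).2.1) hKc (hN₂ N (by omega))
    have h4 := hm_first (fun i => om (f i)) F S hom (Q := 2 / q * x + e / 4)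
      (l := ∑ m ∈ Finset.Icc 1 m₀, s m * WW E (wX E xv) m / Real.sqrt m) (s₂ := x) (e := 1)
      (dd := d) hτ0 (by
        refine h2.trans ?_
        have h5 := add_le_add hQN h3
        linarith) hp2
    have h5 : (2 / q * x + e / 4 + 1) / (2 * τ) ≤ e / 8 := by
      refine le_trans ?_ hτ
      apply div_le_div_of_nonneg_right _ (by positivity)
      have h6 : 2 / q * x ≤ 4 * B := mul_le_mul h2q hxB hx0 (by norm_num)
      linarith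
    linarith
  obtain ⟨t, ht, htS⟩ := cr_core (fun i => om (f i)) F S hom (q := q) (x := x) (e := e) (B := B)
    (ε := ε') (b := 2 / q) (κ := κ') (cn := x) hq1 hq2 hx0 hxB hB1 hε0 hε1 he0 hse.le h2q0
    (by linarith) hκ'0 hκ' (by have := Real.sqrt_nonneg e; linarith) hx0 h1st h2nd hp3
  -- atypical forms
  have hmass : ∑ i, om (f i) ≤ 2 := hp_mass hNr f hi hn
  have htS1 := ex_small (fun i => om (f i)) S hom hmass t htS hσ0.le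
  obtain ⟨u, hu⟩ : ∃ u : Finset ι, u = Finset.univ.filter (fun i => Bad (f i)) := ⟨_, rfl⟩
  have hb3 : ∑ i ∈ u, om (f i) ≤ et := hBad f hf u (fun i hi' => by
    rw [hu, Finset.mem_filter] at hi'
    exact hi'.2)
  have hfin := cr_fin (fun i => om (f i)) S (fun i => Hd A c (la (f i))) hom
    (fun i => Finset.sum_nonneg fun a _ => mul_nonneg (hc a) (sq_nonneg _)) (d := ε')
    (e := et) (C := C₄) het0.le (hp1.trans hdε) hp4 (t.filter (fun i => σ ≤ |S i|)) u hb3 htS1 het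
  refine ⟨t.filter (fun i => σ ≤ |S i|) \ u, ?_, ?_⟩
  · intro i hi'
    rw [Finset.mem_sdiff, Finset.mem_filter] at hi'
    obtain ⟨⟨hit, hiS⟩, hiu⟩ := hi'
    obtain ⟨h2, h3⟩ := ht i hit
    have hS0 : 0 < |S i| := abs_pos.mpr h3
    have hF0 : F i ≠ 0 := by
      intro h4
      rw [h4, abs_zero] at h2
      have := mul_pos hκ'0 hS0
      linarith
    have hco : co (f i) N = 1 := by
      by_contra h4
      apply hF0
      rw [← hFi, lh_odd (hn i) h4]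
      simp
    refine ⟨hco, ?_, fun h => hiu (by rw [hu, Finset.mem_filter]; exact ⟨Finset.mem_univ _, h⟩)⟩
    have h6 : |F i| = |(Lh (f i)).re| * |MX E xv (la (f i))| := by
      rw [← hFi, abs_mul]
    calc κ' * σ ≤ κ' * |S i| := mul_le_mul_of_nonneg_left hiS hκ'0.le
      _ ≤ |F i| := h2
      _ = |(Lh (f i)).re| * |MX E xv (la (f i))| := h6
      _ ≤ _ := mul_le_mul_of_nonneg_right (Complex.abs_re_le_norm _) (abs_nonneg _)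
  · have h2 := (abs_le.mp hsd).1
    have h3 : q * h₀ - q * x ≤ ε' := by
      have h4 : h₀ - x ≤ ε' := by linarith
      have h5 : q * (h₀ - x) ≤ ε' := by
        by_cases h6 : 0 ≤ h₀ - x
        · calc q * (h₀ - x) ≤ 1 * (h₀ - x) := mul_le_mul_of_nonneg_right hq2 h6
            _ ≤ ε' := by linarith
        · push Not at h6
          have : q * (h₀ - x) ≤ 0 := mul_nonpos_of_nonneg_of_nonpos (by linarith) h6.le
          linarith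
      linarith
    rw [← hh₀]
    linarith


end Pool.Agent.EHB

namespace Pool.Agent.TEM

open Complex MeasureTheory ProbabilityTheory
open Pool.Agent.LSP (tau MX sg1 wX QN KerL ExVec)
open Pool.Agent.LEV (Uu Um S2 IsNew co la Lh)
open Pool.Agent.LVB (IsST el ex HB PB JJ Bk Kk AllNew om)
open Pool.Agent.LK (PQ)
open Pool.Agent.LE
open Pool.Agent.LM (cv pp ep Pz th IsV)

/-- **block EH** -/
theorem ex_natT_pr {q : ℝ} (hq1 : 1 / 2 ≤ q) (hq2 : q ≤ 1) {δ : ℝ} (hδ : 0 < δ) :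
    ∃ (m₀ : ℕ) (s : ℕ → ℝ) (e κ τ : ℝ) (N₀ : ℕ), 1 ≤ m₀ ∧ (∀ m, s m ≠ 0 → 1 ≤ m ∧ m ≤ m₀) ∧
      0 < e ∧ 0 < κ ∧ 0 < τ ∧ ∀ (N : ℕ) [Fact N.Prime], N₀ ≤ N →
      ∀ (T : ℝ) (ρ : ℝ → ℝ) (B₀ E : ℕ) (x : ℕ → ℝ), ExVec q m₀ s e N T ρ B₀ E x →
      ∀ Bad : S2 N → Prop, (∀ {ι : Type} [Fintype ι] (f : ι → S2 N), AllNew f →
        ∀ u : Finset ι, (∀ i ∈ u, Bad (f i)) → ∑ i ∈ u, om (f i) ≤ τ) →
      (q - δ) * (N / 24) ≤ ({f : S2 N | (IsNew f ∧ co f N = 1) ∧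
        κ ≤ ‖Lh f‖ * |MX E x (la f)| ∧ ¬ Bad f}.ncard : ℝ) := by
  obtain ⟨A, w, ε₁, N₀, hA, hw, hε₁, hnat⟩ := Pool.Agent.LSP.nat_gen (q := q) (by linarith) hq2 hδ
  obtain ⟨m₀, s, e, κ, et, N₁, hm₀, hs, he, hκ, het, hN₁⟩ := Pool.Agent.EHB.eh_harm hq1 hq2 A w hA hw hε₁
  refine ⟨m₀, s, e, κ, et, N₀ + N₁, hm₀, hs, he, hκ, het,
    fun N _ hN T ρ B₀ E x hv Bad hBad => ?_⟩
  have h4 := hnat N (by omega)
    (fun f => κ ≤ ‖Lh f‖ * |MX E x (la f)| ∧ ¬ Bad f)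
    (hN₁ N (by omega) T ρ B₀ E x hv Bad hBad)
  calc (q - δ) * ((N : ℝ) / 24) = (N : ℝ) / 24 * (q - δ) := by ring
    _ ≤ _ := h4

end Pool.Agent.TEM

namespace Pool.Agent.TEM

/-- block EH -/
theorem ex_natT : type_of% @ex_natT_pr := @ex_natT_pr

end Pool.Agent.TEM
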