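import Pool.Agent.Lib_helper15.TEM.Defs
import Pool.Agent.Lib_helper53.LMF.MM

/-! T12, blocks MO and MS, common part: Euler products, scaling, the independence. -/

set_option autoImplicit false

namespace Pool.Agent.TEM

open Complex MeasureTheory ProbabilityTheory
open Pool.Agent.LSP (tau MX sg1)
open Pool.Agent.LEV (Uu Um)
open Pool.Agent.LVB (IsST el ex HB PB JJ Bk Kk)
open Pool.Agent.LK (PQ)
open Pool.Agent.LE
open Pool.Agent.LM (cv pp ep Pz th IsV mmS mmB mmK mm_prime mm_memPz mm_small mm_th mm_three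
  mm_w2_ok mm_w1_ok mmB_meas mmS_meas mmB_dep mmS_dep th_meas th_dep)

/-! ## Euler products -/

theorem mo_Pz_succ (n : ℕ) : Pz (n + 1) = if (n + 1).Prime then insert (n + 1) (Pz n) else Pz n := by
  ext p
  unfold Pz
  split_ifs with h
  · simp only [Finset.mem_filter, Finset.mem_Icc, Finset.mem_insert]
    constructor
    · rintro ⟨⟨h1, h2⟩, h3⟩
      by_cases h4 : p = n + 1
      · exact Or.inl h4
      · exact Or.inr ⟨⟨h1, by omega⟩, h3⟩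
    · rintro (rfl | ⟨⟨h1, h2⟩, h3⟩)
      · exact ⟨⟨by omega, le_rfl⟩, h⟩
      · exact ⟨⟨h1, by omega⟩, h3⟩
  · simp only [Finset.mem_filter, Finset.mem_Icc]
    constructor
    · rintro ⟨⟨h1, h2⟩, h3⟩
      refine ⟨⟨h1, ?_⟩, h3⟩
      by_contra hc
      have : p = n + 1 := by omega
      rw [this] at h3
      exact h h3
    · rintro ⟨⟨h1, h2⟩, h3⟩
      exact ⟨⟨h1, by omega⟩, h3⟩

/-- `∏_{p ≤ n} (1 - 1/p) ≥ 1/n` -/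
theorem mo_euler_low (n : ℕ) (hn : 1 ≤ n) : 1 / (n : ℝ) ≤ ∏ p ∈ Pz n, (1 - 1 / (p : ℝ)) := by
  induction n, hn using Nat.le_induction with
  | base =>
    have : Pz 1 = ∅ := by
      unfold Pz
      rw [Finset.filter_eq_empty_iff]
      intro p hp
      rw [Finset.mem_Icc] at hp
      have : p = 1 := by omega
      rw [this]
      exact Nat.not_prime_one
    rw [this]
    simp
  | succ n hn ih =>
    have hn0 : (0 : ℝ) < n := by exact_mod_cast hn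
    have h1 : (0 : ℝ) ≤ ∏ p ∈ Pz n, (1 - 1 / (p : ℝ)) := (by positivity : (0 : ℝ) ≤ 1 / n).trans ih
    have h2 : 1 / ((n + 1 : ℕ) : ℝ) = (1 - 1 / ((n + 1 : ℕ) : ℝ)) * (1 / n) := by
      push_cast
      field_simp
      ring
    have h3 : 0 ≤ 1 - 1 / ((n + 1 : ℕ) : ℝ) := by
      have : 1 / ((n + 1 : ℕ) : ℝ) ≤ 1 := by
        rw [div_le_one (by positivity)]
        push_cast
        linarith
      linarith
    rw [mo_Pz_succ]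
    split_ifs with h
    · rw [Finset.prod_insert (fun hc => by have := (mm_prime hc).2; omega)]
      exact h2.le.trans (mul_le_mul_of_nonneg_left ih h3)
    · refine le_trans ?_ ih
      apply one_div_le_one_div_of_le hn0
      push_cast
      linarith

variable {q : ℕ} [NeZero q]

theorem mo_fac {χ : DirichletCharacter ℂ q} (h : PQ χ) {p : ℕ} (hp : p.Prime) :
    1 / 4 ≤ (1 - 1 / (p : ℝ)) * (1 - cv χ p / p) ∧
    (1 - 1 / (p : ℝ)) * (1 - cv χ p / p) ≤ 1 ∧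
    (1 - 1 / (p : ℝ)) ^ 2 ≤ (1 - 1 / (p : ℝ)) * (1 - cv χ p / p) := by
  have hp2 : (2 : ℝ) ≤ p := by exact_mod_cast hp.two_le
  have hp0 : (0 : ℝ) < p := by linarith
  have hi : 1 / (p : ℝ) ≤ 1 / 2 := one_div_le_one_div_of_le (by norm_num) hp2
  have hi0 : 0 < 1 / (p : ℝ) := by positivity
  have e1 : cv χ p / p = cv χ p * (1 / p) := by ring
  rw [e1]
  set t := 1 / (p : ℝ) with ht
  rcases (LM.cv_cases_pr h p).2 with h3 | h3 | h3 <;> rw [h3]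
  · refine ⟨by nlinarith, by nlinarith, by nlinarith⟩
  · refine ⟨by nlinarith, by nlinarith, by nlinarith⟩
  · refine ⟨by nlinarith, by nlinarith, by nlinarith⟩

theorem mo_ep {χ : DirichletCharacter ℂ q} (h : PQ χ) {p : ℕ} (hp : p.Prime) :
    1 / 16 ≤ ep χ p := by
  have hp2 : (2 : ℝ) ≤ p := by exact_mod_cast hp.two_le
  have hp0 : (0 : ℝ) < p := by linarith
  have hi : 1 / (p : ℝ) ≤ 1 / 2 := one_div_le_one_div_of_le (by norm_num) hp2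
  have hi0 : 0 < 1 / (p : ℝ) := by positivity
  have hc : |cv χ p| ≤ 1 := by
    rcases (LM.cv_cases_pr h p).2 with h3 | h3 | h3 <;> rw [h3] <;> simp
  have hc2 : cv χ p ^ 2 ≤ 1 := by
    rw [← sq_abs]
    exact pow_le_one₀ (abs_nonneg _) hc
  have a1 : 1 / 2 ≤ 1 - cv χ p / p := by
    have : cv χ p / p ≤ 1 / p := div_le_div_of_nonneg_right (abs_le.mp hc).2 hp0.le
    linarith
  have a2 : 1 / 2 ≤ 1 - cv χ p ^ 2 / p := by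
    have : cv χ p ^ 2 / p ≤ 1 / p := div_le_div_of_nonneg_right hc2 hp0.le
    linarith
  have a3 : 1 / 2 ≤ 1 - 1 / (p : ℝ) := by linarith
  have a4 : 0 < 1 - cv χ p ^ 2 / (p : ℝ) ^ 2 ∧ 1 - cv χ p ^ 2 / (p : ℝ) ^ 2 ≤ 1 := by
    have h4 : cv χ p ^ 2 / (p : ℝ) ^ 2 ≤ 1 / (p : ℝ) ^ 2 :=
      div_le_div_of_nonneg_right hc2 (by positivity)
    have h5 : 1 / (p : ℝ) ^ 2 ≤ 1 / 4 := by
      apply one_div_le_one_div_of_le (by norm_num)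
      nlinarith
    have h6 : 0 ≤ cv χ p ^ 2 / (p : ℝ) ^ 2 := by positivity
    constructor <;> linarith
  unfold ep
  rw [le_div_iff₀ a4.1]
  have b1 : (1 : ℝ) / 4 ≤ (1 - cv χ p / p) ^ 2 := by nlinarith
  have b2 : (1 : ℝ) / 8 ≤ (1 - cv χ p / p) ^ 2 * (1 - 1 / p) := by nlinarith
  have b3 : (1 : ℝ) / 16 ≤ (1 - cv χ p / p) ^ 2 * (1 - 1 / p) * (1 - cv χ p ^ 2 / p) := by
    nlinarith
  linarith [a4.2]

theorem mo_WW_pos {χ : DirichletCharacter ℂ q} (h : PQ χ) {S : Finset ℕ}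
    (hS : ∀ p ∈ S, p.Prime) : 0 < WW χ S := by
  unfold WW
  refine Finset.prod_pos fun p hp => ?_
  have := (mo_fac h (hS p hp)).1
  linarith

theorem mo_WW_le_one {χ : DirichletCharacter ℂ q} (h : PQ χ) {S : Finset ℕ}
    (hS : ∀ p ∈ S, p.Prime) : WW χ S ≤ 1 := by
  unfold WW
  refine Finset.prod_le_one (fun p hp => ?_) fun p hp => (mo_fac h (hS p hp)).2.1
  have := (mo_fac h (hS p hp)).1
  linarith

theorem mo_WW_low {χ : DirichletCharacter ℂ q} (h : PQ χ) (n : ℕ) (hn : 1 ≤ n) :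
    1 / (n : ℝ) ^ 2 ≤ WW χ (Pz n) := by
  have h1 := mo_euler_low n hn
  have hn0 : (0 : ℝ) < n := by exact_mod_cast hn
  calc 1 / (n : ℝ) ^ 2 = (1 / (n : ℝ)) ^ 2 := by rw [div_pow, one_pow]
    _ ≤ (∏ p ∈ Pz n, (1 - 1 / (p : ℝ))) ^ 2 := pow_le_pow_left₀ (by positivity) h1 2
    _ = ∏ p ∈ Pz n, (1 - 1 / (p : ℝ)) ^ 2 := by rw [Finset.prod_pow]
    _ ≤ WW χ (Pz n) := by
        unfold WW
        exact Finset.prod_le_prod (fun p _ => sq_nonneg _) fun p hp =>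
          (mo_fac h (mm_prime hp).1).2.2

theorem mo_Pz_mono {m n : ℕ} (h : m ≤ n) : Pz m ⊆ Pz n := fun _ hp =>
  mm_memPz (mm_prime hp).1 ((mm_prime hp).2.trans h)

theorem mo_PP_prime {z₀ A₁ q : ℕ} {p : ℕ} (hp : p ∈ PP z₀ A₁ q) :
    p.Prime ∧ z₀ < p ∧ p ≤ q ^ A₁ := by
  unfold PP at hp
  obtain ⟨h1, h2⟩ := Finset.mem_sdiff.mp hp
  refine ⟨(mm_prime h1).1, ?_, (mm_prime h1).2⟩
  by_contra hc
  exact h2 (mm_memPz (mm_prime h1).1 (by omega))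

omit [NeZero q] in
theorem mo_WW_split (χ : DirichletCharacter ℂ q) {z₀ A₁ : ℕ} (hz : z₀ ≤ q ^ A₁) :
    WW χ (Pz (q ^ A₁)) = WW χ (PP z₀ A₁ q) * WW χ (Pz z₀) := by
  unfold WW PP
  exact (Finset.prod_sdiff (mo_Pz_mono hz)).symm

omit [NeZero q] in
theorem mo_ep_split (χ : DirichletCharacter ℂ q) {z₀ A₁ : ℕ} (hz : z₀ ≤ q ^ A₁) :
    ∏ p ∈ Pz (q ^ A₁), ep χ p = (∏ p ∈ PP z₀ A₁ q, ep χ p) * ∏ p ∈ Pz z₀, ep χ p := by
  unfold PP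
  exact (Finset.prod_sdiff (mo_Pz_mono hz)).symm

/-! ## Scaling -/

theorem mo_ew_div (P : Measure (ℕ → ℝ)) (I : Finset ℕ) (w : ℕ → ℝ → ℂ) (F : (ℕ → ℝ) → ℝ)
    (c : ℝ) : EW P I w (fun x => F x / c) = EW P I w F / c := by
  unfold EW
  have h1 : ∫ x, ((F x / c : ℝ) : ℂ) * ∏ p ∈ I, w p (x p) ∂P =
      (∫ x, (F x : ℂ) * ∏ p ∈ I, w p (x p) ∂P) / c := by
    rw [← integral_div]
    refine integral_congr_ae (Filter.Eventually.of_forall fun x => ?_)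
    simp only [Complex.ofReal_div]
    ring
  rw [h1]
  ring

/-! ## The vector of a product -/

theorem mo_bound {N A' : ℕ} {vR : ℕ → ℝ} {FR : (ℕ → ℝ) → ℝ} (hR : IsV N vR FR) {M : ℝ}
    (hM : ∀ la : ℕ → ℝ, (∀ p, |la p| ≤ 2) → |FR la| ≤ M) (hN : Real.sqrt N ≤ (A' : ℝ)) (e : ℕ) :
    |vR e| ≤ A' * M := by
  have hM0 : 0 ≤ M := (abs_nonneg _).trans (hM 0 (fun p => by simp))
  by_cases he : vR e = 0
  · rw [he, abs_zero]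
    positivity
  · refine (LM.isv_bound_pr hR hM e).trans (mul_le_mul_of_nonneg_right ?_ hM0)
    exact (Real.sqrt_le_sqrt (by exact_mod_cast (hR.1 e he).2)).trans hN

/-! ## Independence -/

theorem mo_core {z₀ m₀ : ℕ} (hz : m₀ ≤ z₀) {s : ℕ → ℝ} (hs : SuppIn m₀ s) {σ : ℝ}
    (hσ : σ = ∑ m ∈ Finset.Icc 1 m₀, s m ^ 2) {δs δ ε₁ Cp Cr : ℝ} (hδs0 : 0 < δs)
    (hδ0 : 0 ≤ δ) (hδs : δ ≤ δs) (hδ8 : δ ≤ 1 / 8)
    (hsp : ∀ (q : ℕ) [NeZero q] (χ : DirichletCharacter ℂ q), PQ χ →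
    ∀ (I : Finset ℕ) (P : Measure (ℕ → ℝ)), (∀ p ∈ I, p.Prime) → IsST I P → Pz z₀ ⊆ I →
    ∀ F : (ℕ → ℝ) → ℝ, Measurable F → (∃ M : ℝ, ∀ x, (∀ p ∈ I, |x p| ≤ 2) → |F x| ≤ M) →
    (∀ x y : ℕ → ℝ, (∀ p ∈ Pz z₀, x p = y p) → F x = F y) →
    (∀ r s z : ℂ, ‖r‖ ≤ δs → ‖s‖ ≤ δs → ‖z‖ ≤ δs → ‖EW P I (w2 χ r s z) F‖ ≤
      2 * (∫ x, |F x| * ∏ p ∈ Pz z₀, pp χ p (x p) ^ 2 ∂P) /
        ∏ p ∈ Pz z₀, ∫ x, pp χ p (x p) ^ 2 ∂P) ∧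
    (∀ z : ℂ, ‖z‖ ≤ δs → ‖EW P I (w1 χ z) F‖ ≤
      2 * (∫ x, |F x| * ∏ p ∈ Pz z₀, pp χ p (x p) ∂P) / ∏ p ∈ Pz z₀, ∫ x, pp χ p (x p) ∂P) ∧
    EW P I (w2 χ 0 0 0) F = (((∫ x, F x * ∏ p ∈ Pz z₀, pp χ p (x p) ^ 2 ∂P) /
        ∏ p ∈ Pz z₀, ∫ x, pp χ p (x p) ^ 2 ∂P : ℝ) : ℂ) ∧
    EW P I (w1 χ 0) F = (((∫ x, F x * ∏ p ∈ Pz z₀, pp χ p (x p) ∂P) /
        ∏ p ∈ Pz z₀, ∫ x, pp χ p (x p) ∂P : ℝ) : ℂ))
    {χ : DirichletCharacter ℂ q} (h : PQ χ) {I : Finset ℕ} {P : Measure (ℕ → ℝ)}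
    (hI : ∀ p ∈ I, p.Prime) (hP : IsST I P) {A₁ p₀ : ℕ} (hz01 : z₀ < q ^ A₁)
    (hzI : Pz (q ^ A₁) ⊆ I)
    (hp₀ : p₀ ∈ I) (hp₀z : q ^ A₁ < p₀) (hCp : Cp / Real.sqrt p₀ ≤ ε₁)
    (hpert : ∀ r s z : ℂ, ‖r‖ ≤ δ → ‖s‖ ≤ δ → ‖z‖ ≤ δ →
      ‖(∫ x, ((1 - p₀ / (p₀ + 1) * x p₀ / Real.sqrt p₀ : ℝ) : ℂ) ^ 2 * w2 χ r s z p₀ (x p₀) ∂P) /
      (∫ x, w2 χ r s z p₀ (x p₀) ∂P) - 1‖ ≤ Cp / Real.sqrt p₀ ∧
    ‖(∫ x, ((1 - p₀ / (p₀ + 1) * x p₀ / Real.sqrt p₀ : ℝ) : ℂ) * w1 χ z p₀ (x p₀) ∂P) /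
      (∫ x, w1 χ z p₀ (x p₀) ∂P) - 1‖ ≤ Cp / Real.sqrt p₀)
    {R : (ℕ → ℝ) → ℝ} (hRm : Measurable R)
    (hRd : ∀ x y : ℕ → ℝ, (∀ p ∈ PP z₀ A₁ q, x p = y p) → R x = R y) {H : ℝ}
    (hr1 : EW P I (w2 χ 0 0 0) (fun x => R x ^ 2) = ((1 / H : ℝ) : ℂ))
    (hr2 : EW P I (w1 χ 0) R = 1)
    (hr3 : ∀ r s z : ℂ, ‖r‖ ≤ δ → ‖s‖ ≤ δ → ‖z‖ ≤ δ →
      ‖EW P I (w2 χ r s z) (fun x => R x ^ 2)‖ ≤ Cr / H)
    (hr4 : ∀ z : ℂ, ‖z‖ ≤ δ → ‖EW P I (w1 χ z) R‖ ≤ Cr)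
    {U₁ U₂ : ℝ} (hU₁ : U₁ = ∏ p ∈ Pz z₀, ∫ x, pp χ p (x p) ∂P)
    (hU₂ : U₂ = ∏ p ∈ Pz z₀, ∫ x, pp χ p (x p) ^ 2 ∂P) :
    ∃ T₁ T₂ : ℝ, |T₁ - 1| ≤ ε₁ ∧ |T₂ - 1| ≤ ε₁ ∧
      EW P I (w2 χ 0 0 0) (fun x => (th p₀ x * (mmB χ z₀ m₀ s x * R x)) ^ 2) =
        ((T₂ * (σ / U₂ * (1 / H)) : ℝ) : ℂ) ∧
      EW P I (w1 χ 0) (fun x => th p₀ x * (mmB χ z₀ m₀ s x * R x) * mmS m₀ s x) =
        ((T₁ * (σ / U₁) : ℝ) : ℂ) ∧
      (∀ r s' z : ℂ, ‖r‖ ≤ δ → ‖s'‖ ≤ δ → ‖z‖ ≤ δ → ‖EW P I (w2 χ r s' z)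
        (fun x => (th p₀ x * (mmB χ z₀ m₀ s x * R x)) ^ 2)‖ ≤
          (1 + ε₁) * (2 * σ / U₂ * (Cr / H))) ∧
      (∀ z : ℂ, ‖z‖ ≤ δ → ‖EW P I (w1 χ z)
        (fun x => th p₀ x * (mmB χ z₀ m₀ s x * R x) * mmS m₀ s x)‖ ≤
          (1 + ε₁) * (2 * σ / U₁ * Cr)) := by
  have hzI0 : Pz z₀ ⊆ I := fun p hp => hzI (mo_Pz_mono hz01.le hp)
  obtain ⟨s1, s2, s3, s4⟩ := mm_small hz hs hδs0 hsp h hI hP hzI0 hσ hU₁ hU₂
  obtain ⟨t1, T₁, T₂, t2, t3⟩ := mm_th h hI hP hp₀ hδ8 hpert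
  have d0 : ‖(0 : ℂ)‖ ≤ δ := by rw [norm_zero]; exact hδ0
  have hJ2 : PP z₀ A₁ q ⊆ I := by
    intro p hp
    exact hzI (mm_memPz (mo_PP_prime hp).1 (mo_PP_prime hp).2.2)
  have hJ3 : ({p₀} : Finset ℕ) ⊆ I := by
    intro p hp
    rw [Finset.mem_singleton] at hp
    rw [hp]
    exact hp₀
  have h31 : Disjoint ({p₀} : Finset ℕ) (Pz z₀) := by
    rw [Finset.disjoint_singleton_left]
    intro hp
    have := (mm_prime hp).2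
    omega
  have h32 : Disjoint ({p₀} : Finset ℕ) (PP z₀ A₁ q) := by
    rw [Finset.disjoint_singleton_left]
    intro hp
    have := (mo_PP_prime hp).2.2
    omega
  have h12 : Disjoint (Pz z₀) (PP z₀ A₁ q) := by
    rw [Finset.disjoint_left]
    intro p hp hp'
    have := (mo_PP_prime hp').2.1
    have := (mm_prime hp).2
    omega
  have f2 : (fun x => (th p₀ x * (mmB χ z₀ m₀ s x * R x)) ^ 2) =
      fun x => th p₀ x ^ 2 * (mmB χ z₀ m₀ s x ^ 2 * R x ^ 2) := by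
    funext x
    ring
  have f1 : (fun x => th p₀ x * (mmB χ z₀ m₀ s x * R x) * mmS m₀ s x) =
      fun x => th p₀ x * ((mmB χ z₀ m₀ s x * mmS m₀ s x) * R x) := by
    funext x
    ring
  have k2 : ∀ r s' z : ℂ, ‖r‖ ≤ δ → ‖s'‖ ≤ δ → ‖z‖ ≤ δ → EW P I (w2 χ r s' z)
      (fun x => (th p₀ x * (mmB χ z₀ m₀ s x * R x)) ^ 2) =
      EW P I (w2 χ r s' z) (fun x => th p₀ x ^ 2) *
        (EW P I (w2 χ r s' z) (fun x => mmB χ z₀ m₀ s x ^ 2) *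
          EW P I (w2 χ r s' z) (fun x => R x ^ 2)) := by
    intro r s' z hr hs' hz'
    obtain ⟨a1, a2⟩ := mm_w2_ok χ hI hP (hr.trans hδ8) (hs'.trans hδ8) (hz'.trans hδ8)
    rw [f2]
    refine mm_three hP a1 a2 hJ3 hzI0 hJ2 h31 h32 h12 (F₁ := fun x => th p₀ x ^ 2)
      (F₂ := fun x => mmB χ z₀ m₀ s x ^ 2) (F₃ := fun x => R x ^ 2)
      ((th_meas p₀).pow_const 2)
      ((mmB_meas χ z₀ m₀ s).pow_const 2) (hRm.pow_const 2) ?_ ?_ ?_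
    · intro x y hxy
      simp only [th_dep p₀ x y hxy]
    · intro x y hxy
      simp only [mmB_dep χ hz s hxy]
    · intro x y hxy
      simp only [hRd x y hxy]
  have k1 : ∀ z : ℂ, ‖z‖ ≤ δ → EW P I (w1 χ z)
      (fun x => th p₀ x * (mmB χ z₀ m₀ s x * R x) * mmS m₀ s x) =
      EW P I (w1 χ z) (th p₀) *
        (EW P I (w1 χ z) (fun x => mmB χ z₀ m₀ s x * mmS m₀ s x) *
          EW P I (w1 χ z) R) := by
    intro z hz'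
    obtain ⟨a1, a2⟩ := mm_w1_ok χ hI hP (hz'.trans hδ8)
    rw [f1]
    refine mm_three hP a1 a2 hJ3 hzI0 hJ2 h31 h32 h12 (F₁ := th p₀)
      (F₂ := fun x => mmB χ z₀ m₀ s x * mmS m₀ s x) (F₃ := R) (th_meas p₀)
      ((mmB_meas χ z₀ m₀ s).mul (mmS_meas m₀ s)) hRm ?_ ?_ ?_
    · intro x y hxy
      exact th_dep p₀ x y hxy
    · intro x y hxy
      simp only [mmB_dep χ hz s hxy, mmS_dep hz s hxy]
    · intro x y hxy
      exact hRd x y hxy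
  have e2 := (t1 0 0 0 d0 d0 d0).1
  have e1 := (t1 0 0 0 d0 d0 d0).2
  rw [t2] at e2
  rw [t3] at e1
  refine ⟨T₁, T₂, ?_, ?_, ?_, ?_, ?_, ?_⟩
  · rw [← Complex.ofReal_one, ← Complex.ofReal_sub, Complex.norm_real] at e1
    exact e1.trans hCp
  · rw [← Complex.ofReal_one, ← Complex.ofReal_sub, Complex.norm_real] at e2
    exact e2.trans hCp
  · rw [k2 0 0 0 d0 d0 d0, t2, s3, hr1]
    push_cast
    ring
  · rw [k1 0 d0, t3, s4, hr2]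
    push_cast
    ring
  · intro r s' z hr hs' hz'
    rw [k2 r s' z hr hs' hz', norm_mul, norm_mul]
    have g1 : ‖EW P I (w2 χ r s' z) (fun x => th p₀ x ^ 2)‖ ≤ 1 + ε₁ := by
      have := (t1 r s' z hr hs' hz').1
      calc _ = ‖1 + (EW P I (w2 χ r s' z) (fun x => th p₀ x ^ 2) - 1)‖ := by
            rw [add_sub_cancel]
        _ ≤ ‖(1 : ℂ)‖ + _ := norm_add_le _ _
        _ ≤ 1 + ε₁ := by
            rw [norm_one]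
            linarith
    have g2 := s1 r s' z (hr.trans hδs) (hs'.trans hδs) (hz'.trans hδs)
    have g3 := hr3 r s' z hr hs' hz'
    refine mul_le_mul g1 (mul_le_mul g2 g3 (norm_nonneg _) ((norm_nonneg _).trans g2)) (by positivity)
      ((norm_nonneg _).trans g1)
  · intro z hz'
    rw [k1 z hz', norm_mul, norm_mul]
    have g1 : ‖EW P I (w1 χ z) (th p₀)‖ ≤ 1 + ε₁ := by
      have := (t1 0 0 z d0 d0 hz').2
      calc _ = ‖1 + (EW P I (w1 χ z) (th p₀) - 1)‖ := by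
            rw [add_sub_cancel]
        _ ≤ ‖(1 : ℂ)‖ + _ := norm_add_le _ _
        _ ≤ 1 + ε₁ := by
            rw [norm_one]
            linarith
    have g2 := s2 z (hz'.trans hδs)
    have g3 := hr4 z hz'
    exact mul_le_mul g1 (mul_le_mul g2 g3 (norm_nonneg _) ((norm_nonneg _).trans g2)) (by positivity)
      ((norm_nonneg _).trans g1)

end Pool.Agent.TEM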