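import Pool.Agent.Lib_helper15.TEM.Defs
import Pool.Agent.Lib_helper41.LVBF.PSB
import Pool.Agent.Lib_helper41.LVBF.PSC
import Pool.Agent.Lib_helper41.LVBF.PSD
import Pool.Agent.Lib_helper41.LVBF.LEN
import Pool.Agent.Lib_helper53.LMF.MC

/-! T12, block BK. -/

set_option autoImplicit false

namespace Pool.Agent.TEM

open Complex MeasureTheory ProbabilityTheory
open Pool.Agent.LSP (tau MX)
open Pool.Agent.LEV (Uu Um)
open Pool.Agent.LVB (IsST el ex HB PB JJ Bk Kk)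
open Pool.Agent.LK (PQ)
open Pool.Agent.LE
open Pool.Agent.LM (cv pp ep Pz th IsV)

/-- the square root of `q^(2 A₁)` -/
theorem bk_half (q A₁ : ℕ) : ((q ^ (2 * A₁) : ℕ) : ℝ) ^ (1 / 2 : ℝ) = ((q ^ A₁ : ℕ) : ℝ) := by
  have h1 : ((q ^ (2 * A₁) : ℕ) : ℝ) = ((q ^ A₁ : ℕ) : ℝ) ^ 2 := by
    push_cast
    rw [← pow_mul, mul_comm]
  rw [h1, ← Real.rpow_natCast, ← Real.rpow_mul (Nat.cast_nonneg _)]
  norm_num

/-- **block BK**: the blocks -/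
theorem bl_facts_pr {ε : ℝ} (hε : 0 < ε) (C' : ℝ) (A₁ : ℕ) (hA₁ : 1 ≤ A₁) :
    ∃ (A : ℕ) (C : ℝ) (z₂ : ℕ),
    1 ≤ A ∧ 1 ≤ C ∧ ∀ z₀ : ℕ, z₂ ≤ z₀ → ∃ q₀ : ℕ, ∀ q : ℕ, q₀ ≤ q →
      (∀ i < nb A₁ q, ∀ j < nb A₁ q, i ≠ j → Disjoint (bl z₀ A₁ q i) (bl z₀ A₁ q j)) ∧
      (Finset.range (nb A₁ q)).biUnion (bl z₀ A₁ q) = PP z₀ A₁ q ∧
      (∀ i < nb A₁ q, C' * HB (bl z₀ A₁ q i) ≤ dg A A₁ q i) ∧
      (∀ i < nb A₁ q, 1 ≤ dg A A₁ q i) ∧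
      ∑ i ∈ Finset.range (nb A₁ q), 4 * Real.exp (-(dg A A₁ q i : ℝ)) ≤ ε ∧
      ∑ p ∈ PP z₀ A₁ q, (p : ℝ) ^ (-(3 / 2) : ℝ) ≤ ε ∧
      (∑ p ∈ PP z₀ A₁ q, Real.log p / p ≤ C * Real.log q) ∧
      ∑ i ∈ Finset.range (nb A₁ q), (dg A A₁ q i : ℝ) * Real.exp (-(i : ℝ)) ≤ C := by
  obtain ⟨Ch, hCh, hhb⟩ := Pool.Agent.LVB.hb_bounds_pr
  obtain ⟨A0, hA0⟩ := Pool.Agent.LVB.kk_sum_pr (δ := ε / 4) (by positivity)
  obtain ⟨z₂, hz₂⟩ := Pool.Agent.LVB.p32_sum_pr hε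
  obtain ⟨Cl, hCl⟩ := Pool.Agent.LM.sum_log_le_pr
  obtain ⟨Cp, hCp0, hCp⟩ : ∃ Cp : ℝ, 0 ≤ Cp ∧ C' ≤ Cp := ⟨max C' 0, le_max_right _ _, le_max_left _ _⟩
  obtain ⟨A, hA1, hA2, hA3⟩ : ∃ A : ℕ, 1 ≤ A ∧ A0 ≤ A ∧ Cp * (1 + Ch) ≤ A := by
    obtain ⟨m, hm⟩ := exists_nat_ge (Cp * (1 + Ch))
    refine ⟨1 + A0 + m, by omega, by omega, hm.trans ?_⟩
    push_cast
    have : (0 : ℝ) ≤ A0 := Nat.cast_nonneg _
    linarith
  refine ⟨A, 1 + 5 * A + (A₁ + |Cl|), z₂, hA1, ?_, fun z₀ hz₀ => ?_⟩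
  · have h1 : (0 : ℝ) ≤ A := Nat.cast_nonneg _
    have h2 : (0 : ℝ) ≤ A₁ := Nat.cast_nonneg _
    have h3 := abs_nonneg Cl
    linarith
  obtain ⟨N₁, hN₁⟩ := hhb (1 / 2) (by norm_num) (by norm_num) z₀
  obtain ⟨N₂, hN₂⟩ := hA0 A hA2
  obtain ⟨N₃, hN₃⟩ := Pool.Agent.LVB.bk_disj_pr (1 / 2) (by norm_num) (by norm_num) z₀
  obtain ⟨N₄, hN₄⟩ := (Filter.tendsto_atTop.1 Pool.Agent.LVB.PSD_logs 2).exists_forall_of_atTop
  refine ⟨N₁ + N₂ + N₃ + N₄ + 3, fun q hq => ?_⟩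
  obtain ⟨Z, hZ⟩ : ∃ Z : ℕ, Z = q ^ (2 * A₁) := ⟨_, rfl⟩
  have hqZ : q ≤ Z := by
    rw [hZ]
    calc q = q ^ 1 := (pow_one q).symm
      _ ≤ q ^ (2 * A₁) := Nat.pow_le_pow_right (by omega) (by omega)
  obtain ⟨h11, h12, -, -⟩ := hN₁ Z (by omega)
  have h2 := hN₂ Z (by omega)
  obtain ⟨h31, h32, h33, h34⟩ := hN₃ Z (by omega)
  have h4 := hN₄ Z (by omega)
  have hhalf : (Z : ℝ) ^ (1 / 2 : ℝ) = ((q ^ A₁ : ℕ) : ℝ) := by rw [hZ]; exact bk_half q A₁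
  have hZ1 : (1 : ℝ) ≤ Z := by exact_mod_cast (by omega : 1 ≤ Z)
  have hbl : ∀ i, bl z₀ A₁ q i = Bk (1 / 2) z₀ Z i := fun i => by rw [hZ]; rfl
  have hnb : nb A₁ q = JJ Z := by rw [hZ]; rfl
  have hdg : ∀ i, dg A A₁ q i = Kk A Z i := fun i => by rw [hZ]; rfl
  simp only [hbl, hnb, hdg]
  have hB0 : ∀ i, 0 ≤ HB (Bk (1 / 2) z₀ Z i) := fun i => by
    unfold HB
    exact Finset.sum_nonneg fun p _ => by positivity
  have hPP : ∀ p, p ∈ PP z₀ A₁ q ↔ p.Prime ∧ p ≤ q ^ A₁ ∧ z₀ < p := by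
    intro p
    unfold PP Pool.Agent.LM.Pz
    simp only [Finset.mem_sdiff, Finset.mem_filter, Finset.mem_Icc]
    constructor
    · rintro ⟨⟨⟨h1, h2⟩, h3⟩, h4⟩
      refine ⟨h3, h2, ?_⟩
      by_contra h5
      exact h4 ⟨⟨h1, not_lt.mp h5⟩, h3⟩
    · rintro ⟨h1, h2, h3⟩
      refine ⟨⟨⟨h1.one_lt.le, h2⟩, h1⟩, ?_⟩
      rintro ⟨⟨h4, h5⟩, -⟩
      omega
  refine ⟨h32, ?_, ?_, ?_, ?_, ?_, ?_, ?_⟩
  · ext p
    rw [Finset.mem_biUnion, hPP]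
    constructor
    · rintro ⟨i, hi, hp⟩
      rw [hbl] at hp
      obtain ⟨h5, h6, h7⟩ := h33 i p hp
      refine ⟨h5, ?_, h6⟩
      have h8 : (Z : ℝ) ^ (1 / 2 * Real.exp (-(i : ℝ))) ≤ (Z : ℝ) ^ (1 / 2 : ℝ) := by
        refine Real.rpow_le_rpow_of_exponent_le hZ1 ?_
        have h9 : Real.exp (-(i : ℝ)) ≤ 1 :=
          Real.exp_le_one_iff.2 (neg_nonpos.2 (Nat.cast_nonneg i))
        linarith
      rw [hhalf] at h8
      exact_mod_cast h7.trans h8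
    · rintro ⟨h5, h6, h7⟩
      have h8 : p ∈ Pool.Agent.LVB.Pr Z := by
        unfold Pool.Agent.LVB.Pr
        rw [Finset.mem_filter, Finset.mem_range]
        refine ⟨lt_of_le_of_lt h6 ?_, h5⟩
        rw [hZ]
        exact Nat.pow_lt_pow_right (by omega) (by omega)
      obtain ⟨i, hi, hp⟩ := h34 p h8 h7 (by rw [hhalf]; exact_mod_cast h6)
      exact ⟨i, Finset.mem_range.mpr hi, by rw [hbl]; exact hp⟩
  · intro i hi
    have h5 : C' * HB (Bk (1 / 2) z₀ Z i) ≤ Cp * HB (Bk (1 / 2) z₀ Z i) :=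
      mul_le_mul_of_nonneg_right hCp (hB0 i)
    refine h5.trans ?_
    by_cases h6 : i + 1 < JJ Z
    · rw [Kk, if_pos h6]
      have h7 := mul_le_mul_of_nonneg_left (h11 i h6) hCp0
      push_cast
      have h8 : (0 : ℝ) ≤ A := Nat.cast_nonneg _
      have h9 : (0 : ℝ) ≤ i := Nat.cast_nonneg _
      have h10 : Cp * (1 + Ch) = Cp + Cp * Ch := by ring
      nlinarith
    · rw [Kk, if_neg h6]
      have h7 := mul_le_mul_of_nonneg_left (h12 i) hCp0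
      push_cast
      have h8 : (0 : ℝ) ≤ A := Nat.cast_nonneg _
      have h9 : Real.log (Real.log Z) ≤ (⌈Real.log (Real.log Z)⌉₊ : ℝ) := Nat.le_ceil _
      obtain ⟨L, hL⟩ : ∃ L : ℝ, L = Real.log (Real.log Z) := ⟨_, rfl⟩
      rw [← hL] at h7 h9 h4 ⊢
      calc Cp * HB (Bk (1 / 2) z₀ Z i) ≤ Cp * (L + Ch) := h7
        _ ≤ Cp * (L + Ch * L) := by
            refine mul_le_mul_of_nonneg_left ?_ hCp0
            have : Ch * 1 ≤ Ch * L := mul_le_mul_of_nonneg_left (by linarith) hCh.le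
            linarith
        _ = Cp * (1 + Ch) * L := by ring
        _ ≤ A * L := mul_le_mul_of_nonneg_right hA3 (by linarith)
        _ ≤ A * (⌈L⌉₊ : ℝ) := mul_le_mul_of_nonneg_left h9 h8
  · intro i hi
    by_cases h6 : i + 1 < JJ Z
    · rw [Kk, if_pos h6]
      exact Nat.mul_pos (by omega) (by omega)
    · rw [Kk, if_neg h6]
      refine Nat.mul_pos (by omega) (Nat.ceil_pos.mpr (by linarith))
  · rw [← Finset.mul_sum]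
    linarith
  · exact hz₂ _ fun p hp => lt_of_le_of_lt hz₀ ((hPP p).mp hp).2.2
  · have h5 : ∑ p ∈ PP z₀ A₁ q, Real.log p / p ≤ ∑ p ∈ Pz (q ^ A₁), Real.log p / p := by
      refine Finset.sum_le_sum_of_subset_of_nonneg (Finset.sdiff_subset) fun p hp _ => ?_
      exact div_nonneg (Pool.Agent.LM.mc_logp hp) (Nat.cast_nonneg _)
    have h6 : 2 ≤ q ^ A₁ := by
      calc 2 ≤ q := by omega
        _ = q ^ 1 := (pow_one q).symm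
        _ ≤ q ^ A₁ := Nat.pow_le_pow_right (by omega) hA₁
    have h7 := hCl (q ^ A₁) h6
    have h8 : Real.log ((q ^ A₁ : ℕ) : ℝ) = A₁ * Real.log q := by
      push_cast
      rw [Real.log_pow]
    have h9 : 1 ≤ Real.log q := by
      rw [Real.le_log_iff_exp_le (by exact_mod_cast (by omega : 0 < q))]
      have := Real.exp_one_lt_d9
      have h10 : (3 : ℝ) ≤ q := by exact_mod_cast (by omega : 3 ≤ q)
      linarith
    rw [h8] at h7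
    have h11 : Cl ≤ |Cl| * Real.log q := by
      calc Cl ≤ |Cl| := le_abs_self _
        _ = |Cl| * 1 := (mul_one _).symm
        _ ≤ |Cl| * Real.log q := mul_le_mul_of_nonneg_left h9 (abs_nonneg _)
    have h12 : 0 ≤ (1 + 5 * (A : ℝ)) * Real.log q := by positivity
    calc _ ≤ A₁ * Real.log q + Cl := h5.trans h7
      _ ≤ (1 + 5 * A) * Real.log q + (A₁ * Real.log q + |Cl| * Real.log q) := by linarith
      _ = _ := by ring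
  · refine (Pool.Agent.LVB.LEN_sum A Z h4).trans ?_
    have h2 : (0 : ℝ) ≤ A₁ := Nat.cast_nonneg _
    have h3 := abs_nonneg Cl
    linarith

end Pool.Agent.TEM

namespace Pool.Agent.TEM

/-- block BK -/
theorem bl_facts : type_of% @bl_facts_pr := @bl_facts_pr

end Pool.Agent.TEM
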