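import Pool.Agent.Lib_helper15.TEM.Defs
import Pool.Agent.Lib_helper41.LVBF.LOC

/-! T12, parts I and IV, block LA: second order expansion of the local integrals. -/

set_option autoImplicit false

namespace Pool.Agent.TEM

open Complex MeasureTheory ProbabilityTheory
open Pool.Agent.LSP (tau MX)
open Pool.Agent.LEV (Uu Um)
open Pool.Agent.LVB (IsST el ex HB PB JJ Bk Kk)
open Pool.Agent.LK (PQ)
open Pool.Agent.LE
open Pool.Agent.LM (cv pp ep Pz th IsV)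

theorem la_exp1 {s t : ℝ} (hs : |s| ≤ 48) (ht0 : 0 ≤ t) (ht1 : t ≤ 1) :
    ‖((Real.exp (s * t) : ℝ) : ℂ) - (1 + (s : ℂ) * t + ((s : ℂ) ^ 2 / 2) * t ^ 2)‖ ≤
      110592 * Real.exp 48 * t ^ 3 := by
  have h := Complex.norm_exp_sub_sum_le_norm_mul_exp ((s * t : ℝ) : ℂ) 3
  have e1 : ∑ m ∈ Finset.range 3, ((s * t : ℝ) : ℂ) ^ m / (m.factorial : ℂ) =
      1 + (s : ℂ) * t + ((s : ℂ) ^ 2 / 2) * t ^ 2 := by
    simp [Finset.sum_range_succ, Nat.factorial]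
    ring
  rw [e1, ← Complex.ofReal_exp, Complex.norm_real, Real.norm_eq_abs] at h
  refine h.trans ?_
  have h2 : |s * t| ≤ 48 * t := by
    rw [abs_mul, abs_of_nonneg ht0]
    exact mul_le_mul_of_nonneg_right hs ht0
  have h3 : |s * t| ≤ 48 := h2.trans (by linarith)
  have h4 : |s * t| ^ 3 ≤ (48 * t) ^ 3 := pow_le_pow_left₀ (abs_nonneg _) h2 3
  have h5 : Real.exp |s * t| ≤ Real.exp 48 := Real.exp_le_exp.2 h3
  calc |s * t| ^ 3 * Real.exp |s * t| ≤ (48 * t) ^ 3 * Real.exp 48 :=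
        mul_le_mul h4 h5 (Real.exp_pos _).le (by positivity)
    _ = 110592 * Real.exp 48 * t ^ 3 := by ring

theorem la_el {p : ℕ} (hp : (400 : ℝ) ≤ p) {a : ℂ} (ha : ‖a‖ ≤ 3) {x : ℝ} (hx : |x| ≤ 2) :
    ‖el p a x - (1 + (a * x) * ((1 / Real.sqrt p : ℝ) : ℂ) +
      (a ^ 2 * ((x : ℂ) ^ 2 - 1)) * ((1 / Real.sqrt p : ℝ) : ℂ) ^ 2)‖ ≤
      1458 * (1 / Real.sqrt p) ^ 3 ∧ ‖el p a x‖ ≤ 2 := by
  have hsp : 20 ≤ Real.sqrt p := by
    apply Real.le_sqrt_of_sq_le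
    norm_num
    exact_mod_cast hp
  obtain ⟨t, ht⟩ : ∃ t : ℝ, t = 1 / Real.sqrt p := ⟨_, rfl⟩
  rw [← ht]
  have ht0 : 0 ≤ t := by rw [ht]; positivity
  have ht1 : t ≤ 1 / 20 := by
    rw [ht]
    exact one_div_le_one_div_of_le (by norm_num) hsp
  have ht2 : t ^ 2 = 1 / p := by
    rw [ht, div_pow, Real.sq_sqrt (by linarith), one_pow]
  obtain ⟨u, hu⟩ : ∃ u : ℂ, u = a * t := ⟨_, rfl⟩
  have hnt : ‖(t : ℂ)‖ = t := by rw [Complex.norm_real, Real.norm_eq_abs, abs_of_nonneg ht0]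
  have hun : ‖u‖ ≤ 3 * t := by
    rw [hu, norm_mul, hnt]
    exact mul_le_mul_of_nonneg_right ha ht0
  have hden : el p a x = (1 - u * x + u ^ 2)⁻¹ := by
    rw [el, hu]
    congr 1
    have e1 : a * (x : ℂ) / (Real.sqrt p : ℂ) = a * t * x := by
      rw [ht]
      push_cast
      ring
    have e2 : a ^ 2 / (p : ℂ) = (a * t) ^ 2 := by
      have e3 : (t : ℂ) ^ 2 = 1 / (p : ℂ) := by
        have := congrArg (fun r : ℝ => (r : ℂ)) ht2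
        push_cast at this
        exact this
      rw [mul_pow, e3]
      ring
    rw [e1, e2]
  have hx2 : ‖(x : ℂ)‖ ≤ 2 := by rw [Complex.norm_real]; exact hx
  have hlow : 1 / 2 ≤ ‖1 - u * x + u ^ 2‖ := by
    have e1 : (1 : ℂ) = (1 - u * x + u ^ 2) + (u * x - u ^ 2) := by ring
    have e2 : (1 : ℝ) ≤ ‖1 - u * x + u ^ 2‖ + ‖u * x - u ^ 2‖ := by
      have := norm_add_le (1 - u * x + u ^ 2) (u * x - u ^ 2)
      rw [← e1, norm_one] at this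
      exact this
    have e3 : ‖u * x - u ^ 2‖ ≤ 3 * t * 2 + (3 * t) ^ 2 := by
      refine (norm_sub_le _ _).trans ?_
      rw [norm_mul, norm_pow]
      exact add_le_add (mul_le_mul hun hx2 (norm_nonneg _) (by positivity))
        (pow_le_pow_left₀ (norm_nonneg _) hun 2)
    nlinarith
  have hne : 1 - u * x + u ^ 2 ≠ 0 := by
    intro h
    rw [h, norm_zero] at hlow
    linarith
  have hel : ‖el p a x‖ ≤ 2 := by
    rw [hden, norm_inv]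
    rw [inv_le_comm₀ (by linarith) (by norm_num)]
    linarith
  refine ⟨?_, hel⟩
  have hmul : el p a x * (1 - u * x + u ^ 2) = 1 := by
    rw [hden]
    exact inv_mul_cancel₀ hne
  have hkey : el p a x - (1 + (a * x) * (t : ℂ) + (a ^ 2 * ((x : ℂ) ^ 2 - 1)) * (t : ℂ) ^ 2) =
      -(el p a x * (u ^ 3 * (2 * x - x ^ 3) + u ^ 4 * (x ^ 2 - 1))) := by
    have e1 : (1 + (a * x) * (t : ℂ) + (a ^ 2 * ((x : ℂ) ^ 2 - 1)) * (t : ℂ) ^ 2) =
        1 + u * x + u ^ 2 * (x ^ 2 - 1) := by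
      rw [hu]; ring
    rw [e1]
    linear_combination (1 + u * x + u ^ 2 * ((x : ℂ) ^ 2 - 1)) * hmul
  rw [hkey, norm_neg, norm_mul]
  have hx3 : ‖(2 * x - x ^ 3 : ℂ)‖ ≤ 12 := by
    refine (norm_sub_le _ _).trans ?_
    rw [norm_mul, norm_pow]
    have : ‖(x : ℂ)‖ ^ 3 ≤ 2 ^ 3 := pow_le_pow_left₀ (norm_nonneg _) hx2 3
    have h2 : ‖(2 : ℂ)‖ = 2 := by norm_num
    rw [h2]
    linarith
  have hx4 : ‖(x ^ 2 - 1 : ℂ)‖ ≤ 5 := by
    refine (norm_sub_le _ _).trans ?_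
    rw [norm_pow, norm_one]
    have : ‖(x : ℂ)‖ ^ 2 ≤ 2 ^ 2 := pow_le_pow_left₀ (norm_nonneg _) hx2 2
    linarith
  have hu3 : ‖u‖ ^ 3 ≤ (3 * t) ^ 3 := pow_le_pow_left₀ (norm_nonneg _) hun 3
  have hu4 : ‖u‖ ^ 4 ≤ (3 * t) ^ 4 := pow_le_pow_left₀ (norm_nonneg _) hun 4
  have ht3 : 0 ≤ t ^ 3 := pow_nonneg ht0 3
  have h1 : ‖u ^ 3 * (2 * x - x ^ 3) + u ^ 4 * ((x : ℂ) ^ 2 - 1)‖ ≤ 729 * t ^ 3 := by
    refine (norm_add_le _ _).trans ?_
    rw [norm_mul, norm_mul, norm_pow, norm_pow]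
    have e1 : ‖u‖ ^ 3 * ‖(2 * x - x ^ 3 : ℂ)‖ ≤ (3 * t) ^ 3 * 12 :=
      mul_le_mul hu3 hx3 (norm_nonneg _) (by positivity)
    have e2 : ‖u‖ ^ 4 * ‖(x ^ 2 - 1 : ℂ)‖ ≤ (3 * t) ^ 4 * 5 :=
      mul_le_mul hu4 hx4 (norm_nonneg _) (by positivity)
    have e3 : (3 * t) ^ 3 * 12 = 324 * t ^ 3 := by ring
    have e4 : (3 * t) ^ 4 * 5 ≤ 405 * t ^ 3 := by
      have : (3 * t) ^ 4 * 5 = 405 * t ^ 3 * t := by ring
      rw [this]
      exact mul_le_of_le_one_right (by positivity) (by linarith)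
    linarith
  calc ‖el p a x‖ * ‖u ^ 3 * (2 * x - x ^ 3) + u ^ 4 * ((x : ℂ) ^ 2 - 1)‖ ≤ 2 * (729 * t ^ 3) :=
        mul_le_mul hel h1 (norm_nonneg _) (by norm_num)
    _ = 1458 * t ^ 3 := by ring

theorem la_one_add (w : ℂ) : ‖1 + w‖ ≤ 1 + w.re + ‖w‖ ^ 2 / 2 := by
  have h1 : ‖1 + w‖ ^ 2 = 1 + 2 * w.re + ‖w‖ ^ 2 := by
    rw [← Complex.normSq_eq_norm_sq, ← Complex.normSq_eq_norm_sq, Complex.normSq_apply,
      Complex.normSq_apply]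
    simp
    ring
  have h2 : w.re ^ 2 ≤ ‖w‖ ^ 2 := by
    rw [← Complex.normSq_eq_norm_sq, Complex.normSq_apply]
    nlinarith [mul_self_nonneg w.im]
  have h3 : 0 ≤ 1 + w.re + ‖w‖ ^ 2 / 2 := by nlinarith [sq_nonneg (w.re + 1)]
  refine le_of_sq_le_sq ?_ h3
  rw [h1]
  nlinarith [sq_nonneg (w.re + ‖w‖ ^ 2 / 2)]

theorem la_mom {I : Finset ℕ} {P : Measure (ℕ → ℝ)} (hP : IsST I P) {p : ℕ} (hp : p ∈ I)
    (G : ℝ → ℝ) (hG : Measurable G) (b K : ℝ) (hG0 : ∀ x, |x| ≤ 2 → 0 ≤ G x)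
    (h : ∀ x : ℝ, |x| ≤ 2 → G x ≤ 1 + b * x + K) : ∫ x, G (x p) ∂P ≤ 1 + K := by
  have hprob := hP.prob
  have hbd : ∀ᵐ x ∂P, |x p| ≤ 2 := hP.bdd.mono fun x hx => hx p hp
  have hmeas : Measurable fun x : ℕ → ℝ => x p := measurable_pi_apply p
  have hx1 : Integrable (fun x : ℕ → ℝ => x p) P := by
    refine Integrable.of_bound hmeas.aestronglyMeasurable 2 ?_
    filter_upwards [hbd] with x hx
    exact hx
  have hm1 : ∫ x, x p ∂P = 0 := by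
    have h1 := hP.mom p hp 1
    have h2 : ∀ x : ℕ → ℝ, Uu (x p) 1 = x p := fun x => rfl
    simp only [h2] at h1
    rw [h1]
    simp
  have hGi : Integrable (fun x => G (x p)) P := by
    refine Integrable.of_bound (hG.comp hmeas).aestronglyMeasurable (1 + |b| * 2 + |K|) ?_
    filter_upwards [hbd] with x hx
    rw [Real.norm_eq_abs, abs_of_nonneg (hG0 _ hx)]
    refine (h _ hx).trans ?_
    have h3 := le_abs_self (b * x p)
    rw [abs_mul] at h3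
    have h4 : |b| * |x p| ≤ |b| * 2 := mul_le_mul_of_nonneg_left hx (abs_nonneg b)
    have h5 := le_abs_self K
    linarith
  have hi : Integrable (fun x : ℕ → ℝ => 1 + b * x p) P :=
    (integrable_const 1).add (hx1.const_mul b)
  have h1 : ∫ x, G (x p) ∂P ≤ ∫ x, (1 + b * x p + K) ∂P := by
    refine integral_mono_ae hGi ?_ ?_
    · exact hi.add (integrable_const K)
    · filter_upwards [hbd] with x hx
      exact h _ hx
  have h2 : ∫ x, (1 + b * x p + K) ∂P = 1 + K := by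
    rw [integral_add hi (integrable_const K),
      integral_add (integrable_const 1) (hx1.const_mul b), integral_const_mul, hm1]
    simp
  linarith

theorem loc_exp_pr : ∃ C : ℝ, 1 ≤ C ∧ ∀ p : ℕ, p.Prime → C ≤ p → ∀ (I : Finset ℕ)
    (P : Measure (ℕ → ℝ)), IsST I P → p ∈ I → ∀ k : ℝ, |k| ≤ 24 → ∀ a b c d : ℂ,
    ‖a‖ ≤ 3 → ‖b‖ ≤ 3 → ‖c‖ ≤ 3 → ‖d‖ ≤ 3 →
    ‖∫ x, ((Real.exp (k * x p / Real.sqrt p) : ℝ) : ℂ) * e4 p a b c d (x p) ∂P -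
      (1 + ((k + a + b + c + d) ^ 2 - (a ^ 2 + b ^ 2 + c ^ 2 + d ^ 2)) / (2 * p))‖ ≤
        C * (p : ℝ) ^ (-(3 / 2) : ℝ) ∧
    ∫ x, Real.exp (k * x p / Real.sqrt p) * ‖e4 p a b c d (x p)‖ ∂P ≤ 1 + C / p := by
  obtain ⟨M₀, hM₀⟩ : ∃ M : ℝ, M = 110592 * Real.exp 48 := ⟨_, rfl⟩
  have hM₀g : 110592 ≤ M₀ := by
    have := Real.one_le_exp (x := 48) (by norm_num)
    rw [hM₀]
    linarith
  obtain ⟨M₁, hM₁⟩ : ∃ M : ℝ, M = 10 * M₀ ^ 2 := ⟨_, rfl⟩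
  have hM01 : M₀ ≤ M₁ := by rw [hM₁]; nlinarith
  obtain ⟨M₂, hM₂⟩ : ∃ M : ℝ, M = 10 * M₁ ^ 2 := ⟨_, rfl⟩
  have hM12 : M₁ ≤ M₂ := by rw [hM₂]; nlinarith
  obtain ⟨M₃, hM₃⟩ : ∃ M : ℝ, M = 10 * M₂ ^ 2 := ⟨_, rfl⟩
  have hM23 : M₂ ≤ M₃ := by rw [hM₃]; nlinarith
  refine ⟨2 * M₃ + 2592, by linarith, ?_⟩
  intro p hp hCp I P hP hpI k hk a b c d ha hb hc hd
  have hp400 : (400 : ℝ) ≤ p := by linarith
  have hp0 : (0 : ℝ) < p := by linarith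
  have hsp : 1 ≤ Real.sqrt p := by
    apply Real.le_sqrt_of_sq_le
    linarith
  obtain ⟨t, ht⟩ : ∃ t : ℝ, t = 1 / Real.sqrt p := ⟨_, rfl⟩
  have ht0 : 0 ≤ t := by rw [ht]; positivity
  have ht1 : t ≤ 1 := by
    rw [ht, div_le_one (by linarith)]
    exact hsp
  have ht2 : t ^ 2 = 1 / p := by
    rw [ht, div_pow, Real.sq_sqrt (by linarith), one_pow]
  have ht3 : (p : ℝ) ^ (-(3 / 2) : ℝ) = t ^ 3 := by
    rw [ht, Real.sqrt_eq_rpow, div_pow, one_pow, ← Real.rpow_natCast, ← Real.rpow_mul hp0.le,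
      Real.rpow_neg hp0.le, one_div]
    norm_num
  have ht30 : 0 ≤ t ^ 3 := pow_nonneg ht0 3
  have ht20 : 0 ≤ t ^ 2 := pow_nonneg ht0 2
  have ht32 : t ^ 3 ≤ t ^ 2 := by
    have : t ^ 3 = t ^ 2 * t := by ring
    rw [this]
    exact mul_le_of_le_one_right ht20 ht1
  have hdiv : ∀ s : ℝ, s / Real.sqrt p = s * t := fun s => by rw [ht]; ring
  have ht2c : (t : ℂ) ^ 2 = 1 / (p : ℂ) := by
    have := congrArg (fun r : ℝ => (r : ℂ)) ht2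
    push_cast at this
    exact this
  have hnt : ‖(t : ℂ)‖ = t := by rw [Complex.norm_real, Real.norm_eq_abs, abs_of_nonneg ht0]
  have hxn : ∀ x : ℝ, |x| ≤ 2 → ‖(x : ℂ)‖ ≤ 2 := fun x hx => by rw [Complex.norm_real]; exact hx
  have h1M : ‖(1 : ℂ)‖ ≤ M₀ := by rw [norm_one]; linarith
  have hel : ∀ a : ℂ, ‖a‖ ≤ 3 → ∀ x : ℝ, |x| ≤ 2 → ‖a * x‖ ≤ M₀ ∧
      ‖a ^ 2 * ((x : ℂ) ^ 2 - 1)‖ ≤ M₀ ∧ ‖el p a x - (1 + (a * x) * (t : ℂ) +
      (a ^ 2 * ((x : ℂ) ^ 2 - 1)) * (t : ℂ) ^ 2)‖ ≤ M₀ * t ^ 3 := by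
    intro a ha x hx
    refine ⟨?_, ?_, ?_⟩
    · rw [norm_mul]
      have := mul_le_mul ha (hxn x hx) (norm_nonneg _) (by norm_num)
      linarith
    · rw [norm_mul, norm_pow]
      have h1 : ‖a‖ ^ 2 ≤ 3 ^ 2 := pow_le_pow_left₀ (norm_nonneg _) ha 2
      have h2 : ‖(x : ℂ) ^ 2 - 1‖ ≤ 5 := by
        refine (norm_sub_le _ _).trans ?_
        rw [norm_pow, norm_one]
        have : ‖(x : ℂ)‖ ^ 2 ≤ 2 ^ 2 := pow_le_pow_left₀ (norm_nonneg _) (hxn x hx) 2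
        linarith
      have := mul_le_mul h1 h2 (norm_nonneg _) (by norm_num)
      linarith
    · have := (la_el hp400 ha hx).1
      rw [← ht] at this
      refine this.trans ?_
      exact mul_le_mul_of_nonneg_right (by linarith) ht30
  have hsM : ∀ s : ℝ, |s| ≤ 48 → ‖(s : ℂ)‖ ≤ M₀ ∧ ‖(s : ℂ) ^ 2 / 2‖ ≤ M₀ := fun s hs => by
    have h1 : ‖(s : ℂ)‖ ≤ 48 := by rw [Complex.norm_real]; exact hs
    refine ⟨by linarith, ?_⟩
    rw [norm_div, norm_pow]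
    have h2 : ‖(s : ℂ)‖ ^ 2 ≤ 48 ^ 2 := pow_le_pow_left₀ (norm_nonneg _) h1 2
    have h3 : ‖(2 : ℂ)‖ = 2 := by norm_num
    rw [h3]
    linarith
  have hM1' : (1 : ℝ) ≤ M₀ := by linarith
  have hM2' : (1 : ℝ) ≤ M₁ := by linarith
  have hM3' : (1 : ℝ) ≤ M₂ := by linarith
  have hM02 : M₀ ≤ M₂ := by linarith
  -- the expansion
  have hmain : ∀ x : ℝ, |x| ≤ 2 → ∃ c₂ : ℂ, ‖c₂‖ ≤ M₃ ∧
      c₂ = (k : ℂ) ^ 2 * x ^ 2 / 2 + (a ^ 2 + b ^ 2 + c ^ 2 + d ^ 2) * ((x : ℂ) ^ 2 - 1) +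
        (k * (a + b + c + d) + a * b + a * c + a * d + b * c + b * d + c * d) * (x : ℂ) ^ 2 ∧
      ‖((Real.exp (k * x / Real.sqrt p) : ℝ) : ℂ) * e4 p a b c d x -
        (1 + ((k + a + b + c + d) * x) * (t : ℂ) + c₂ * (t : ℂ) ^ 2)‖ ≤ M₃ * t ^ 3 := by
    intro x hx
    obtain ⟨a1, a2, a3⟩ := hel a ha x hx
    obtain ⟨b1, b2, b3⟩ := hel b hb x hx
    obtain ⟨c1, c2, c3⟩ := hel c hc x hx
    obtain ⟨d1, d2, d3⟩ := hel d hd x hx
    have hs48 : |k * x| ≤ 48 := by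
      rw [abs_mul]
      have := mul_le_mul hk hx (abs_nonneg _) (by norm_num)
      linarith
    have e1 := la_exp1 hs48 ht0 ht1
    rw [← hM₀] at e1
    have hs := hsM _ hs48
    have q1 := Pool.Agent.LVB.LOC_mul ht0 ht1 hM1' h1M a1 a2 h1M b1 b2 a3 b3
    have q2 := Pool.Agent.LVB.LOC_mul ht0 ht1 hM1' h1M c1 c2 h1M d1 d2 c3 d3
    rw [← hM₁] at q1 q2
    have q3 := Pool.Agent.LVB.LOC_mul ht0 ht1 hM2' q1.2.1 q1.2.2.1 q1.2.2.2 q2.2.1 q2.2.2.1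
      q2.2.2.2 q1.1 q2.1
    rw [← hM₂] at q3
    have e2 := e1.trans (mul_le_mul_of_nonneg_right hM02 ht30)
    have q4 := Pool.Agent.LVB.LOC_mul ht0 ht1 hM3' (h1M.trans hM02) (hs.1.trans hM02)
      (hs.2.trans hM02) q3.2.1 q3.2.2.1 q3.2.2.2 e2 q3.1
    rw [← hM₃] at q4
    refine ⟨_, q4.2.2.2, ?_, ?_⟩
    · push_cast
      ring
    · unfold e4
      rw [hdiv]
      refine le_trans (le_of_eq ?_) q4.1
      congr 1
      push_cast
      ring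
  have hmeas4 : Measurable fun x : ℝ => e4 p a b c d x := by
    unfold e4
    exact ((Pool.Agent.LVB.el_meas p a).mul (Pool.Agent.LVB.el_meas p b)).mul
      ((Pool.Agent.LVB.el_meas p c).mul (Pool.Agent.LVB.el_meas p d))
  have hmexp : Measurable fun x : ℝ => Real.exp (k * x / Real.sqrt p) :=
    Real.measurable_exp.comp ((measurable_const.mul measurable_id).div_const _)
  constructor
  · have hexp : ∀ x : ℝ, |x| ≤ 2 →
        ‖((Real.exp (k * x / Real.sqrt p) : ℝ) : ℂ) * e4 p a b c d x -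
          ((1 + ((k + a + b + c + d) ^ 2 - (a ^ 2 + b ^ 2 + c ^ 2 + d ^ 2)) / 2 * (t : ℂ) ^ 2) +
            ((k + a + b + c + d) * t) * x +
            (((k : ℂ) ^ 2 / 2 + (a ^ 2 + b ^ 2 + c ^ 2 + d ^ 2) +
              (k * (a + b + c + d) + a * b + a * c + a * d + b * c + b * d + c * d)) *
                (t : ℂ) ^ 2) * ((x : ℂ) ^ 2 - 1))‖ ≤ M₃ * t ^ 3 := by
      intro x hx
      obtain ⟨c₂, -, h2, h3⟩ := hmain x hx
      refine le_trans (le_of_eq ?_) h3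
      congr 1
      rw [h2]
      ring
    have h2 := Pool.Agent.LVB.LOC_int hP hpI (fun x : ℝ =>
      ((Real.exp (k * x / Real.sqrt p) : ℝ) : ℂ) * e4 p a b c d x)
      ((Complex.measurable_ofReal.comp hmexp).mul hmeas4) _ _ _ _ hexp
    rw [ht3]
    have h3 : (1 + ((k + a + b + c + d) ^ 2 - (a ^ 2 + b ^ 2 + c ^ 2 + d ^ 2)) / (2 * p) : ℂ) =
        1 + ((k + a + b + c + d) ^ 2 - (a ^ 2 + b ^ 2 + c ^ 2 + d ^ 2)) / 2 * (t : ℂ) ^ 2 := by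
      rw [ht2c]
      ring
    rw [h3]
    refine h2.trans ?_
    exact mul_le_mul_of_nonneg_right (by linarith) ht30
  · have hb2 : ∀ x : ℝ, |x| ≤ 2 → Real.exp (k * x / Real.sqrt p) * ‖e4 p a b c d x‖ ≤
        1 + ((k + a + b + c + d : ℂ).re * t) * x + (2 * M₃ + 2592) * t ^ 2 := by
      intro x hx
      obtain ⟨c₂, h1, -, h3⟩ := hmain x hx
      obtain ⟨F, hF⟩ : ∃ F : ℂ, F = ((Real.exp (k * x / Real.sqrt p) : ℝ) : ℂ) *
        e4 p a b c d x := ⟨_, rfl⟩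
      rw [← hF] at h3
      have h4 : Real.exp (k * x / Real.sqrt p) * ‖e4 p a b c d x‖ = ‖F‖ := by
        rw [hF, norm_mul, Complex.norm_real, Real.norm_eq_abs, abs_of_pos (Real.exp_pos _)]
      rw [h4]
      obtain ⟨w, hw⟩ : ∃ w : ℂ, w = ((k + a + b + c + d) * x) * (t : ℂ) := ⟨_, rfl⟩
      rw [← hw] at h3
      have h5 : F = (F - (1 + w + c₂ * (t : ℂ) ^ 2)) + ((1 + w) + c₂ * (t : ℂ) ^ 2) := by ring
      have h6 : ‖F‖ ≤ M₃ * t ^ 3 + (‖1 + w‖ + ‖c₂ * (t : ℂ) ^ 2‖) := by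
        rw [h5]
        exact (norm_add_le _ _).trans (add_le_add h3 (norm_add_le _ _))
      have h7 : ‖c₂ * (t : ℂ) ^ 2‖ ≤ M₃ * t ^ 2 := by
        rw [norm_mul, norm_pow, hnt]
        exact mul_le_mul_of_nonneg_right h1 ht20
      have h8 := la_one_add w
      have h9 : w.re = ((k + a + b + c + d : ℂ).re * t) * x := by
        have : w = (k + a + b + c + d) * ((t * x : ℝ) : ℂ) := by
          rw [hw]
          push_cast
          ring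
        rw [this, Complex.re_mul_ofReal]
        ring
      have h10 : ‖w‖ ≤ 72 * t := by
        rw [hw, norm_mul, norm_mul, hnt]
        have k1 : ‖(k + a + b + c + d : ℂ)‖ ≤ 36 := by
          have k2 : ‖(k : ℂ)‖ ≤ 24 := by rw [Complex.norm_real]; exact hk
          have k3 := norm_add_le (k + a + b + c : ℂ) d
          have k4 := norm_add_le (k + a + b : ℂ) c
          have k5 := norm_add_le (k + a : ℂ) b
          have k6 := norm_add_le (k : ℂ) a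
          linarith
        have k2 := mul_le_mul k1 (hxn x hx) (norm_nonneg _) (by norm_num)
        refine mul_le_mul_of_nonneg_right (k2.trans ?_) ht0
        norm_num
      have h11 : ‖w‖ ^ 2 ≤ (72 * t) ^ 2 := pow_le_pow_left₀ (norm_nonneg _) h10 2
      have h12 : M₃ * t ^ 3 ≤ M₃ * t ^ 2 := mul_le_mul_of_nonneg_left ht32 (by linarith)
      rw [h9] at h8
      nlinarith
    have h3 := la_mom hP hpI (fun x : ℝ => Real.exp (k * x / Real.sqrt p) *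
      ‖e4 p a b c d x‖) (hmexp.mul hmeas4.norm) _ _ (fun x _ => by positivity) hb2
    refine h3.trans (le_of_eq ?_)
    rw [ht2]
    ring

end Pool.Agent.TEM

namespace Pool.Agent.TEM

/-- block LA -/
theorem loc_exp : type_of% @loc_exp_pr := @loc_exp_pr

end Pool.Agent.TEM
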