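import Pool.Agent.Lib_helper15.TEM.Defs
import Pool.Agent.Lib_helper53.LMF.MF
import Pool.Agent.Lib_helper15.TEM.B.LA

/-! T12, parts I and IV. Block LB: the local means at the centre. -/

set_option autoImplicit false

namespace Pool.Agent.TEM

open Complex MeasureTheory ProbabilityTheory
open Pool.Agent.LSP (tau MX)
open Pool.Agent.LEV (Uu Um)
open Pool.Agent.LVB (IsST el ex HB PB JJ Bk Kk)
open Pool.Agent.LK (PQ)
open Pool.Agent.LE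
open Pool.Agent.LM (cv pp ep Pz th IsV)

theorem lb_key {w E e1 e2 : ℝ} (hw0 : 0 ≤ w) (hw : w ≤ 1 / 100) (hE0 : 0 ≤ E) (hE : E ≤ 1 / 100)
    (h1 : |e1| ≤ E) (h2 : |e2| ≤ E) :
    1 - 2 * w + e2 ≤ (1 + 6 * E) * (1 - w + e1) ^ 2 := by
  obtain ⟨a1, a2⟩ := abs_le.1 h1
  obtain ⟨b1, b2⟩ := abs_le.1 h2
  have h3 : 1 - 2 * w - 2 * E ≤ (1 - w + e1) ^ 2 := by nlinarith [sq_nonneg (w - e1)]
  calc 1 - 2 * w + e2 ≤ (1 + 6 * E) * (1 - 2 * w - 2 * E) := by nlinarith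
    _ ≤ _ := mul_le_mul_of_nonneg_left h3 (by linarith)

theorem lb_exp {x : ℝ} (h0 : 0 ≤ x) (h1 : x ≤ 1 / 2) : Real.exp (-(2 * x)) ≤ 1 - x := by
  have h2 : (1 - x)⁻¹ ≤ Real.exp (2 * x) := by
    rw [inv_le_iff_one_le_mul₀ (by linarith)]
    have : 1 + 2 * x ≤ Real.exp (2 * x) := by linarith [Real.add_one_le_exp (2 * x)]
    nlinarith
  rw [Real.exp_neg]
  rw [inv_le_comm₀ (Real.exp_pos _) (by linarith)]
  exact h2

/-- the conclusion of the real lemma -/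
def LBC (v u E R1 R2 e : ℝ) : Prop :=
  1 - (8 * u + E) ≤ R1 ∧ 1 - (8 * u + E) ≤ R2 ∧ R1 ≤ 1 + (3 * u + 2 * E) ∧
    R2 ≤ 1 + (3 * u + 2 * E) ∧ R2 ≤ (1 + 6 * E) * e * R1 ^ 2 ∧
    (1 - u) * (1 - v * u) ≤ (1 + 6 * E) * R1 ∧
    R1 ≤ (1 + 6 * E) * ((1 - u) * (1 - v * u)) * (1 + (1 - v ^ 2) * u)

theorem lb_c1 {u E e1 e2 R1 R2 e : ℝ} (hu0 : 0 < u)
    (hu : u ≤ 1 / 100) (hE : E ≤ 1 / 100) (h1 : |e1| ≤ E) (h2 : |e2| ≤ E)
    (k1 : R1 = (1 - u + e1) * (1 - u)) (k2 : R2 = (1 - 2 * u + e2) * ((1 - u) ^ 5 / (1 + u)))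
    (k3 : e = (1 - u) ^ 3 / (1 + u)) : LBC 1 u E R1 R2 e := by
  have hE0 : 0 ≤ E := (abs_nonneg e1).trans h1
  obtain ⟨a1, a2⟩ := abs_le.1 h1
  obtain ⟨b1, b2⟩ := abs_le.1 h2
  have k4 : 1 - 6 * u ≤ (1 - u) ^ 5 / (1 + u) := by
    rw [le_div_iff₀ (by linarith)]
    have := one_add_mul_le_pow (a := -u) (by linarith) 5
    push_cast at this
    have e5 : (1 + -u) ^ 5 = (1 - u) ^ 5 := by ring
    rw [e5] at this
    nlinarith
  have k5 : (1 - u) ^ 5 / (1 + u) ≤ 1 := by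
    rw [div_le_one (by linarith)]
    have : (1 - u) ^ 5 ≤ 1 := pow_le_one₀ (by linarith) (by linarith)
    linarith
  have k6 : 0 ≤ (1 - u) ^ 5 / (1 + u) := by
    have : 0 < 1 - u := by linarith
    positivity
  refine ⟨?_, ?_, ?_, ?_, ?_, ?_, ?_⟩
  · rw [k1]; nlinarith
  · rw [k2]
    calc 1 - (8 * u + E) ≤ (1 - 2 * u + e2) * (1 - 6 * u) := by nlinarith
      _ ≤ _ := mul_le_mul_of_nonneg_left k4 (by linarith)
  · rw [k1]; nlinarith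
  · rw [k2]
    calc (1 - 2 * u + e2) * ((1 - u) ^ 5 / (1 + u)) ≤ (1 - 2 * u + e2) * 1 :=
          mul_le_mul_of_nonneg_left k5 (by linarith)
      _ ≤ _ := by linarith
  · rw [k1, k2, k3]
    have key := lb_key hu0.le hu hE0 hE h1 h2
    calc (1 - 2 * u + e2) * ((1 - u) ^ 5 / (1 + u)) ≤
        ((1 + 6 * E) * (1 - u + e1) ^ 2) * ((1 - u) ^ 5 / (1 + u)) :=
          mul_le_mul_of_nonneg_right key k6
      _ = _ := by ring
  · rw [k1]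
    have h3 : 1 - u ≤ (1 + 6 * E) * (1 - u + e1) := by nlinarith
    have h4 : 0 ≤ 1 - u := by linarith
    calc (1 - u) * (1 - 1 * u) ≤ ((1 + 6 * E) * (1 - u + e1)) * (1 - 1 * u) :=
          mul_le_mul_of_nonneg_right h3 (by linarith)
      _ = _ := by ring
  · rw [k1]
    have h3 : 1 - u + e1 ≤ (1 + 6 * E) * (1 - u) := by nlinarith
    calc (1 - u + e1) * (1 - u) ≤ ((1 + 6 * E) * (1 - u)) * (1 - u) :=
          mul_le_mul_of_nonneg_right h3 (by linarith)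
      _ = _ := by ring

theorem lb_c0 {u E e1 e2 R1 R2 e : ℝ} (hu0 : 0 < u)
    (hu : u ≤ 1 / 100) (huE : u ^ 2 ≤ E) (hE : E ≤ 1 / 100) (h1 : |e1| ≤ E) (h2 : |e2| ≤ E)
    (k1 : R1 = 1 - u / 2 + e1) (k2 : R2 = (1 - u + e2) * (1 - u))
    (k3 : e = 1 - u) : LBC 0 u E R1 R2 e := by
  have hE0 : 0 ≤ E := (abs_nonneg e1).trans h1
  obtain ⟨a1, a2⟩ := abs_le.1 h1
  obtain ⟨b1, b2⟩ := abs_le.1 h2
  refine ⟨?_, ?_, ?_, ?_, ?_, ?_, ?_⟩
  · rw [k1]; linarith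
  · rw [k2]; nlinarith
  · rw [k1]; linarith
  · rw [k2]; nlinarith
  · rw [k1, k2, k3]
    have key := lb_key (w := u / 2) (by linarith) (by linarith) hE0 hE h1 h2
    have h4 : 0 ≤ 1 - u := by linarith
    calc (1 - u + e2) * (1 - u) = (1 - 2 * (u / 2) + e2) * (1 - u) := by ring
      _ ≤ ((1 + 6 * E) * (1 - u / 2 + e1) ^ 2) * (1 - u) := mul_le_mul_of_nonneg_right key h4
      _ = _ := by ring
  · rw [k1]
    have : (1 - u) * (1 - 0 * u) = 1 - u := by ring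
    rw [this]
    have h6 : 0 ≤ E * (1 - u / 2 - E) := mul_nonneg hE0 (by linarith)
    nlinarith
  · rw [k1]
    have : (1 + 6 * E) * ((1 - u) * (1 - 0 * u)) * (1 + (1 - 0 ^ 2) * u) =
      (1 + 6 * E) * (1 - u ^ 2) := by ring
    rw [this]
    have h6 : (1 + 6 * E) * (1 - E) ≤ (1 + 6 * E) * (1 - u ^ 2) :=
      mul_le_mul_of_nonneg_left (by linarith) (by linarith)
    refine le_trans ?_ h6
    nlinarith

theorem lb_cm {u E e1 e2 R1 R2 e : ℝ} (hu0 : 0 < u)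
    (hu : u ≤ 1 / 100) (hE : E ≤ 1 / 100) (h1 : |e1| ≤ E) (h2 : |e2| ≤ E)
    (k1 : R1 = (1 - u + e1) * (1 + u)) (k2 : R2 = (1 - 2 * u + e2) * ((1 - u) * (1 + u) ^ 3))
    (k3 : e = (1 + u) * (1 - u)) : LBC (-1) u E R1 R2 e := by
  have hE0 : 0 ≤ E := (abs_nonneg e1).trans h1
  obtain ⟨a1, a2⟩ := abs_le.1 h1
  obtain ⟨b1, b2⟩ := abs_le.1 h2
  have k4 : 1 ≤ (1 - u) * (1 + u) ^ 3 := by
    have : (1 - u) * (1 + u) ^ 3 = 1 + u * (2 - 2 * u ^ 2 - u ^ 3) := by ring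
    rw [this]
    have h5 : u ^ 2 ≤ 1 := by nlinarith
    have h6 : u ^ 3 ≤ 1 := pow_le_one₀ hu0.le (by linarith)
    have : 0 ≤ u * (2 - 2 * u ^ 2 - u ^ 3) := by
      have h7 : u ^ 2 ≤ 1 / 100 := by nlinarith
      exact mul_nonneg hu0.le (by linarith)
    linarith
  have k5 : (1 - u) * (1 + u) ^ 3 ≤ 1 + 2 * u := by
    have : (1 - u) * (1 + u) ^ 3 = 1 + 2 * u - u ^ 3 * (2 + u) := by ring
    rw [this]
    have : 0 ≤ u ^ 3 * (2 + u) := by positivity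
    linarith
  refine ⟨?_, ?_, ?_, ?_, ?_, ?_, ?_⟩
  · rw [k1]; nlinarith
  · rw [k2]
    calc 1 - (8 * u + E) ≤ (1 - 2 * u + e2) * 1 := by nlinarith
      _ ≤ _ := mul_le_mul_of_nonneg_left k4 (by linarith)
  · rw [k1]; nlinarith
  · rw [k2]
    calc (1 - 2 * u + e2) * ((1 - u) * (1 + u) ^ 3) ≤ (1 - 2 * u + e2) * (1 + 2 * u) :=
          mul_le_mul_of_nonneg_left k5 (by linarith)
      _ ≤ _ := by nlinarith
  · rw [k1, k2, k3]
    have key := lb_key hu0.le hu hE0 hE h1 h2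
    calc (1 - 2 * u + e2) * ((1 - u) * (1 + u) ^ 3) ≤
        ((1 + 6 * E) * (1 - u + e1) ^ 2) * ((1 - u) * (1 + u) ^ 3) :=
          mul_le_mul_of_nonneg_right key (by linarith)
      _ = _ := by ring
  · rw [k1]
    have h3 : 1 - u ≤ (1 + 6 * E) * (1 - u + e1) := by nlinarith
    calc (1 - u) * (1 - -1 * u) ≤ ((1 + 6 * E) * (1 - u + e1)) * (1 - -1 * u) :=
          mul_le_mul_of_nonneg_right h3 (by linarith)
      _ = _ := by ring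
  · rw [k1]
    have h3 : 1 - u + e1 ≤ (1 + 6 * E) * (1 - u) := by nlinarith
    calc (1 - u + e1) * (1 + u) ≤ ((1 + 6 * E) * (1 - u)) * (1 + u) :=
          mul_le_mul_of_nonneg_right h3 (by linarith)
      _ = _ := by ring

/-- the inequalities in one real variable -/
theorem lb_real {v u E e1 e2 N1 N2 R1 R2 e : ℝ} (hv : v = 1 ∨ v = 0 ∨ v = -1) (hu0 : 0 < u)
    (hu : u ≤ 1 / 100) (huE : u ^ 2 ≤ E) (hE : E ≤ 1 / 100) (h1 : |e1| ≤ E) (h2 : |e2| ≤ E)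
    (hN1 : N1 = 1 - (1 + v ^ 2) * u / 2 + e1) (hN2 : N2 = 1 - (1 + v ^ 2) * u + e2)
    (hR1 : R1 = N1 / (1 / (1 - v * u)))
    (hR2 : R2 = N2 / ((1 - v ^ 2 * u ^ 2) / ((1 - u) * (1 - v * u) ^ 4 * (1 - v ^ 2 * u))))
    (he : e = (1 - v * u) ^ 2 * (1 - u) * (1 - v ^ 2 * u) / (1 - v ^ 2 * u ^ 2)) :
    LBC v u E R1 R2 e := by
  have n1 : (1 : ℝ) - u ≠ 0 := by linarith
  have n2 : (1 : ℝ) + u ≠ 0 := by linarith
  rcases hv with hv | hv | hv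
  · subst hv
    have e0 : (1 : ℝ) - 1 ^ 2 * u ^ 2 = (1 - u) * (1 + u) := by ring
    refine lb_c1 hu0 hu hE h1 h2 ?_ ?_ ?_
    · rw [hR1, hN1, div_div_eq_mul_div, div_one]
      ring
    · rw [hR2, hN2, e0, one_mul, one_pow, one_mul]
      rw [div_div_eq_mul_div, mul_div_assoc]
      congr 1
      · ring
      · rw [div_eq_div_iff (mul_ne_zero n1 n2) n2]
        ring
    · rw [he, e0, one_mul, one_pow, one_mul]
      rw [div_eq_div_iff (mul_ne_zero n1 n2) n2]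
      ring
  · subst hv
    refine lb_c0 hu0 hu huE hE h1 h2 ?_ ?_ ?_
    · rw [hR1, hN1]; ring
    · rw [hR2, hN2]
      norm_num
    · rw [he]; norm_num
  · subst hv
    have e0 : (1 : ℝ) - (-1) ^ 2 * u ^ 2 = (1 - u) * (1 + u) := by ring
    have e1' : (1 : ℝ) - -1 * u = 1 + u := by ring
    have e2' : (1 : ℝ) - (-1) ^ 2 * u = 1 - u := by ring
    refine lb_cm hu0 hu hE h1 h2 ?_ ?_ ?_
    · rw [hR1, hN1, div_div_eq_mul_div, div_one]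
      ring
    · rw [hR2, hN2, e0, e1', e2']
      rw [div_div_eq_mul_div, mul_div_assoc]
      congr 1
      · ring
      · rw [div_eq_iff (mul_ne_zero n1 n2)]
        ring
    · rw [he, e0, e1', e2']
      rw [div_eq_iff (mul_ne_zero n1 n2)]
      ring

theorem lb_num {C : ℝ} {p : ℕ} {q : ℕ} [NeZero q] {χ : DirichletCharacter ℂ q} (h : PQ χ)
    {P : Measure (ℕ → ℝ)} {k : ℝ} {f : ℝ → ℝ} {a b c d : ℂ} {M : ℝ}
    (hf : ∀ y : ℝ, ((f y : ℝ) : ℂ) = e4 p a b c d y)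
    (hM : 1 + (((k : ℂ) + a + b + c + d) ^ 2 - (a ^ 2 + b ^ 2 + c ^ 2 + d ^ 2)) / (2 * p) =
      (M : ℂ))
    (hl : ‖∫ x, ((Real.exp (k * x p / Real.sqrt p) : ℝ) : ℂ) * e4 p a b c d (x p) ∂P -
      (1 + ((k + a + b + c + d) ^ 2 - (a ^ 2 + b ^ 2 + c ^ 2 + d ^ 2)) / (2 * p))‖ ≤
        C * (p : ℝ) ^ (-(3 / 2) : ℝ)) :
    |∫ x, Real.exp (k * x p / Real.sqrt p) * f (x p) ∂P - M| ≤ C * (p : ℝ) ^ (-(3 / 2) : ℝ) := by
  rw [hM] at hl
  have e : (fun x : ℕ → ℝ => ((Real.exp (k * x p / Real.sqrt p) : ℝ) : ℂ) * e4 p a b c d (x p)) =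
      fun x => ((Real.exp (k * x p / Real.sqrt p) * f (x p) : ℝ) : ℂ) := by
    funext x
    rw [← hf]
    push_cast
    ring
  rw [e, integral_complex_ofReal, ← Complex.ofReal_sub, Complex.norm_real, Real.norm_eq_abs] at hl
  exact hl

/-- the numerical part of the conclusion -/
theorem lb_fin {C₀ u η v R1 R2 e : ℝ} (hC₀ : 1 ≤ C₀) (hu0 : 0 < u) (hη0 : 0 < η) (hηu : η ≤ u)
    (hCu : (C₀ + 8) * u ≤ 1 / 100) (hva : |v| ≤ 1) (he : 0 < e)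
    (h : LBC v u (C₀ * η) R1 R2 e) :
    Real.exp (-((16 + 6 * C₀) * u)) ≤ R1 ∧ Real.exp (-((16 + 6 * C₀) * u)) ≤ R2 ∧
      R1 ≤ Real.exp ((16 + 6 * C₀) * u) ∧ R2 ≤ Real.exp ((16 + 6 * C₀) * u) ∧
      R2 ≤ Real.exp ((16 + 6 * C₀) * η) * e * R1 ^ 2 ∧
      Real.exp (-((16 + 6 * C₀) * η)) * ((1 - u) * (1 - v * u)) ≤ R1 ∧
      R1 ≤ Real.exp ((16 + 6 * C₀) * η) * ((1 - u) * (1 - v * u)) * (1 + (1 - v ^ 2) * u) := by
  obtain ⟨m1, m2, m3, m4, m5, m6, m7⟩ := h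
  have hCη : C₀ * η ≤ C₀ * u := mul_le_mul_of_nonneg_left hηu (by linarith)
  have hu1 : u ≤ 1 / 100 := by nlinarith
  have hexp1 : Real.exp (-((16 + 6 * C₀) * u)) ≤ 1 - (8 * u + C₀ * η) := by
    have h3 := lb_exp (x := (8 + C₀) * u) (by positivity) (by linarith)
    have h4 : Real.exp (-((16 + 6 * C₀) * u)) ≤ Real.exp (-(2 * ((8 + C₀) * u))) := by
      apply Real.exp_le_exp.2
      have : 0 ≤ C₀ * u := by positivity
      linarith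
    linarith
  have hexp2 : 1 + (3 * u + 2 * (C₀ * η)) ≤ Real.exp ((16 + 6 * C₀) * u) := by
    have h3 := Real.add_one_le_exp ((16 + 6 * C₀) * u)
    have : 0 ≤ C₀ * u := by positivity
    linarith
  have hexp3 : 1 + 6 * (C₀ * η) ≤ Real.exp ((16 + 6 * C₀) * η) := by
    have h3 := Real.add_one_le_exp ((16 + 6 * C₀) * η)
    linarith
  have hR1 : 0 < R1 := by
    have : 0 < 1 - (8 * u + C₀ * η) := by linarith
    linarith
  have hvu : 0 ≤ 1 - v * u := by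
    have h5 := (abs_le.1 hva).2
    have : v * u ≤ 1 * u := mul_le_mul_of_nonneg_right h5 hu0.le
    linarith
  have hv2 : 0 ≤ 1 + (1 - v ^ 2) * u := by
    have h5 : v ^ 2 ≤ 1 := by rw [← sq_abs]; exact pow_le_one₀ (abs_nonneg v) hva
    have : 0 ≤ (1 - v ^ 2) * u := mul_nonneg (by linarith) hu0.le
    linarith
  have hu3 : 0 ≤ 1 - u := by linarith
  refine ⟨hexp1.trans m1, hexp1.trans m2, m3.trans hexp2, m4.trans hexp2, ?_, ?_, ?_⟩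
  · refine m5.trans ?_
    exact mul_le_mul_of_nonneg_right (mul_le_mul_of_nonneg_right hexp3 he.le) (sq_nonneg _)
  · rw [Real.exp_neg, inv_mul_le_iff₀ (Real.exp_pos _)]
    exact m6.trans (mul_le_mul_of_nonneg_right hexp3 hR1.le)
  · refine m7.trans ?_
    exact mul_le_mul_of_nonneg_right (mul_le_mul_of_nonneg_right hexp3
      (mul_nonneg hu3 hvu)) hv2

theorem rat_zero_pr : ∃ (C : ℝ) (p₁ : ℕ), 1 ≤ C ∧ ∀ (q : ℕ) [NeZero q] (χ : DirichletCharacter ℂ q),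
    PQ χ → ∀ p : ℕ, p.Prime → p₁ ≤ p → ∀ (I : Finset ℕ) (P : Measure (ℕ → ℝ)), IsST I P →
    p ∈ I → Real.exp (-(C / p)) ≤ r1 χ P p ∧ Real.exp (-(C / p)) ≤ r2 χ P p ∧
      r1 χ P p ≤ Real.exp (C / p) ∧ r2 χ P p ≤ Real.exp (C / p) ∧
      r2 χ P p ≤ Real.exp (C * (p : ℝ) ^ (-(3 / 2) : ℝ)) * ep χ p * r1 χ P p ^ 2 ∧
      Real.exp (-(C * (p : ℝ) ^ (-(3 / 2) : ℝ))) * ((1 - 1 / (p : ℝ)) * (1 - cv χ p / p)) ≤
        r1 χ P p ∧
      r1 χ P p ≤ Real.exp (C * (p : ℝ) ^ (-(3 / 2) : ℝ)) * ((1 - 1 / (p : ℝ)) *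
        (1 - cv χ p / p)) * (1 + (1 - cv χ p ^ 2) / p) := by
  obtain ⟨C₀, hC₀, hloc⟩ := loc_exp
  refine ⟨16 + 6 * C₀, ⌈100 * (C₀ + 8)⌉₊, by linarith, ?_⟩
  intro q _ χ hχ p hp hp1 I P hP hpI
  have hpr : 100 * (C₀ + 8) ≤ (p : ℝ) := (Nat.le_ceil _).trans (by exact_mod_cast hp1)
  have hp0 : (0 : ℝ) < p := by nlinarith
  have hp1' : (1 : ℝ) ≤ p := by nlinarith
  set u : ℝ := 1 / (p : ℝ) with hu
  set η : ℝ := (p : ℝ) ^ (-(3 / 2) : ℝ) with hη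
  set v : ℝ := cv χ p with hv
  have hu0 : 0 < u := by positivity
  have hη0 : 0 < η := by positivity
  have hCu : (C₀ + 8) * u ≤ 1 / 100 := by
    rw [hu, mul_one_div, div_le_iff₀ hp0]; linarith
  have hu1 : u ≤ 1 / 100 := by nlinarith
  have hηu : η ≤ u := by
    rw [hη, hu, one_div, ← Real.rpow_neg_one]
    exact Real.rpow_le_rpow_of_exponent_le hp1' (by norm_num)
  have hu2 : u ^ 2 ≤ η := by
    have : u ^ 2 = (p : ℝ) ^ (-2 : ℝ) := by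
      rw [hu, div_pow, one_pow, Real.rpow_neg hp0.le, one_div]
      norm_num
    rw [this, hη]
    exact Real.rpow_le_rpow_of_exponent_le hp1' (by norm_num)
  have hEE : C₀ * η ≤ 1 / 100 := by nlinarith
  have huE : u ^ 2 ≤ C₀ * η := by nlinarith
  have hc := (Pool.Agent.LM.cv_cases_pr hχ p).1
  have hcc := (Pool.Agent.LM.cv_cases_pr hχ p).2
  have hva : |v| ≤ 1 := Pool.Agent.LM.me_cv hχ p
  have hvn : ‖((v : ℝ) : ℂ)‖ ≤ 3 := by
    rw [Complex.norm_real, Real.norm_eq_abs]; linarith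
  have hn1 : ‖(1 : ℂ)‖ ≤ 3 := by simp
  have hn0 : ‖(0 : ℂ)‖ ≤ 3 := by simp
  have hCp : C₀ ≤ (p : ℝ) := by nlinarith
  have hf1 : ∀ y : ℝ, ((pp χ p y : ℝ) : ℂ) = e4 p 1 (v : ℂ) 0 0 y := by
    intro y
    rw [Pool.Agent.LM.me_el hχ y, e4, Pool.Agent.LM.mf_el0, hc]
    ring
  have hf2 : ∀ y : ℝ, ((pp χ p y ^ 2 : ℝ) : ℂ) = e4 p 1 1 (v : ℂ) (v : ℂ) y := by
    intro y
    push_cast
    rw [Pool.Agent.LM.me_el hχ y, e4, hc]
    ring
  have hk1 : |-(1 + v)| ≤ 24 := by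
    rw [abs_neg]
    have := abs_add_le 1 v
    rw [abs_one] at this
    linarith
  have hk2 : |-(2 * (1 + v))| ≤ 24 := by
    rw [abs_neg, abs_mul, abs_two]
    have := abs_add_le 1 v
    rw [abs_one] at this
    linarith
  have l1 := lb_num (f := fun y => pp χ p y) (M := 1 - (1 + v ^ 2) * u / 2) hχ hf1 (by
    rw [hu]; push_cast; ring) (hloc p hp hCp I P hP hpI (-(1 + v)) hk1 1 (v : ℂ) 0 0 hn1 hvn hn0 hn0).1
  have l2 := lb_num (f := fun y => pp χ p y ^ 2) (M := 1 - (1 + v ^ 2) * u) hχ hf2 (by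
    rw [hu]; push_cast; ring) (hloc p hp hCp I P hP hpI (-(2 * (1 + v))) hk2 1 1 (v : ℂ) (v : ℂ)
      hn1 hn1 hvn hvn).1
  obtain ⟨d1, d2⟩ := Pool.Agent.LM.pp_int_pr hχ hP hpI hp
  have q1 : r1 χ P p = (∫ x, Real.exp (-(1 + v) * x p / Real.sqrt p) * pp χ p (x p) ∂P) /
      (1 / (1 - v * u)) := by
    unfold r1
    rw [d1]
    have : (fun x : ℕ → ℝ => Real.exp (-lx χ p (x p)) * pp χ p (x p)) =
      fun x => Real.exp (-(1 + v) * x p / Real.sqrt p) * pp χ p (x p) := by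
      funext x
      unfold lx
      congr 2
      ring
    rw [this, hu, mul_one_div]
  have q2 : r2 χ P p = (∫ x, Real.exp (-(2 * (1 + v)) * x p / Real.sqrt p) * pp χ p (x p) ^ 2 ∂P) /
      ((1 - v ^ 2 * u ^ 2) / ((1 - u) * (1 - v * u) ^ 4 * (1 - v ^ 2 * u))) := by
    unfold r2
    rw [d2]
    have : (fun x : ℕ → ℝ => Real.exp (-(2 * lx χ p (x p))) * pp χ p (x p) ^ 2) =
      fun x => Real.exp (-(2 * (1 + v)) * x p / Real.sqrt p) * pp χ p (x p) ^ 2 := by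
      funext x
      unfold lx
      congr 2
      ring
    rw [this, hu, mul_one_div, mul_one_div, div_pow, one_pow, mul_one_div]
  have q3 : ep χ p = (1 - v * u) ^ 2 * (1 - u) * (1 - v ^ 2 * u) / (1 - v ^ 2 * u ^ 2) := by
    unfold ep
    rw [hu, mul_one_div, mul_one_div, div_pow, one_pow, mul_one_div]
  have hL := lb_real (E := C₀ * η)
    (e1 := (∫ x, Real.exp (-(1 + v) * x p / Real.sqrt p) * pp χ p (x p) ∂P) -
      (1 - (1 + v ^ 2) * u / 2))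
    (e2 := (∫ x, Real.exp (-(2 * (1 + v)) * x p / Real.sqrt p) * pp χ p (x p) ^ 2 ∂P) -
      (1 - (1 + v ^ 2) * u)) hcc hu0 hu1 huE hEE l1 l2 (by ring) (by ring) q1 q2 q3
  have hep : 0 < ep χ p := (Pool.Agent.LM.ga_facts_pr hχ hp).1
  have e1 : v / (p : ℝ) = v * u := by rw [hu]; ring
  have e2 : (1 - v ^ 2) / (p : ℝ) = (1 - v ^ 2) * u := by rw [hu]; ring
  have e3 : (16 + 6 * C₀) / (p : ℝ) = (16 + 6 * C₀) * u := by rw [hu]; ring
  rw [e1, e2, e3]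
  exact lb_fin hC₀ hu0 hη0 hηu hCu hva hep hL

end Pool.Agent.TEM

namespace Pool.Agent.TEM

/-- block LB -/
theorem rat_zero : type_of% @rat_zero_pr := @rat_zero_pr

end Pool.Agent.TEM
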