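import Pool.Agent.Lib_helper15.TEM.Defs
import Pool.Agent.Lib_helper53.LMF.ME
import Pool.Agent.Lib_helper53.LMF.MG
import Pool.Agent.Lib_helper15.TEM.B.LA

/-! T12, parts I and IV, block LC: the local means off the centre. -/

set_option autoImplicit false

namespace Pool.Agent.TEM

open Complex MeasureTheory ProbabilityTheory
open Pool.Agent.LSP (tau MX)
open Pool.Agent.LEV (Uu Um)
open Pool.Agent.LVB (IsST el ex HB PB JJ Bk Kk)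
open Pool.Agent.LK (PQ)
open Pool.Agent.LE
open Pool.Agent.LM (cv pp ep Pz th IsV)

/-- quotients of perturbed numbers -/
theorem lc_abs {N D : ℂ} {N0 D0 E : ℝ} (hN0 : 1 / 2 ≤ N0) (hD0 : 1 / 2 ≤ D0)
    (hN : ‖N - N0‖ ≤ E) (hD : ‖D - D0‖ ≤ E) (hE : E ≤ 1 / 8) :
    D ≠ 0 ∧ ‖N / D‖ ≤ Real.exp (6 * E) * (N0 / D0) := by
  have hE0 : 0 ≤ E := (norm_nonneg _).trans hN
  have h1 : ‖N‖ ≤ N0 + E := by
    have := norm_add_le (N - N0) (N0 : ℂ)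
    rw [sub_add_cancel, Complex.norm_real, Real.norm_of_nonneg (by linarith)] at this
    linarith
  have h2 : D0 - E ≤ ‖D‖ := by
    have := norm_sub_le D (D - D0)
    rw [sub_sub_cancel, Complex.norm_real, Real.norm_of_nonneg (by linarith)] at this
    linarith
  have hDp : 0 < ‖D‖ := by linarith
  refine ⟨norm_pos_iff.1 hDp, ?_⟩
  have h3 : N0 + E ≤ N0 * Real.exp (2 * E) := by
    have := Real.add_one_le_exp (2 * E)
    nlinarith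
  have h4 : D0 * Real.exp (-(4 * E)) ≤ D0 - E := by
    have h5 := Real.add_one_le_exp (4 * E)
    have h6 : Real.exp (-(4 * E)) * Real.exp (4 * E) = 1 := by rw [← Real.exp_add]; simp
    have h7 : Real.exp (-(4 * E)) ≤ 1 - 2 * E := by
      have h8 : 1 ≤ (1 - 2 * E) * Real.exp (4 * E) := by nlinarith
      have h9 : 0 < Real.exp (4 * E) := Real.exp_pos _
      nlinarith
    nlinarith
  rw [norm_div, div_le_iff₀ hDp]
  have h5 : 0 < Real.exp (-(4 * E)) := Real.exp_pos _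
  calc ‖N‖ ≤ N0 * Real.exp (2 * E) := h1.trans h3
    _ = Real.exp (6 * E) * (N0 / D0) * (D0 * Real.exp (-(4 * E))) := by
        have : Real.exp (2 * E) = Real.exp (6 * E) * Real.exp (-(4 * E)) := by
          rw [← Real.exp_add]; ring_nf
        rw [this]
        field_simp
    _ ≤ Real.exp (6 * E) * (N0 / D0) * ‖D‖ := by
        refine mul_le_mul_of_nonneg_left (h4.trans h2) ?_
        have : 0 ≤ N0 / D0 := div_nonneg (by linarith) (by linarith)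
        positivity

/-- the second order coefficient, for two sets of parameters -/
theorem lc_poly {k : ℝ} (hk : |k| ≤ 24) {a b c d a' b' c' d' : ℂ} {η : ℝ}
    (ha : ‖a‖ ≤ 3) (hb : ‖b‖ ≤ 3) (hc : ‖c‖ ≤ 3) (hd : ‖d‖ ≤ 3)
    (ha' : ‖a'‖ ≤ 3) (hb' : ‖b'‖ ≤ 3) (hc' : ‖c'‖ ≤ 3) (hd' : ‖d'‖ ≤ 3)
    (h1 : ‖a - a'‖ ≤ η) (h2 : ‖b - b'‖ ≤ η) (h3 : ‖c - c'‖ ≤ η) (h4 : ‖d - d'‖ ≤ η) :
    ‖((k + a + b + c + d) ^ 2 - (a ^ 2 + b ^ 2 + c ^ 2 + d ^ 2)) -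
      ((k + a' + b' + c' + d') ^ 2 - (a' ^ 2 + b' ^ 2 + c' ^ 2 + d' ^ 2))‖ ≤ 312 * η := by
  have hη : 0 ≤ η := (norm_nonneg _).trans h1
  have hkn : ‖(k : ℂ)‖ ≤ 24 := by rw [Complex.norm_real]; exact hk
  have e1 : ((k + a + b + c + d) ^ 2 - (a ^ 2 + b ^ 2 + c ^ 2 + d ^ 2)) -
      ((k + a' + b' + c' + d') ^ 2 - (a' ^ 2 + b' ^ 2 + c' ^ 2 + d' ^ 2)) =
      ((a - a') + (b - b') + ((c - c') + (d - d'))) *
        ((k + k) + ((a + b) + (c + d)) + ((a' + b') + (c' + d'))) -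
      ((a - a') * (a + a') + (b - b') * (b + b') + ((c - c') * (c + c') + (d - d') * (d + d'))) := by
    ring
  rw [e1]
  have g1 : ‖(a - a') + (b - b') + ((c - c') + (d - d'))‖ ≤ 4 * η := by
    have i1 := norm_add_le (a - a') (b - b')
    have i2 := norm_add_le (c - c') (d - d')
    have i3 := norm_add_le ((a - a') + (b - b')) ((c - c') + (d - d'))
    linarith
  have g2 : ‖((k : ℂ) + k) + ((a + b) + (c + d)) + ((a' + b') + (c' + d'))‖ ≤ 72 := by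
    have i1 := norm_add_le (k : ℂ) k
    have i2 := norm_add_le a b
    have i3 := norm_add_le c d
    have i4 := norm_add_le (a + b) (c + d)
    have i2' := norm_add_le a' b'
    have i3' := norm_add_le c' d'
    have i4' := norm_add_le (a' + b') (c' + d')
    have i5 := norm_add_le ((k : ℂ) + k) ((a + b) + (c + d))
    have i6 := norm_add_le (((k : ℂ) + k) + ((a + b) + (c + d))) ((a' + b') + (c' + d'))
    linarith
  have g3 : ∀ u v : ℂ, ‖u‖ ≤ 3 → ‖v‖ ≤ 3 → ‖u - v‖ ≤ η → ‖(u - v) * (u + v)‖ ≤ 6 * η := by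
    intro u v hu hv huv
    rw [norm_mul]
    have := norm_add_le u v
    nlinarith [norm_nonneg (u - v), norm_nonneg (u + v)]
  have g4 : ‖(a - a') * (a + a') + (b - b') * (b + b') +
      ((c - c') * (c + c') + (d - d') * (d + d'))‖ ≤ 24 * η := by
    have i1 := norm_add_le ((a - a') * (a + a')) ((b - b') * (b + b'))
    have i2 := norm_add_le ((c - c') * (c + c')) ((d - d') * (d + d'))
    have i3 := norm_add_le ((a - a') * (a + a') + (b - b') * (b + b'))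
      ((c - c') * (c + c') + (d - d') * (d + d'))
    have j1 := g3 a a' ha ha' h1
    have j2 := g3 b b' hb hb' h2
    have j3 := g3 c c' hc hc' h3
    have j4 := g3 d d' hd hd' h4
    linarith
  refine (norm_sub_le _ _).trans ?_
  rw [norm_mul]
  have g5 : ‖(a - a') + (b - b') + ((c - c') + (d - d'))‖ *
      ‖((k : ℂ) + k) + ((a + b) + (c + d)) + ((a' + b') + (c' + d'))‖ ≤ 4 * η * 72 :=
    mul_le_mul g1 g2 (norm_nonneg _) (by positivity)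
  linarith

/-- size of the second order coefficient -/
theorem lc_size {k : ℝ} (hk : |k| ≤ 24) {a b c d : ℂ}
    (ha : ‖a‖ ≤ 3) (hb : ‖b‖ ≤ 3) (hc : ‖c‖ ≤ 3) (hd : ‖d‖ ≤ 3) :
    ‖((k : ℂ) + a + b + c + d) ^ 2 - (a ^ 2 + b ^ 2 + c ^ 2 + d ^ 2)‖ ≤ 1332 := by
  have hkn : ‖(k : ℂ)‖ ≤ 24 := by rw [Complex.norm_real]; exact hk
  have g1 : ‖(k : ℂ) + a + b + c + d‖ ≤ 36 := by
    have i1 := norm_add_le ((k : ℂ) + a + b + c) d
    have i2 := norm_add_le ((k : ℂ) + a + b) c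
    have i3 := norm_add_le ((k : ℂ) + a) b
    have i4 := norm_add_le (k : ℂ) a
    linarith
  have g2 : ‖a ^ 2 + b ^ 2 + c ^ 2 + d ^ 2‖ ≤ 36 := by
    have i1 := norm_add_le (a ^ 2 + b ^ 2 + c ^ 2) (d ^ 2)
    have i2 := norm_add_le (a ^ 2 + b ^ 2) (c ^ 2)
    have i3 := norm_add_le (a ^ 2) (b ^ 2)
    rw [norm_pow, norm_pow] at i3
    rw [norm_pow] at i1 i2
    nlinarith [norm_nonneg a, norm_nonneg b, norm_nonneg c, norm_nonneg d]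
  refine (norm_sub_le _ _).trans ?_
  rw [norm_pow]
  nlinarith [norm_nonneg ((k : ℂ) + a + b + c + d)]

/-- `p^(-3/2) ≤ 1/p` -/
theorem lc_rpow {p : ℕ} (hp : 1 ≤ p) : 0 ≤ (p : ℝ) ^ (-(3 / 2) : ℝ) ∧
    (p : ℝ) ^ (-(3 / 2) : ℝ) ≤ 1 / p := by
  have h1 : (1 : ℝ) ≤ p := by exact_mod_cast hp
  refine ⟨by positivity, ?_⟩
  have h2 : (p : ℝ) ^ (-(3 / 2) : ℝ) ≤ (p : ℝ) ^ (-1 : ℝ) :=
    Real.rpow_le_rpow_of_exponent_le h1 (by norm_num)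
  rwa [Real.rpow_neg_one, inv_eq_one_div] at h2

/-- the numerical part of the perturbation -/
theorem lc_num {C0 P R η : ℝ} (hC0 : 1 ≤ C0) (hP : 10000 * C0 ≤ P) (hr0 : 0 ≤ R)
    (hr1 : R ≤ 1 / P) (hη0 : 0 ≤ η) (hη2 : η ≤ 2) {N D Q1 Q1' Q2 Q2' : ℂ} {N0 D0 : ℝ}
    (hN : ‖N - (1 + Q1 / (2 * (P : ℂ)))‖ ≤ C0 * R)
    (hN0 : ‖(N0 : ℂ) - (1 + Q1' / (2 * (P : ℂ)))‖ ≤ C0 * R)
    (hD : ‖D - (1 + Q2 / (2 * (P : ℂ)))‖ ≤ C0 * R)
    (hD0 : ‖(D0 : ℂ) - (1 + Q2' / (2 * (P : ℂ)))‖ ≤ C0 * R)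
    (h1 : ‖Q1 - Q1'‖ ≤ 312 * η) (h2 : ‖Q2 - Q2'‖ ≤ 312 * η)
    (s1 : ‖Q1'‖ ≤ 1332) (s2 : ‖Q2'‖ ≤ 1332) :
    D ≠ 0 ∧ ‖N / D‖ ≤ Real.exp (10000 * C0 * (η / P + R)) * (N0 / D0) := by
  have hp0 : (0 : ℝ) < P := by linarith
  have hip0 : 0 < 1 / P := by positivity
  have hip : 1 / P * (10000 * C0) ≤ 1 := by
    rw [one_div, inv_mul_le_iff₀ hp0]
    linarith
  have hdiv : ∀ z : ℂ, ‖z / (2 * (P : ℂ))‖ = ‖z‖ / 2 * (1 / P) := by
    intro z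
    rw [norm_div, norm_mul, Complex.norm_real, Real.norm_of_nonneg hp0.le]
    simp
    field_simp
  have hCR : C0 * R ≤ C0 * (1 / P) := mul_le_mul_of_nonneg_left hr1 (by linarith)
  set E := 156 * η * (1 / P) + 2 * C0 * R with hE
  have hEle : E ≤ 1 / 8 := by
    have h5 : 156 * η * (1 / P) ≤ 312 * (1 / P) :=
      mul_le_mul_of_nonneg_right (by linarith) hip0.le
    have h6 : 1 * (1 / P) ≤ C0 * (1 / P) :=
      mul_le_mul_of_nonneg_right hC0 hip0.le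
    rw [hE]
    linarith
  have hcmp : ∀ (X : ℂ) (X0 : ℝ) (A A0 : ℂ), ‖X - (1 + A / (2 * (P : ℂ)))‖ ≤ C0 * R →
      ‖(X0 : ℂ) - (1 + A0 / (2 * (P : ℂ)))‖ ≤ C0 * R → ‖A - A0‖ ≤ 312 * η → ‖X - X0‖ ≤ E := by
    intro X X0 A A0 i1 i2 i3
    have e1 : X - X0 = (X - (1 + A / (2 * (P : ℂ)))) - ((X0 : ℂ) - (1 + A0 / (2 * (P : ℂ)))) +
        (A - A0) / (2 * (P : ℂ)) := by ring
    rw [e1]
    refine (norm_add_le _ _).trans ?_
    have i4 := norm_sub_le (X - (1 + A / (2 * (P : ℂ)))) ((X0 : ℂ) - (1 + A0 / (2 * (P : ℂ))))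
    have i5 : ‖(A - A0) / (2 * (P : ℂ))‖ ≤ 156 * η * (1 / P) := by
      rw [hdiv]
      have : ‖A - A0‖ / 2 ≤ 156 * η := by linarith
      exact mul_le_mul_of_nonneg_right this hip0.le
    rw [hE]
    linarith
  have hre : ∀ (X0 : ℝ) (A : ℂ), ‖(X0 : ℂ) - (1 + A / (2 * (P : ℂ)))‖ ≤ C0 * R → ‖A‖ ≤ 1332 →
      1 / 2 ≤ X0 := by
    intro X0 A i1 i2
    have e1 : ((X0 - 1 : ℝ) : ℂ) = ((X0 : ℂ) - (1 + A / (2 * (P : ℂ)))) + A / (2 * (P : ℂ)) := by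
      push_cast
      ring
    have i3 := norm_add_le ((X0 : ℂ) - (1 + A / (2 * (P : ℂ)))) (A / (2 * (P : ℂ)))
    rw [← e1, Complex.norm_real, Real.norm_eq_abs] at i3
    have i5 : ‖A / (2 * (P : ℂ))‖ ≤ 666 * (1 / P) := by
      rw [hdiv]
      have : ‖A‖ / 2 ≤ 666 := by linarith
      exact mul_le_mul_of_nonneg_right this hip0.le
    have i6 := (abs_le.1 i3).1
    have h6 : 1 * (1 / P) ≤ C0 * (1 / P) :=
      mul_le_mul_of_nonneg_right hC0 hip0.le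
    linarith
  have hN0' := hre N0 _ hN0 s1
  have hD0' := hre D0 _ hD0 s2
  obtain ⟨hDne, hq⟩ := lc_abs hN0' hD0' (hcmp N N0 Q1 Q1' hN hN0 h1)
    (hcmp D D0 Q2 Q2' hD hD0 h2) hEle
  refine ⟨hDne, hq.trans ?_⟩
  refine mul_le_mul_of_nonneg_right ?_ (div_nonneg (by linarith) (by linarith))
  rw [Real.exp_le_exp, hE]
  have e1 : η / P = η * (1 / P) := by ring
  rw [e1]
  have i1 : 0 ≤ η * (1 / P) := by positivity
  have i2 : 0 ≤ C0 * R := by positivity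
  have i3 : 1 * (η * (1 / P)) ≤ C0 * (η * (1 / P)) := mul_le_mul_of_nonneg_right hC0 i1
  linarith

/-- the numerical part of the bound of the absolute integral -/
theorem lc_num3 {C0 P R M : ℝ} (hC0 : 1 ≤ C0) (hP : 10000 * C0 ≤ P)
    (hr1 : R ≤ 1 / P) {D Q : ℂ} (hD : ‖D - (1 + Q / (2 * (P : ℂ)))‖ ≤ C0 * R)
    (hM : M ≤ 1 + C0 / P) (s : ‖Q‖ ≤ 1332) : M ≤ Real.exp (10000 * C0 / P) * ‖D‖ := by
  have hp0 : (0 : ℝ) < P := by linarith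
  have hip0 : 0 < 1 / P := by positivity
  have hip : 1 / P * (10000 * C0) ≤ 1 := by
    rw [one_div, inv_mul_le_iff₀ hp0]
    linarith
  have hCR : C0 * R ≤ C0 * (1 / P) := mul_le_mul_of_nonneg_left hr1 (by linarith)
  have h6 : 1 * (1 / P) ≤ C0 * (1 / P) := mul_le_mul_of_nonneg_right hC0 hip0.le
  have i5 : ‖Q / (2 * (P : ℂ))‖ ≤ 666 * (1 / P) := by
    rw [norm_div, norm_mul, Complex.norm_real, Real.norm_of_nonneg hp0.le]
    have e1 : ‖Q‖ / (‖(2 : ℂ)‖ * P) = ‖Q‖ / 2 * (1 / P) := by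
      simp
      field_simp
    rw [e1]
    have : ‖Q‖ / 2 ≤ 666 := by linarith
    exact mul_le_mul_of_nonneg_right this hip0.le
  set u := 667 * C0 * (1 / P) with hu
  have hu0 : 0 ≤ u := by positivity
  have hu1 : u ≤ 1 / 2 := by rw [hu]; linarith
  have i2 : 1 - u ≤ ‖D‖ := by
    have e1 : (1 : ℂ) = D - (D - (1 + Q / (2 * (P : ℂ)))) - Q / (2 * (P : ℂ)) := by ring
    have i3 := norm_sub_le (D - (D - (1 + Q / (2 * (P : ℂ))))) (Q / (2 * (P : ℂ)))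
    rw [← e1, norm_one] at i3
    have i4 := norm_sub_le D (D - (1 + Q / (2 * (P : ℂ))))
    rw [hu]
    linarith
  have i3 : Real.exp (-(2 * u)) ≤ 1 - u := by
    have h5 := Real.add_one_le_exp (2 * u)
    have h6 : Real.exp (-(2 * u)) * Real.exp (2 * u) = 1 := by rw [← Real.exp_add]; simp
    have h8 : 1 ≤ (1 - u) * Real.exp (2 * u) := by nlinarith
    have h9 : 0 < Real.exp (2 * u) := Real.exp_pos _
    nlinarith
  have i4 : 1 + C0 / P ≤ Real.exp (C0 / P) := by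
    have := Real.add_one_le_exp (C0 / P)
    linarith
  have i6 : Real.exp (C0 / P) ≤ Real.exp (10000 * C0 / P) * Real.exp (-(2 * u)) := by
    rw [← Real.exp_add, Real.exp_le_exp]
    have e1 : C0 / P = C0 * (1 / P) := by ring
    have e2 : 10000 * C0 / P = 10000 * (C0 * (1 / P)) := by ring
    rw [e1, e2, hu]
    have : 0 ≤ C0 * (1 / P) := by positivity
    linarith
  calc M ≤ 1 + C0 / P := hM
    _ ≤ Real.exp (10000 * C0 / P) * Real.exp (-(2 * u)) := i4.trans i6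
    _ ≤ Real.exp (10000 * C0 / P) * ‖D‖ :=
      mul_le_mul_of_nonneg_left (i3.trans i2) (Real.exp_pos _).le

/-- the perturbation for general parameters -/
theorem lc_core : ∃ C : ℝ, 1 ≤ C ∧ ∀ p : ℕ, p.Prime → C ≤ p → ∀ (I : Finset ℕ)
    (P : Measure (ℕ → ℝ)), IsST I P → p ∈ I → ∀ η : ℝ, 0 ≤ η → η ≤ 2 →
    ∀ a b c d a' b' c' d' : ℂ, ‖a‖ ≤ 3 → ‖b‖ ≤ 3 → ‖c‖ ≤ 3 → ‖d‖ ≤ 3 →
    ‖a'‖ ≤ 3 → ‖b'‖ ≤ 3 → ‖c'‖ ≤ 3 → ‖d'‖ ≤ 3 →
    ‖a - a'‖ ≤ η → ‖b - b'‖ ≤ η → ‖c - c'‖ ≤ η → ‖d - d'‖ ≤ η →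
    ∀ W : (ℕ → ℝ) → ℝ, (∀ᵐ x ∂P, (W x : ℂ) = e4 p a' b' c' d' (x p)) → ∀ k : ℝ, |k| ≤ 24 →
      ∫ x, e4 p a b c d (x p) ∂P ≠ 0 ∧
      ‖(∫ x, ((Real.exp (k * x p / Real.sqrt p) : ℝ) : ℂ) * e4 p a b c d (x p) ∂P) /
        ∫ x, e4 p a b c d (x p) ∂P‖ ≤
        Real.exp (C * (η / p + (p : ℝ) ^ (-(3 / 2) : ℝ))) *
          ((∫ x, Real.exp (k * x p / Real.sqrt p) * W x ∂P) / ∫ x, W x ∂P) ∧
      ∫ x, Real.exp (k * x p / Real.sqrt p) * ‖e4 p a b c d (x p)‖ ∂P ≤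
        Real.exp (C / p) * ‖∫ x, e4 p a b c d (x p) ∂P‖ := by
  obtain ⟨C0, hC0, hloc⟩ := loc_exp
  refine ⟨10000 * C0, by linarith, ?_⟩
  intro p hp hCp I P hP hpI η hη0 hη2 a b c d a' b' c' d' ha hb hc hd ha' hb' hc' hd'
    h1 h2 h3 h4 W hW k hk
  have hpC : C0 ≤ (p : ℝ) := by linarith
  obtain ⟨hr0, hr1⟩ := lc_rpow hp.one_le
  have hloc1 := hloc p hp hpC I P hP hpI
  obtain ⟨hN, hN3⟩ := hloc1 k hk a b c d ha hb hc hd
  obtain ⟨hN0, -⟩ := hloc1 k hk a' b' c' d' ha' hb' hc' hd'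
  have h24 : |(0 : ℝ)| ≤ 24 := by norm_num
  obtain ⟨hD, -⟩ := hloc1 0 h24 a b c d ha hb hc hd
  obtain ⟨hD0, -⟩ := hloc1 0 h24 a' b' c' d' ha' hb' hc' hd'
  simp only [zero_mul, zero_div, Real.exp_zero, Complex.ofReal_one, one_mul] at hD hD0
  have hpoly := lc_poly hk ha hb hc hd ha' hb' hc' hd' h1 h2 h3 h4
  have hpoly0 := lc_poly h24 ha hb hc hd ha' hb' hc' hd' h1 h2 h3 h4
  have hsz := lc_size hk ha' hb' hc' hd'
  have hsz0 := lc_size h24 ha' hb' hc' hd'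
  have hszD := lc_size h24 ha hb hc hd
  have eN0 : ((∫ x, Real.exp (k * x p / Real.sqrt p) * W x ∂P : ℝ) : ℂ) =
      ∫ x, ((Real.exp (k * x p / Real.sqrt p) : ℝ) : ℂ) * e4 p a' b' c' d' (x p) ∂P := by
    rw [← integral_complex_ofReal]
    refine integral_congr_ae ?_
    filter_upwards [hW] with x hx
    rw [Complex.ofReal_mul, hx]
  have eD0 : ((∫ x, W x ∂P : ℝ) : ℂ) = ∫ x, e4 p a' b' c' d' (x p) ∂P := by
    rw [← integral_complex_ofReal]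
    exact integral_congr_ae hW
  rw [← eN0] at hN0
  rw [← eD0] at hD0
  have ecast : (p : ℂ) = ((p : ℝ) : ℂ) := by simp
  rw [ecast] at hN hN0 hD hD0
  obtain ⟨k1, k2⟩ := lc_num hC0 hCp hr0 hr1 hη0 hη2 hN hN0 hD hD0 hpoly hpoly0 hsz hsz0
  exact ⟨k1, k2, lc_num3 hC0 hCp hr1 hD hN3 hszD⟩

variable {q : ℕ} [NeZero q]

omit [NeZero q] in
theorem lc_el0 (p : ℕ) (y : ℝ) : el p 0 y = 1 := by
  simp [el]

omit [NeZero q] in
theorem lc_w2 (χ : DirichletCharacter ℂ q) (r s z : ℂ) (p : ℕ) (y : ℝ) :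
    w2 χ r s z p y = e4 p ((p : ℂ) ^ (-r)) ((p : ℂ) ^ (-r)) (χ p * (p : ℂ) ^ (-s))
      (χ p * (p : ℂ) ^ (-z)) y := by
  unfold w2 wQ e4
  ring

omit [NeZero q] in
theorem lc_w1 (χ : DirichletCharacter ℂ q) (z : ℂ) (p : ℕ) (y : ℝ) :
    w1 χ z p y = e4 p 1 (χ p * (p : ℂ) ^ (-z)) 0 0 y := by
  unfold w1 e4
  rw [lc_el0]
  ring

theorem rat_pert_pr : ∃ (C : ℝ) (p₁ : ℕ), 1 ≤ C ∧ ∀ (q : ℕ) [NeZero q]
    (χ : DirichletCharacter ℂ q),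
    PQ χ → ∀ p : ℕ, p.Prime → p₁ ≤ p → ∀ (I : Finset ℕ) (P : Measure (ℕ → ℝ)), IsST I P →
    p ∈ I → ∀ δ : ℝ, 0 ≤ δ → δ * Real.log p ≤ 1 → ∀ r s z : ℂ, ‖r‖ ≤ δ → ‖s‖ ≤ δ → ‖z‖ ≤ δ →
      ∫ x, w2 χ r s z p (x p) ∂P ≠ 0 ∧ ∫ x, w1 χ z p (x p) ∂P ≠ 0 ∧
      ‖(∫ x, ((Real.exp (-(2 * lx χ p (x p))) : ℝ) : ℂ) * w2 χ r s z p (x p) ∂P) /
        ∫ x, w2 χ r s z p (x p) ∂P‖ ≤
        Real.exp (C * (δ * Real.log p / p + (p : ℝ) ^ (-(3 / 2) : ℝ))) * r2 χ P p ∧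
      ‖(∫ x, ((Real.exp (-lx χ p (x p)) : ℝ) : ℂ) * w1 χ z p (x p) ∂P) /
        ∫ x, w1 χ z p (x p) ∂P‖ ≤
        Real.exp (C * (δ * Real.log p / p + (p : ℝ) ^ (-(3 / 2) : ℝ))) * r1 χ P p ∧
      (∀ k : ℝ, |k| ≤ 12 → ∫ x, Real.exp (k * lx χ p (x p)) * ‖w2 χ r s z p (x p)‖ ∂P ≤
        Real.exp (C / p) * ‖∫ x, w2 χ r s z p (x p) ∂P‖) ∧
      (∀ k : ℝ, |k| ≤ 12 → ∫ x, Real.exp (k * lx χ p (x p)) * ‖w1 χ z p (x p)‖ ∂P ≤
        Real.exp (C / p) * ‖∫ x, w1 χ z p (x p) ∂P‖) := by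
  obtain ⟨C, hC, hcore⟩ := lc_core
  refine ⟨2 * C, ⌈C⌉₊, by linarith, ?_⟩
  intro q _ χ h p hp hpC I P hP hpI δ hδ0 hδ r s z hr hs hz
  have hpC' : C ≤ (p : ℝ) := (Nat.le_ceil C).trans (by exact_mod_cast hpC)
  have hp0 : (0 : ℝ) < p := by linarith
  have hlog : 0 ≤ Real.log p := Real.log_natCast_nonneg p
  set η := 2 * (δ * Real.log p) with hη
  have hη0 : 0 ≤ η := by positivity
  have hη2 : η ≤ 2 := by linarith
  have hχ : ‖χ p‖ ≤ 1 := χ.norm_le_one _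
  have hpow : ∀ u : ℂ, ‖u‖ ≤ δ → ‖(p : ℂ) ^ (-u) - 1‖ ≤ η := fun u hu =>
    Pool.Agent.LM.mgb_pow hp.one_le hu hδ
  have hpow3 : ∀ u : ℂ, ‖u‖ ≤ δ → ‖(p : ℂ) ^ (-u)‖ ≤ 3 := by
    intro u hu
    have h1 := norm_add_le ((p : ℂ) ^ (-u) - 1) 1
    rw [sub_add_cancel, norm_one] at h1
    have := hpow u hu
    linarith
  have hχpow : ∀ u : ℂ, ‖u‖ ≤ δ → ‖χ p * (p : ℂ) ^ (-u) - χ p‖ ≤ η := by
    intro u hu
    have h1 : χ p * (p : ℂ) ^ (-u) - χ p = χ p * ((p : ℂ) ^ (-u) - 1) := by ring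
    rw [h1, norm_mul]
    have := hpow u hu
    nlinarith [norm_nonneg ((p : ℂ) ^ (-u) - 1), norm_nonneg (χ p)]
  have hχpow3 : ∀ u : ℂ, ‖u‖ ≤ δ → ‖χ p * (p : ℂ) ^ (-u)‖ ≤ 3 := by
    intro u hu
    rw [norm_mul]
    have := hpow3 u hu
    nlinarith [norm_nonneg ((p : ℂ) ^ (-u)), norm_nonneg (χ p)]
  have hcv : |cv χ p| ≤ 1 := by
    rcases (Pool.Agent.LM.cv_cases_pr h p).2 with h1 | h1 | h1 <;> rw [h1] <;> norm_num
  have hcc : |1 + cv χ p| ≤ 2 := by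
    obtain ⟨h1, h2⟩ := abs_le.1 hcv
    rw [abs_le]
    constructor <;> linarith
  have hklx : ∀ k y : ℝ, k * lx χ p y = (k * (1 + cv χ p)) * y / Real.sqrt p := by
    intro k y
    unfold lx
    ring
  have hkb : ∀ k : ℝ, |k| ≤ 12 → |k * (1 + cv χ p)| ≤ 24 := by
    intro k hk
    rw [abs_mul]
    nlinarith [abs_nonneg k, abs_nonneg (1 + cv χ p)]
  -- the weights at the centre
  have hW2 : ∀ᵐ x ∂P, ((pp χ p (x p) ^ 2 : ℝ) : ℂ) = e4 p 1 1 (χ p) (χ p) (x p) := by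
    filter_upwards [hP.bdd] with x hx
    obtain ⟨-, -, -, h4⟩ := Pool.Agent.LM.pp_facts_pr h hp (hx p hpI)
    rw [h4, lc_w2]
    simp
  have hW1 : ∀ᵐ x ∂P, ((pp χ p (x p) : ℝ) : ℂ) = e4 p 1 (χ p) 0 0 (x p) := by
    filter_upwards [hP.bdd] with x hx
    obtain ⟨-, -, h3, -⟩ := Pool.Agent.LM.pp_facts_pr h hp (hx p hpI)
    rw [h3, lc_w1]
    simp
  have n1 : ‖(1 : ℂ)‖ ≤ 3 := by rw [norm_one]; norm_num
  have n0 : ‖(0 : ℂ)‖ ≤ 3 := by rw [norm_zero]; norm_num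
  have nχ : ‖χ p‖ ≤ 3 := by linarith
  have m1 : ‖(1 : ℂ) - 1‖ ≤ η := by rw [sub_self, norm_zero]; exact hη0
  have m0 : ‖(0 : ℂ) - 0‖ ≤ η := by rw [sub_self, norm_zero]; exact hη0
  have C2 := hcore p hp hpC' I P hP hpI η hη0 hη2 ((p : ℂ) ^ (-r)) ((p : ℂ) ^ (-r))
    (χ p * (p : ℂ) ^ (-s)) (χ p * (p : ℂ) ^ (-z)) 1 1 (χ p) (χ p) (hpow3 r hr) (hpow3 r hr)
    (hχpow3 s hs) (hχpow3 z hz) n1 n1 nχ nχ (hpow r hr) (hpow r hr) (hχpow s hs) (hχpow z hz)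
    (fun x => pp χ p (x p) ^ 2) hW2
  have C1 := hcore p hp hpC' I P hP hpI η hη0 hη2 1 (χ p * (p : ℂ) ^ (-z)) 0 0
    1 (χ p) 0 0 n1 (hχpow3 z hz) n0 n0 n1 nχ n0 n0 m1 (hχpow z hz) m0 m0
    (fun x => pp χ p (x p)) hW1
  simp only [← lc_w2] at C2
  simp only [← lc_w1] at C1
  have hexp : C * (η / p + (p : ℝ) ^ (-(3 / 2) : ℝ)) ≤
      2 * C * (δ * Real.log p / p + (p : ℝ) ^ (-(3 / 2) : ℝ)) := by
    have e1 : η / (p : ℝ) = 2 * (δ * Real.log p / p) := by rw [hη]; ring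
    rw [e1]
    have := (lc_rpow hp.one_le).1
    nlinarith [mul_nonneg (by linarith : (0 : ℝ) ≤ C) this]
  have hCp : C / (p : ℝ) ≤ 2 * C / p := by
    rw [div_le_div_iff_of_pos_right hp0]; linarith
  obtain ⟨i1, i2, i3, i4, -⟩ := Pool.Agent.LM.mgb_pos h hp hP hpI
  have hr2n : 0 ≤ r2 χ P p := by
    unfold r2
    refine div_nonneg (integral_nonneg fun x => ?_) i4.le
    positivity
  have hr1n : 0 ≤ r1 χ P p := by
    unfold r1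
    refine div_nonneg (integral_nonneg_of_ae ?_) i3.le
    filter_upwards [(Pool.Agent.LM.mgb_pos h hp hP hpI).2.2.2.2] with x hx
    have := hx.1
    have : 0 ≤ pp χ p (x p) := by linarith
    show 0 ≤ Real.exp (-lx χ p (x p)) * pp χ p (x p)
    positivity
  have h12 : |(-2 : ℝ)| ≤ 12 := by norm_num
  have h11 : |(-1 : ℝ)| ≤ 12 := by norm_num
  have hne2 := (C2 (-2 * (1 + cv χ p)) (hkb _ h12)).1
  have hne1 := (C1 (-1 * (1 + cv χ p)) (hkb _ h11)).1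
  refine ⟨hne2, hne1, ?_, ?_, ?_, ?_⟩
  · have h5 := (C2 (-2 * (1 + cv χ p)) (hkb _ h12)).2.1
    have e1 : ∀ y : ℝ, -(2 * lx χ p y) = -2 * (1 + cv χ p) * y / Real.sqrt p := by
      intro y
      rw [← hklx]
      ring
    have e2 : r2 χ P p = (∫ x, Real.exp (-2 * (1 + cv χ p) * x p / Real.sqrt p) *
        pp χ p (x p) ^ 2 ∂P) / ∫ x, pp χ p (x p) ^ 2 ∂P := by
      unfold r2
      simp only [e1]
    simp only [e1]
    refine h5.trans ?_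
    rw [← e2]
    exact mul_le_mul_of_nonneg_right (Real.exp_le_exp.2 hexp) hr2n
  · have h5 := (C1 (-1 * (1 + cv χ p)) (hkb _ h11)).2.1
    have e1 : ∀ y : ℝ, -lx χ p y = -1 * (1 + cv χ p) * y / Real.sqrt p := by
      intro y
      rw [← hklx]
      ring
    have e2 : r1 χ P p = (∫ x, Real.exp (-1 * (1 + cv χ p) * x p / Real.sqrt p) *
        pp χ p (x p) ∂P) / ∫ x, pp χ p (x p) ∂P := by
      unfold r1
      simp only [e1]
    simp only [e1]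
    refine h5.trans ?_
    rw [← e2]
    exact mul_le_mul_of_nonneg_right (Real.exp_le_exp.2 hexp) hr1n
  · intro k hk
    have h5 := (C2 (k * (1 + cv χ p)) (hkb _ hk)).2.2
    simp only [hklx]
    exact h5.trans (mul_le_mul_of_nonneg_right (Real.exp_le_exp.2 hCp) (norm_nonneg _))
  · intro k hk
    have h5 := (C1 (k * (1 + cv χ p)) (hkb _ hk)).2.2
    simp only [hklx]
    exact h5.trans (mul_le_mul_of_nonneg_right (Real.exp_le_exp.2 hCp) (norm_nonneg _))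

end Pool.Agent.TEM

namespace Pool.Agent.TEM

/-- block LC -/
theorem rat_pert : type_of% @rat_pert_pr := @rat_pert_pr

end Pool.Agent.TEM
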