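import Pool.Agent.Lib_helper15.TEM.Defs
import Pool.Agent.Lib_helper53.LMF.MA
import Pool.Agent.Lib_helper53.LMF.ME
import Pool.Agent.Lib_helper53.LMF.MG
import Pool.Agent.Lib_helper41.LVBF.EXT
import Pool.Agent.Lib_helper41.LVBF.BLE
import Pool.Agent.Lib_helper15.TEM.B.LB
import Pool.Agent.Lib_helper15.TEM.B.LC

/-! T12, parts I and IV, block BM: one block of primes. -/

set_option autoImplicit false

namespace Pool.Agent.TEM

open Complex MeasureTheory ProbabilityTheory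
open Pool.Agent.LSP (tau MX)
open Pool.Agent.LEV (Uu Um)
open Pool.Agent.LVB (IsST el ex HB PB JJ Bk Kk)
open Pool.Agent.LK (PQ)
open Pool.Agent.LE
open Pool.Agent.LM (cv pp ep Pz th IsV)

/-- fewer variables -/
theorem bm_restrict {I B : Finset ℕ} {P : Measure (ℕ → ℝ)} (hP : IsST I P) (hB : B ⊆ I) :
    IsST B P where
  prob := hP.prob
  bdd := by
    filter_upwards [hP.bdd] with x hx p hp using hx p (hB hp)
  ind := by
    have hinj : Function.Injective (fun b : B => (⟨b, hB b.2⟩ : I)) := by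
      intro a b hab
      have := congrArg Subtype.val hab
      exact Subtype.ext this
    exact hP.ind.precomp hinj
  mom := fun p hp => hP.mom p (hB hp)

/-- the truncated exponential and its square -/
theorem bm_pt (K : ℕ) (t : ℝ) :
    |ex K t - Real.exp t| ≤
      2 * Real.exp (-(2 * K + 1)) * (Real.exp (4 * t) + Real.exp (-(4 * t))) ∧
    |ex K t ^ 2 - Real.exp (2 * t)| ≤
      2 * Real.exp (-(2 * K + 1)) * (Real.exp (4 * t) + Real.exp (-(4 * t))) := by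
  have h1 := Pool.Agent.LVB.ex_near_pr K t
  have h2 := Pool.Agent.LVB.ex_le_pr K t
  have h2' : -Real.exp |t| ≤ ex K t := by
    have h3 : |ex K t| ≤ Real.exp |t| := by
      unfold Pool.Agent.LVB.ex
      refine (Finset.abs_sum_le_sum_abs _ _).trans ?_
      have h4 := Real.sum_le_exp_of_nonneg (abs_nonneg t) (2 * K + 1)
      refine le_trans (le_of_eq ?_) h4
      refine Finset.sum_congr rfl fun k _ => ?_
      rw [abs_div, abs_pow, Nat.abs_cast]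
    exact (abs_le.1 h3).1
  have he1 : Real.exp 1 ≤ 3 := by
    have := Real.exp_one_lt_d9
    linarith
  have hee : Real.exp |t| ≤ Real.exp (4 * |t|) := by
    rw [Real.exp_le_exp]
    linarith [abs_nonneg t]
  have hmax : Real.exp (4 * |t|) ≤ Real.exp (4 * t) + Real.exp (-(4 * t)) := by
    rcases abs_cases t with ⟨h3, -⟩ | ⟨h3, -⟩
    · rw [h3]
      linarith [Real.exp_pos (-(4 * t))]
    · rw [h3]
      have : 4 * -t = -(4 * t) := by ring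
      rw [this]
      linarith [Real.exp_pos (4 * t)]
  have hA : Real.exp (Real.exp 1 * |t|) ≤ Real.exp (3 * |t|) := by
    rw [Real.exp_le_exp]
    exact mul_le_mul_of_nonneg_right he1 (abs_nonneg t)
  have hA2 : Real.exp (3 * |t|) ≤ Real.exp (4 * |t|) := by
    rw [Real.exp_le_exp]
    linarith [abs_nonneg t]
  have hE : 0 < Real.exp (-(2 * (K : ℝ) + 1)) := Real.exp_pos _
  constructor
  · refine h1.trans ?_
    calc Real.exp (-(2 * K + 1)) * Real.exp (Real.exp 1 * |t|)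
        ≤ Real.exp (-(2 * K + 1)) * (Real.exp (4 * t) + Real.exp (-(4 * t))) :=
          mul_le_mul_of_nonneg_left (hA.trans (hA2.trans hmax)) hE.le
      _ ≤ 2 * Real.exp (-(2 * K + 1)) * (Real.exp (4 * t) + Real.exp (-(4 * t))) := by
          have : 0 ≤ Real.exp (-(2 * (K : ℝ) + 1)) * (Real.exp (4 * t) + Real.exp (-(4 * t))) := by
            positivity
          linarith
  · have e1 : ex K t ^ 2 - Real.exp (2 * t) = (ex K t - Real.exp t) * (ex K t + Real.exp t) := by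
      have : Real.exp (2 * t) = Real.exp t * Real.exp t := by rw [← Real.exp_add]; ring_nf
      rw [this]
      ring
    have h4 : Real.exp t ≤ Real.exp |t| := Real.exp_le_exp.2 (le_abs_self t)
    have h5 : |ex K t + Real.exp t| ≤ 2 * Real.exp |t| := by
      rw [abs_le]
      constructor
      · linarith [Real.exp_pos t]
      · linarith
    rw [e1, abs_mul]
    calc |ex K t - Real.exp t| * |ex K t + Real.exp t|
        ≤ (Real.exp (-(2 * K + 1)) * Real.exp (3 * |t|)) * (2 * Real.exp |t|) := by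
          refine mul_le_mul (h1.trans ?_) h5 (abs_nonneg _) (by positivity)
          exact mul_le_mul_of_nonneg_left hA hE.le
      _ = 2 * Real.exp (-(2 * K + 1)) * Real.exp (4 * |t|) := by
          have : Real.exp (4 * |t|) = Real.exp (3 * |t|) * Real.exp |t| := by
            rw [← Real.exp_add]; ring_nf
          rw [this]
          ring
      _ ≤ 2 * Real.exp (-(2 * K + 1)) * (Real.exp (4 * t) + Real.exp (-(4 * t))) :=
          mul_le_mul_of_nonneg_left hmax (by positivity)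

/-- reduction to the variables of the block -/
theorem bm_red {I B : Finset ℕ} {P : Measure (ℕ → ℝ)} (hP : IsST I P) (hB : B ⊆ I)
    {w : ℕ → ℝ → ℂ} (hw : ∀ p, Measurable (w p)) {F : (ℕ → ℝ) → ℝ} (hF : Measurable F)
    (hD : ∀ x y : ℕ → ℝ, (∀ p ∈ B, x p = y p) → F x = F y) :
    EW P I w F = ((∫ x, (F x : ℂ) * ∏ p ∈ B, w p (x p) ∂P) *
        ∏ p ∈ I \ B, ∫ x, w p (x p) ∂P) /
      ((∏ p ∈ B, ∫ x, w p (x p) ∂P) * ∏ p ∈ I \ B, ∫ x, w p (x p) ∂P) := by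
  have hA : Measurable (fun x : ℕ → ℝ => ∏ p ∈ B, w p (x p)) :=
    Finset.measurable_fun_prod _ fun p _ => (hw p).comp (measurable_pi_apply p)
  have hB' : Measurable (fun x : ℕ → ℝ => ∏ p ∈ I \ B, w p (x p)) :=
    Finset.measurable_fun_prod _ fun p _ => (hw p).comp (measurable_pi_apply p)
  have s1 := Pool.Agent.LM.mab_split hP (J := B)
    (G₁ := fun x => (F x : ℂ) * ∏ p ∈ B, w p (x p)) (G₂ := fun x => ∏ p ∈ I \ B, w p (x p))
    ((Complex.measurable_ofReal.comp hF).mul hA) hB'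
    (fun x y h => by
      have h1 : ∀ p ∈ B, x p = y p := fun p hp => h p hp (hB hp)
      show (F x : ℂ) * ∏ p ∈ B, w p (x p) = (F y : ℂ) * ∏ p ∈ B, w p (y p)
      rw [hD x y h1, Finset.prod_congr rfl fun p hp => by rw [h1 p hp]])
    (fun x y h => Finset.prod_congr rfl fun p hp => by rw [h p hp])
  have s2 := Pool.Agent.LM.mab_prodJ hP (u := w) (J := I \ B) Finset.sdiff_subset
    (fun p _ => hw p)
  have s3 : ∀ x : ℕ → ℝ, (F x : ℂ) * ∏ p ∈ I, w p (x p) =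
      (F x : ℂ) * (∏ p ∈ B, w p (x p)) * ∏ p ∈ I \ B, w p (x p) := by
    intro x
    rw [← Finset.prod_sdiff hB]
    ring
  unfold EW
  simp_rw [s3]
  rw [s1, s2, ← Finset.prod_sdiff hB (f := fun p => ∫ x, w p (x p) ∂P), mul_comm (∏ p ∈ I \ B, _)]

theorem bm_norm {I B : Finset ℕ} {P : Measure (ℕ → ℝ)} (hP : IsST I P) (hB : B ⊆ I)
    {w : ℕ → ℝ → ℂ} (hw : ∀ p, Measurable (w p)) {F : (ℕ → ℝ) → ℝ} (hF : Measurable F)
    (hD : ∀ x y : ℕ → ℝ, (∀ p ∈ B, x p = y p) → F x = F y) :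
    ‖EW P I w F‖ ≤ ‖(∫ x, (F x : ℂ) * ∏ p ∈ B, w p (x p) ∂P) / ∏ p ∈ B, ∫ x, w p (x p) ∂P‖ := by
  rw [bm_red hP hB hw hF hD]
  by_cases h : ∏ p ∈ I \ B, ∫ x, w p (x p) ∂P = 0
  · rw [h, mul_zero, mul_zero, div_zero, norm_zero]
    exact norm_nonneg _
  · rw [mul_div_mul_right _ _ h]

theorem bm_eq {I B : Finset ℕ} {P : Measure (ℕ → ℝ)} (hP : IsST I P) (hB : B ⊆ I)
    {w : ℕ → ℝ → ℂ} (hw : ∀ p, Measurable (w p)) {F : (ℕ → ℝ) → ℝ} (hF : Measurable F)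
    (hD : ∀ x y : ℕ → ℝ, (∀ p ∈ B, x p = y p) → F x = F y)
    (h0 : ∀ p ∈ I, ∫ x, w p (x p) ∂P ≠ 0) :
    EW P I w F = (∫ x, (F x : ℂ) * ∏ p ∈ B, w p (x p) ∂P) / ∏ p ∈ B, ∫ x, w p (x p) ∂P := by
  rw [bm_red hP hB hw hF hD]
  have h : ∏ p ∈ I \ B, ∫ x, w p (x p) ∂P ≠ 0 :=
    Finset.prod_ne_zero_iff.2 fun p hp => h0 p (Finset.mem_sdiff.1 hp).1
  rw [mul_div_mul_right _ _ h]

/-- real weights give real means -/
theorem bm_real {I : Finset ℕ} {P : Measure (ℕ → ℝ)} {w : ℕ → ℝ → ℂ} {u : ℕ → ℝ → ℝ}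
    (h : ∀ᵐ x ∂P, ∀ p ∈ I, w p (x p) = (u p (x p) : ℂ)) (F : (ℕ → ℝ) → ℝ) :
    EW P I w F = (((∫ x, F x * ∏ p ∈ I, u p (x p) ∂P) / ∏ p ∈ I, ∫ x, u p (x p) ∂P : ℝ) : ℂ) := by
  unfold EW
  have h1 : ∫ x, (F x : ℂ) * ∏ p ∈ I, w p (x p) ∂P =
      ((∫ x, F x * ∏ p ∈ I, u p (x p) ∂P : ℝ) : ℂ) := by
    rw [← integral_complex_ofReal]
    refine integral_congr_ae ?_
    filter_upwards [h] with x hx
    rw [Finset.prod_congr rfl hx]
    push_cast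
    ring
  have h2 : ∏ p ∈ I, ∫ x, w p (x p) ∂P = ((∏ p ∈ I, ∫ x, u p (x p) ∂P : ℝ) : ℂ) := by
    rw [Complex.ofReal_prod]
    refine Finset.prod_congr rfl fun p hp => ?_
    rw [← integral_complex_ofReal]
    refine integral_congr_ae ?_
    filter_upwards [h] with x hx
    exact hx p hp
  rw [h1, h2, Complex.ofReal_div]

variable {q : ℕ}

theorem bm_PX_meas (χ : DirichletCharacter ℂ q) (B : Finset ℕ) : Measurable (PX χ B) := by
  unfold PX lx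
  exact Finset.measurable_fun_sum _ fun p _ =>
    ((measurable_pi_apply p).const_mul _).div_const _

theorem bm_exp (χ : DirichletCharacter ℂ q) (B : Finset ℕ) (k : ℝ) (x : ℕ → ℝ) :
    Real.exp (k * PX χ B x) = ∏ p ∈ B, Real.exp (k * lx χ p (x p)) := by
  unfold PX
  rw [Finset.mul_sum, Real.exp_sum]

/-- integrability -/
theorem bm_int {B : Finset ℕ} {P : Measure (ℕ → ℝ)} (hP : IsST B P)
    (χ : DirichletCharacter ℂ q) {w : ℕ → ℝ → ℂ} (hw : ∀ p, Measurable (w p)) {M : ℝ}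
    (hM : ∀ p ∈ B, ∀ᵐ x ∂P, ‖w p (x p)‖ ≤ M) (k : ℝ) :
    Integrable (fun x => Real.exp (k * PX χ B x) * ∏ p ∈ B, ‖w p (x p)‖) P := by
  have := hP.prob
  set L := ∑ p ∈ B, |1 + cv χ p| * 2 / Real.sqrt p with hL
  have hM' : ∀ᵐ x ∂P, ∀ p ∈ B, ‖w p (x p)‖ ≤ M := (Finset.eventually_all B).2 hM
  refine Integrable.of_bound (C := Real.exp (|k| * L) * M ^ B.card) ?_ ?_
  · refine (((bm_PX_meas χ B).const_mul k).exp.mul ?_).aestronglyMeasurable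
    exact Finset.measurable_fun_prod _ fun p _ => ((hw p).comp (measurable_pi_apply p)).norm
  · filter_upwards [hP.bdd, hM'] with x hx hx2
    have h1 : |PX χ B x| ≤ L := by
      unfold PX lx
      refine (Finset.abs_sum_le_sum_abs _ _).trans ?_
      rw [hL]
      refine Finset.sum_le_sum fun p hp => ?_
      rw [abs_div, abs_mul, abs_of_nonneg (Real.sqrt_nonneg _)]
      exact div_le_div_of_nonneg_right (mul_le_mul_of_nonneg_left (hx p hp) (abs_nonneg _))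
        (Real.sqrt_nonneg _)
    have h2 : k * PX χ B x ≤ |k| * L := by
      calc k * PX χ B x ≤ |k * PX χ B x| := le_abs_self _
        _ = |k| * |PX χ B x| := abs_mul _ _
        _ ≤ |k| * L := mul_le_mul_of_nonneg_left h1 (abs_nonneg _)
    have h3 : ∏ p ∈ B, ‖w p (x p)‖ ≤ M ^ B.card := by
      rw [← Finset.prod_const]
      exact Finset.prod_le_prod (fun p _ => norm_nonneg _) hx2
    have h4 : 0 ≤ ∏ p ∈ B, ‖w p (x p)‖ := Finset.prod_nonneg fun p _ => norm_nonneg _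
    rw [Real.norm_of_nonneg (by positivity)]
    exact mul_le_mul (Real.exp_le_exp.2 h2) h3 h4 (Real.exp_pos _).le

/-- the absolute integrals -/
theorem bm_abs {B : Finset ℕ} {P : Measure (ℕ → ℝ)} (hP : IsST B P)
    (χ : DirichletCharacter ℂ q) {w : ℕ → ℝ → ℂ} (hw : ∀ p, Measurable (w p)) {C : ℝ}
    {k : ℝ} (hC : ∀ p ∈ B, ∫ x, Real.exp (k * lx χ p (x p)) * ‖w p (x p)‖ ∂P ≤
      Real.exp (C / p) * ‖∫ x, w p (x p) ∂P‖) :
    ∫ x, Real.exp (k * PX χ B x) * ∏ p ∈ B, ‖w p (x p)‖ ∂P ≤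
      Real.exp (C * HB B) * ∏ p ∈ B, ‖∫ x, w p (x p) ∂P‖ := by
  have h1 : ∀ x : ℕ → ℝ, Real.exp (k * PX χ B x) * ∏ p ∈ B, ‖w p (x p)‖ =
      ∏ p ∈ B, Real.exp (k * lx χ p (x p)) * ‖w p (x p)‖ := by
    intro x
    rw [bm_exp, ← Finset.prod_mul_distrib]
  simp_rw [h1]
  rw [Pool.Agent.LVB.BLE_prod hP (fun p y => Real.exp (k * lx χ p y) * ‖w p y‖) (by
    intro p
    refine Measurable.mul ?_ (hw p).norm
    unfold lx
    fun_prop)]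
  have h2 : Real.exp (C * HB B) * ∏ p ∈ B, ‖∫ x, w p (x p) ∂P‖ =
      ∏ p ∈ B, Real.exp (C / p) * ‖∫ x, w p (x p) ∂P‖ := by
    rw [Finset.prod_mul_distrib, ← Real.exp_sum]
    congr 2
    unfold Pool.Agent.LVB.HB
    rw [Finset.mul_sum]
    refine Finset.sum_congr rfl fun p _ => ?_
    ring
  rw [h2]
  refine Finset.prod_le_prod (fun p _ => integral_nonneg fun x => ?_) hC
  positivity

/-- the approximation by exponentials -/
theorem bm_approx {B : Finset ℕ} {P : Measure (ℕ → ℝ)} (hP : IsST B P)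
    (χ : DirichletCharacter ℂ q) {w : ℕ → ℝ → ℂ} (hw : ∀ p, Measurable (w p)) {M C : ℝ}
    (hM : ∀ p ∈ B, ∀ᵐ x ∂P, ‖w p (x p)‖ ≤ M) (h0 : ∀ p ∈ B, ∫ x, w p (x p) ∂P ≠ 0)
    (hC : ∀ p ∈ B, ∀ k : ℝ, |k| ≤ 12 →
      ∫ x, Real.exp (k * lx χ p (x p)) * ‖w p (x p)‖ ∂P ≤
        Real.exp (C / p) * ‖∫ x, w p (x p) ∂P‖)
    {F : (ℕ → ℝ) → ℝ} (hF : Measurable F) {j ε : ℝ} (hε : 0 ≤ ε)
    (hFG : ∀ x, |F x - Real.exp (j * PX χ B x)| ≤
      ε * (Real.exp (4 * PX χ B x) + Real.exp (-4 * PX χ B x))) :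
    ‖(∫ x, (F x : ℂ) * ∏ p ∈ B, w p (x p) ∂P) / (∏ p ∈ B, ∫ x, w p (x p) ∂P) -
      ∏ p ∈ B, ((∫ x, ((Real.exp (j * lx χ p (x p)) : ℝ) : ℂ) * w p (x p) ∂P) /
        ∫ x, w p (x p) ∂P)‖ ≤ 2 * ε * Real.exp (C * HB B) := by
  have hprob := hP.prob
  have hD0 : ∏ p ∈ B, ∫ x, w p (x p) ∂P ≠ 0 := Finset.prod_ne_zero_iff.2 h0
  have hDp : 0 < ‖∏ p ∈ B, ∫ x, w p (x p) ∂P‖ := norm_pos_iff.2 hD0
  have hi := bm_int hP χ hw hM
  have hprodm : Measurable (fun x : ℕ → ℝ => ∏ p ∈ B, w p (x p)) :=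
    Finset.measurable_fun_prod _ fun p _ => (hw p).comp (measurable_pi_apply p)
  have hGm : Measurable (fun x => Real.exp (j * PX χ B x)) := ((bm_PX_meas χ B).const_mul j).exp
  have e1 : ∫ x, ((Real.exp (j * PX χ B x) : ℝ) : ℂ) * ∏ p ∈ B, w p (x p) ∂P =
      ∏ p ∈ B, ∫ x, ((Real.exp (j * lx χ p (x p)) : ℝ) : ℂ) * w p (x p) ∂P := by
    rw [← Pool.Agent.LVB.BLE_prod hP
      (fun p y => ((Real.exp (j * lx χ p y) : ℝ) : ℂ) * w p y) (by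
      intro p
      refine Measurable.mul ?_ (hw p)
      refine Complex.measurable_ofReal.comp ?_
      unfold lx
      fun_prop)]
    refine integral_congr_ae (Filter.Eventually.of_forall fun x => ?_)
    show ((Real.exp (j * PX χ B x) : ℝ) : ℂ) * ∏ p ∈ B, w p (x p) = _
    rw [bm_exp, Complex.ofReal_prod, ← Finset.prod_mul_distrib]
  rw [Finset.prod_div_distrib, ← e1, ← sub_div, norm_div, div_le_iff₀ hDp]
  have hnp : ∀ x : ℕ → ℝ, ‖∏ p ∈ B, w p (x p)‖ = ∏ p ∈ B, ‖w p (x p)‖ := fun x => norm_prod _ _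
  have hG : Integrable (fun x => ((Real.exp (j * PX χ B x) : ℝ) : ℂ) * ∏ p ∈ B, w p (x p)) P := by
    refine (hi j).mono' ((Complex.measurable_ofReal.comp hGm).mul hprodm).aestronglyMeasurable ?_
    refine Filter.Eventually.of_forall fun x => ?_
    rw [norm_mul, Complex.norm_real, hnp, Real.norm_of_nonneg (Real.exp_pos _).le]
  have hdom : Integrable (fun x => ε * (Real.exp (4 * PX χ B x) * ∏ p ∈ B, ‖w p (x p)‖ +
      Real.exp (-4 * PX χ B x) * ∏ p ∈ B, ‖w p (x p)‖)) P :=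
    ((hi 4).add (hi (-4))).const_mul ε
  have hpw : ∀ x : ℕ → ℝ, ‖((F x : ℂ) - ((Real.exp (j * PX χ B x) : ℝ) : ℂ)) *
      ∏ p ∈ B, w p (x p)‖ ≤ ε * (Real.exp (4 * PX χ B x) * ∏ p ∈ B, ‖w p (x p)‖ +
      Real.exp (-4 * PX χ B x) * ∏ p ∈ B, ‖w p (x p)‖) := by
    intro x
    rw [norm_mul, hnp, ← Complex.ofReal_sub, Complex.norm_real, Real.norm_eq_abs]
    have h4 : 0 ≤ ∏ p ∈ B, ‖w p (x p)‖ := Finset.prod_nonneg fun p _ => norm_nonneg _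
    calc _ ≤ ε * (Real.exp (4 * PX χ B x) + Real.exp (-4 * PX χ B x)) * ∏ p ∈ B, ‖w p (x p)‖ :=
        mul_le_mul_of_nonneg_right (hFG x) h4
      _ = _ := by ring
  have hdiff : Integrable (fun x => ((F x : ℂ) - ((Real.exp (j * PX χ B x) : ℝ) : ℂ)) *
      ∏ p ∈ B, w p (x p)) P :=
    hdom.mono' ((((Complex.measurable_ofReal.comp hF).sub
      (Complex.measurable_ofReal.comp hGm)).mul hprodm).aestronglyMeasurable)
      (Filter.Eventually.of_forall hpw)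
  have e2 : (∫ x, (F x : ℂ) * ∏ p ∈ B, w p (x p) ∂P) -
      ∫ x, ((Real.exp (j * PX χ B x) : ℝ) : ℂ) * ∏ p ∈ B, w p (x p) ∂P =
      ∫ x, ((F x : ℂ) - ((Real.exp (j * PX χ B x) : ℝ) : ℂ)) * ∏ p ∈ B, w p (x p) ∂P := by
    have h1 : (fun x : ℕ → ℝ => (F x : ℂ) * ∏ p ∈ B, w p (x p)) = fun x =>
        ((F x : ℂ) - ((Real.exp (j * PX χ B x) : ℝ) : ℂ)) * ∏ p ∈ B, w p (x p) +
          ((Real.exp (j * PX χ B x) : ℝ) : ℂ) * ∏ p ∈ B, w p (x p) := by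
      funext x
      ring
    rw [h1, integral_add hdiff hG]
    ring
  rw [e2]
  refine (norm_integral_le_of_norm_le hdom (Filter.Eventually.of_forall hpw)).trans ?_
  rw [integral_const_mul, integral_add (hi 4) (hi (-4)), norm_prod]
  have i1 := bm_abs hP χ hw (k := 4) (fun p hp => hC p hp 4 (by norm_num))
  have i2 := bm_abs hP χ hw (k := -4) (fun p hp => hC p hp (-4) (by norm_num))
  have i3 := mul_le_mul_of_nonneg_left (add_le_add i1 i2) hε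
  refine i3.trans (le_of_eq ?_)
  ring

theorem bm_el_meas (p : ℕ) (a : ℂ) : Measurable (fun y : ℝ => el p a y) := by
  unfold Pool.Agent.LVB.el
  refine Measurable.inv ?_
  fun_prop

/-- size of a local factor -/
theorem bm_el_le {p : ℕ} (hp : 400 ≤ p) {a : ℂ} (ha : ‖a‖ ≤ 3) {y : ℝ} (hy : |y| ≤ 2) :
    ‖el p a y‖ ≤ 2 := by
  have hpR : (400 : ℝ) ≤ p := by exact_mod_cast hp
  have hp0 : (0 : ℝ) < p := by linarith
  have hs : 20 ≤ Real.sqrt p := by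
    rw [show (20 : ℝ) = Real.sqrt 400 by
      rw [show (400 : ℝ) = 20 ^ 2 by norm_num, Real.sqrt_sq (by norm_num)]]
    exact Real.sqrt_le_sqrt hpR
  have hs0 : 0 < Real.sqrt p := by linarith
  unfold Pool.Agent.LVB.el
  rw [norm_inv]
  have h1 : 1 / 2 ≤ ‖1 - a * (y : ℂ) / (Real.sqrt p : ℂ) + a ^ 2 / (p : ℂ)‖ := by
    have e1 : (1 : ℂ) = (1 - a * (y : ℂ) / (Real.sqrt p : ℂ) + a ^ 2 / (p : ℂ)) +
        a * (y : ℂ) / (Real.sqrt p : ℂ) - a ^ 2 / (p : ℂ) := by ring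
    have h2 := norm_sub_le ((1 - a * (y : ℂ) / (Real.sqrt p : ℂ) + a ^ 2 / (p : ℂ)) +
        a * (y : ℂ) / (Real.sqrt p : ℂ)) (a ^ 2 / (p : ℂ))
    rw [← e1, norm_one] at h2
    have h3 := norm_add_le (1 - a * (y : ℂ) / (Real.sqrt p : ℂ) + a ^ 2 / (p : ℂ))
      (a * (y : ℂ) / (Real.sqrt p : ℂ))
    have h4 : ‖a * (y : ℂ) / (Real.sqrt p : ℂ)‖ ≤ 3 / 10 := by
      rw [norm_div, norm_mul, Complex.norm_real, Complex.norm_real, Real.norm_eq_abs,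
        Real.norm_of_nonneg hs0.le, div_le_iff₀ hs0]
      have : ‖a‖ * |y| ≤ 3 * 2 := mul_le_mul ha hy (abs_nonneg _) (by norm_num)
      linarith
    have h5 : ‖a ^ 2 / (p : ℂ)‖ ≤ 9 / 400 := by
      rw [norm_div, norm_pow, Complex.norm_natCast, div_le_iff₀ hp0]
      have : ‖a‖ ^ 2 ≤ 3 ^ 2 := pow_le_pow_left₀ (norm_nonneg _) ha 2
      linarith
    linarith
  rw [inv_le_comm₀ (by linarith) (by norm_num)]
  linarith

theorem bm_num {K : ℕ} {C1 C2 H R : ℝ} (hK : (C1 + C2) * H ≤ K)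
    (hR : Real.exp (-(C1 * H)) ≤ R) :
    2 * (2 * Real.exp (-(2 * K + 1))) * Real.exp (C2 * H) ≤ 4 * Real.exp (-K) * R := by
  have h1 : Real.exp (-(2 * (K : ℝ) + 1)) * Real.exp (C2 * H) ≤
      Real.exp (-K) * Real.exp (-(C1 * H)) := by
    rw [← Real.exp_add, ← Real.exp_add, Real.exp_le_exp]
    linarith
  have h2 : Real.exp (-(K : ℝ)) * Real.exp (-(C1 * H)) ≤ Real.exp (-K) * R :=
    mul_le_mul_of_nonneg_left hR (Real.exp_pos _).le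
  linarith

/-- one family of weights -/
theorem bm_fam {B : Finset ℕ} {P : Measure (ℕ → ℝ)} (hP : IsST B P)
    (χ : DirichletCharacter ℂ q) {w : ℕ → ℝ → ℂ} (hw : ∀ p, Measurable (w p)) {M C1 C2 : ℝ}
    (hM : ∀ p ∈ B, ∀ᵐ x ∂P, ‖w p (x p)‖ ≤ M) (h0 : ∀ p ∈ B, ∫ x, w p (x p) ∂P ≠ 0)
    (hC : ∀ p ∈ B, ∀ k : ℝ, |k| ≤ 12 →
      ∫ x, Real.exp (k * lx χ p (x p)) * ‖w p (x p)‖ ∂P ≤
        Real.exp (C2 / p) * ‖∫ x, w p (x p) ∂P‖)
    {rr : ℕ → ℝ} (hrr : ∀ p ∈ B, Real.exp (-(C1 / p)) ≤ rr p) {K : ℕ}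
    (hK : (C1 + C2) * HB B ≤ K)
    {F : (ℕ → ℝ) → ℝ} (hF : Measurable F) {j : ℝ}
    (hFG : ∀ x, |F x - Real.exp (j * PX χ B x)| ≤
      2 * Real.exp (-(2 * K + 1)) * (Real.exp (4 * PX χ B x) + Real.exp (-4 * PX χ B x))) :
    ‖(∫ x, (F x : ℂ) * ∏ p ∈ B, w p (x p) ∂P) / (∏ p ∈ B, ∫ x, w p (x p) ∂P) -
      ∏ p ∈ B, ((∫ x, ((Real.exp (j * lx χ p (x p)) : ℝ) : ℂ) * w p (x p) ∂P) /
        ∫ x, w p (x p) ∂P)‖ ≤ 4 * Real.exp (-K) * ∏ p ∈ B, rr p := by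
  refine (bm_approx hP χ hw hM h0 hC hF (by positivity) hFG).trans ?_
  refine bm_num hK ?_
  have e1 : Real.exp (-(C1 * HB B)) = ∏ p ∈ B, Real.exp (-(C1 / p)) := by
    rw [← Real.exp_sum]
    congr 1
    unfold Pool.Agent.LVB.HB
    rw [Finset.mul_sum, ← Finset.sum_neg_distrib]
    refine Finset.sum_congr rfl fun p _ => ?_
    ring
  rw [e1]
  exact Finset.prod_le_prod (fun p _ => (Real.exp_pos _).le) hrr

/-- the two functions of the block -/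
theorem bm_F (χ : DirichletCharacter ℂ q) (B : Finset ℕ) (K : ℕ) :
    (Measurable (fun x => ex K (-PX χ B x)) ∧ Measurable (fun x => ex K (-PX χ B x) ^ 2)) ∧
    ((∀ x y : ℕ → ℝ, (∀ p ∈ B, x p = y p) → ex K (-PX χ B x) = ex K (-PX χ B y)) ∧
      (∀ x y : ℕ → ℝ, (∀ p ∈ B, x p = y p) → ex K (-PX χ B x) ^ 2 = ex K (-PX χ B y) ^ 2)) ∧
    (∀ x, |ex K (-PX χ B x) - Real.exp (-1 * PX χ B x)| ≤
      2 * Real.exp (-(2 * K + 1)) * (Real.exp (4 * PX χ B x) + Real.exp (-4 * PX χ B x))) ∧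
    (∀ x, |ex K (-PX χ B x) ^ 2 - Real.exp (-2 * PX χ B x)| ≤
      2 * Real.exp (-(2 * K + 1)) * (Real.exp (4 * PX χ B x) + Real.exp (-4 * PX χ B x))) := by
  have hm : Measurable (fun x => ex K (-PX χ B x)) :=
    (Pool.Agent.LVB.BLE_ex_cont K).measurable.comp (bm_PX_meas χ B).neg
  have hd : ∀ x y : ℕ → ℝ, (∀ p ∈ B, x p = y p) → PX χ B x = PX χ B y := by
    intro x y h
    unfold PX
    exact Finset.sum_congr rfl fun p hp => by rw [h p hp]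
  refine ⟨⟨hm, hm.pow_const 2⟩, ⟨fun x y h => by rw [hd x y h], fun x y h => by rw [hd x y h]⟩,
    fun x => ?_, fun x => ?_⟩
  · have h1 := (bm_pt K (-PX χ B x)).1
    have e1 : 4 * -PX χ B x = -4 * PX χ B x := by ring
    have e2 : -(-4 * PX χ B x) = 4 * PX χ B x := by ring
    rw [e1, e2, add_comm (Real.exp (-4 * PX χ B x))] at h1
    rw [neg_one_mul]
    exact h1
  · have h1 := (bm_pt K (-PX χ B x)).2
    have e1 : 4 * -PX χ B x = -4 * PX χ B x := by ring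
    have e2 : -(-4 * PX χ B x) = 4 * PX χ B x := by ring
    have e3 : 2 * -PX χ B x = -2 * PX χ B x := by ring
    rw [e1, e2, e3, add_comm (Real.exp (-4 * PX χ B x))] at h1
    exact h1

variable [NeZero q]

omit [NeZero q] in
theorem bm_w_meas (χ : DirichletCharacter ℂ q) (r s z : ℂ) (p : ℕ) :
    Measurable (w2 χ r s z p) ∧ Measurable (w1 χ z p) := by
  constructor
  · unfold Pool.Agent.LE.w2 Pool.Agent.LE.wQ
    exact (((bm_el_meas p _).pow_const 2).mul (bm_el_meas p _)).mul (bm_el_meas p _)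
  · unfold Pool.Agent.LE.w1
    exact (bm_el_meas p _).mul (bm_el_meas p _)

omit [NeZero q] in
theorem bm_w_le (χ : DirichletCharacter ℂ q) {p : ℕ} (hp : 400 ≤ p) {δ : ℝ}
    (hδ : δ * Real.log p ≤ 1) {r s z : ℂ} (hr : ‖r‖ ≤ δ) (hs : ‖s‖ ≤ δ) (hz : ‖z‖ ≤ δ) {y : ℝ}
    (hy : |y| ≤ 2) : ‖w2 χ r s z p y‖ ≤ 16 ∧ ‖w1 χ z p y‖ ≤ 16 := by
  have hpow3 : ∀ u : ℂ, ‖u‖ ≤ δ → ‖(p : ℂ) ^ (-u)‖ ≤ 3 := by
    intro u hu
    have h1 := norm_add_le ((p : ℂ) ^ (-u) - 1) 1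
    rw [sub_add_cancel, norm_one] at h1
    have := Pool.Agent.LM.mgb_pow (by omega : 1 ≤ p) hu hδ
    linarith
  have hχpow3 : ∀ u : ℂ, ‖u‖ ≤ δ → ‖χ p * (p : ℂ) ^ (-u)‖ ≤ 3 := by
    intro u hu
    rw [norm_mul]
    have := hpow3 u hu
    have hχ : ‖χ p‖ ≤ 1 := χ.norm_le_one _
    nlinarith [norm_nonneg ((p : ℂ) ^ (-u)), norm_nonneg (χ p)]
  have i1 := bm_el_le hp (hpow3 r hr) hy
  have i2 := bm_el_le hp (hχpow3 s hs) hy
  have i3 := bm_el_le hp (hχpow3 z hz) hy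
  have i4 : ‖el p 1 y‖ ≤ 2 := bm_el_le hp (by rw [norm_one]; norm_num) hy
  constructor
  · unfold Pool.Agent.LE.w2 Pool.Agent.LE.wQ
    rw [norm_mul, norm_mul, norm_pow]
    have j1 : ‖el p ((p : ℂ) ^ (-r)) y‖ ^ 2 ≤ 2 ^ 2 := pow_le_pow_left₀ (norm_nonneg _) i1 2
    have j2 : ‖el p ((p : ℂ) ^ (-r)) y‖ ^ 2 * ‖el p (χ p * (p : ℂ) ^ (-s)) y‖ ≤ 2 ^ 2 * 2 :=
      mul_le_mul j1 i2 (norm_nonneg _) (by norm_num)
    have j3 : ‖el p ((p : ℂ) ^ (-r)) y‖ ^ 2 * ‖el p (χ p * (p : ℂ) ^ (-s)) y‖ *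
        ‖el p (χ p * (p : ℂ) ^ (-z)) y‖ ≤ 2 ^ 2 * 2 * 2 :=
      mul_le_mul j2 i3 (norm_nonneg _) (by norm_num)
    linarith
  · unfold Pool.Agent.LE.w1
    rw [norm_mul]
    have j3 : ‖el p 1 y‖ * ‖el p (χ p * (p : ℂ) ^ (-z)) y‖ ≤ 2 * 2 :=
      mul_le_mul i4 i3 (norm_nonneg _) (by norm_num)
    linarith

/-- from a mean close to a product of ratios to its size -/
theorem bm_size {B : Finset ℕ} {X : ℂ} {ρ : ℕ → ℂ} {rr u : ℕ → ℝ} {K : ℕ} {C2 C : ℝ}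
    (hX : ‖X - ∏ p ∈ B, ρ p‖ ≤ 4 * Real.exp (-K) * ∏ p ∈ B, rr p)
    (hρ : ∀ p ∈ B, ‖ρ p‖ ≤ Real.exp (C2 * u p) * rr p) (hC : C2 ≤ C) (hu : ∀ p ∈ B, 0 ≤ u p)
    (hrr : ∀ p ∈ B, 0 ≤ rr p) :
    ‖X‖ ≤ (Real.exp (C * ∑ p ∈ B, u p) + 4 * Real.exp (-K)) * ∏ p ∈ B, rr p := by
  have h1 : ‖X‖ ≤ ‖X - ∏ p ∈ B, ρ p‖ + ‖∏ p ∈ B, ρ p‖ := by
    have := norm_add_le (X - ∏ p ∈ B, ρ p) (∏ p ∈ B, ρ p)
    rwa [sub_add_cancel] at this
  have h2 : ‖∏ p ∈ B, ρ p‖ ≤ Real.exp (C * ∑ p ∈ B, u p) * ∏ p ∈ B, rr p := by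
    rw [norm_prod, Finset.mul_sum, Real.exp_sum, ← Finset.prod_mul_distrib]
    refine Finset.prod_le_prod (fun p _ => norm_nonneg _) fun p hp => (hρ p hp).trans ?_
    refine mul_le_mul_of_nonneg_right ?_ (hrr p hp)
    rw [Real.exp_le_exp]
    exact mul_le_mul_of_nonneg_right hC (hu p hp)
  linarith

theorem block_main_pr : ∃ (C : ℝ) (p₁ : ℕ), 1 ≤ C ∧ ∀ (q : ℕ) [NeZero q]
    (χ : DirichletCharacter ℂ q), PQ χ → ∀ (I : Finset ℕ) (P : Measure (ℕ → ℝ)),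
    (∀ p ∈ I, p.Prime) → IsST I P → ∀ B : Finset ℕ, B ⊆ I → (∀ p ∈ B, p₁ ≤ p) → ∀ K : ℕ,
    C * HB B ≤ K → ∃ g₁ g₂ : ℝ,
      EW P I (w1 χ 0) (fun x => ex K (-PX χ B x)) = (g₁ : ℂ) ∧
      EW P I (w2 χ 0 0 0) (fun x => ex K (-PX χ B x) ^ 2) = (g₂ : ℂ) ∧
      |g₁ - ∏ p ∈ B, r1 χ P p| ≤ 4 * Real.exp (-K) * ∏ p ∈ B, r1 χ P p ∧
      |g₂ - ∏ p ∈ B, r2 χ P p| ≤ 4 * Real.exp (-K) * ∏ p ∈ B, r2 χ P p ∧
      ∀ δ : ℝ, 0 ≤ δ → (∀ p ∈ B, δ * Real.log p ≤ 1) →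
        (∀ r s z : ℂ, ‖r‖ ≤ δ → ‖s‖ ≤ δ → ‖z‖ ≤ δ →
          ‖EW P I (w2 χ r s z) (fun x => ex K (-PX χ B x) ^ 2)‖ ≤
            (Real.exp (C * ∑ p ∈ B, (δ * Real.log p / p + (p : ℝ) ^ (-(3 / 2) : ℝ))) +
              4 * Real.exp (-K)) * ∏ p ∈ B, r2 χ P p) ∧
        ∀ z : ℂ, ‖z‖ ≤ δ → ‖EW P I (w1 χ z) (fun x => ex K (-PX χ B x))‖ ≤
          (Real.exp (C * ∑ p ∈ B, (δ * Real.log p / p + (p : ℝ) ^ (-(3 / 2) : ℝ))) +
            4 * Real.exp (-K)) * ∏ p ∈ B, r1 χ P p := by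
  obtain ⟨C1, p1, hC1, H1⟩ := rat_zero
  obtain ⟨C2, p2, hC2, H2⟩ := rat_pert
  refine ⟨C1 + C2, max 400 (max p1 p2), by linarith, ?_⟩
  intro q _ χ h I P hI hP B hB hBp K hK
  have hPB := bm_restrict hP hB
  have hp400 : ∀ p ∈ B, 400 ≤ p := fun p hp => (le_max_left _ _).trans (hBp p hp)
  have hpp1 : ∀ p ∈ B, p1 ≤ p := fun p hp =>
    (le_max_left _ _).trans ((le_max_right _ _).trans (hBp p hp))
  have hpp2 : ∀ p ∈ B, p2 ≤ p := fun p hp =>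
    (le_max_right _ _).trans ((le_max_right _ _).trans (hBp p hp))
  have hlo : ∀ p ∈ B, Real.exp (-(C1 / p)) ≤ r1 χ P p ∧ Real.exp (-(C1 / p)) ≤ r2 χ P p :=
    fun p hp => by
      obtain ⟨a, b, -⟩ := H1 q χ h p (hI p (hB hp)) (hpp1 p hp) I P hP (hB hp)
      exact ⟨a, b⟩
  have hr1 : ∀ p ∈ B, Real.exp (-(C1 / p)) ≤ r1 χ P p := fun p hp => (hlo p hp).1
  have hr2 : ∀ p ∈ B, Real.exp (-(C1 / p)) ≤ r2 χ P p := fun p hp => (hlo p hp).2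
  have hr1n : ∀ p ∈ B, 0 ≤ r1 χ P p := fun p hp => (Real.exp_pos _).le.trans (hr1 p hp)
  have hr2n : ∀ p ∈ B, 0 ≤ r2 χ P p := fun p hp => (Real.exp_pos _).le.trans (hr2 p hp)
  obtain ⟨⟨hF1, hF2⟩, ⟨hD1, hD2⟩, hG1, hG2⟩ := bm_F χ B K
  have hwm2 : ∀ (r s z : ℂ) (p : ℕ), Measurable (w2 χ r s z p) := fun r s z p =>
    (bm_w_meas χ r s z p).1
  have hwm1 : ∀ (z : ℂ) (p : ℕ), Measurable (w1 χ z p) := fun z p => (bm_w_meas χ 0 0 z p).2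
  -- the families
  have fam2 : ∀ δ : ℝ, 0 ≤ δ → (∀ p ∈ B, δ * Real.log p ≤ 1) → ∀ r s z : ℂ, ‖r‖ ≤ δ →
      ‖s‖ ≤ δ → ‖z‖ ≤ δ →
      ‖(∫ x, ((ex K (-PX χ B x) ^ 2 : ℝ) : ℂ) * ∏ p ∈ B, w2 χ r s z p (x p) ∂P) /
        (∏ p ∈ B, ∫ x, w2 χ r s z p (x p) ∂P) -
      ∏ p ∈ B, ((∫ x, ((Real.exp (-2 * lx χ p (x p)) : ℝ) : ℂ) * w2 χ r s z p (x p) ∂P) /
        ∫ x, w2 χ r s z p (x p) ∂P)‖ ≤ 4 * Real.exp (-K) * ∏ p ∈ B, r2 χ P p := by
    intro δ hδ0 hδ r s z hr hs hz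
    refine bm_fam hPB χ (hwm2 r s z) (M := 16) (C1 := C1) (C2 := C2) ?_ ?_ ?_ hr2 hK hF2 hG2
    · intro p hp
      filter_upwards [hPB.bdd] with x hx
      exact (bm_w_le χ (hp400 p hp) (hδ p hp) hr hs hz (hx p hp)).1
    · intro p hp
      exact (H2 q χ h p (hI p (hB hp)) (hpp2 p hp) I P hP (hB hp) δ hδ0 (hδ p hp) r s z
        hr hs hz).1
    · intro p hp
      exact (H2 q χ h p (hI p (hB hp)) (hpp2 p hp) I P hP (hB hp) δ hδ0 (hδ p hp) r s z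
        hr hs hz).2.2.2.2.1
  have fam1 : ∀ δ : ℝ, 0 ≤ δ → (∀ p ∈ B, δ * Real.log p ≤ 1) → ∀ z : ℂ, ‖z‖ ≤ δ →
      ‖(∫ x, ((ex K (-PX χ B x) : ℝ) : ℂ) * ∏ p ∈ B, w1 χ z p (x p) ∂P) /
        (∏ p ∈ B, ∫ x, w1 χ z p (x p) ∂P) -
      ∏ p ∈ B, ((∫ x, ((Real.exp (-1 * lx χ p (x p)) : ℝ) : ℂ) * w1 χ z p (x p) ∂P) /
        ∫ x, w1 χ z p (x p) ∂P)‖ ≤ 4 * Real.exp (-K) * ∏ p ∈ B, r1 χ P p := by
    intro δ hδ0 hδ z hz
    have hz0 : ‖(0 : ℂ)‖ ≤ δ := by rw [norm_zero]; exact hδ0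
    refine bm_fam hPB χ (hwm1 z) (M := 16) (C1 := C1) (C2 := C2) ?_ ?_ ?_ hr1 hK hF1 hG1
    · intro p hp
      filter_upwards [hPB.bdd] with x hx
      exact (bm_w_le χ (hp400 p hp) (hδ p hp) hz0 hz0 hz (hx p hp)).2
    · intro p hp
      exact (H2 q χ h p (hI p (hB hp)) (hpp2 p hp) I P hP (hB hp) δ hδ0 (hδ p hp) 0 0 z
        hz0 hz0 hz).2.1
    · intro p hp
      exact (H2 q χ h p (hI p (hB hp)) (hpp2 p hp) I P hP (hB hp) δ hδ0 (hδ p hp) 0 0 z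
        hz0 hz0 hz).2.2.2.2.2
  -- the centre
  have ae1 : ∀ᵐ x ∂P, ∀ p ∈ I, w1 χ 0 p (x p) = (pp χ p (x p) : ℂ) := by
    filter_upwards [hP.bdd] with x hx p hp
    exact (Pool.Agent.LM.pp_facts_pr h (hI p hp) (hx p hp)).2.2.1.symm
  have ae2 : ∀ᵐ x ∂P, ∀ p ∈ I, w2 χ 0 0 0 p (x p) = ((pp χ p (x p) ^ 2 : ℝ) : ℂ) := by
    filter_upwards [hP.bdd] with x hx p hp
    exact (Pool.Agent.LM.pp_facts_pr h (hI p hp) (hx p hp)).2.2.2.symm
  have hint1 : ∀ p ∈ I, ∫ x, w1 χ 0 p (x p) ∂P = ((∫ x, pp χ p (x p) ∂P : ℝ) : ℂ) := by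
    intro p hp
    rw [← integral_complex_ofReal]
    refine integral_congr_ae ?_
    filter_upwards [ae1] with x hx using hx p hp
  have hint2 : ∀ p ∈ I, ∫ x, w2 χ 0 0 0 p (x p) ∂P = ((∫ x, pp χ p (x p) ^ 2 ∂P : ℝ) : ℂ) := by
    intro p hp
    rw [← integral_complex_ofReal]
    refine integral_congr_ae ?_
    filter_upwards [ae2] with x hx using hx p hp
  have hne1 : ∀ p ∈ I, ∫ x, w1 χ 0 p (x p) ∂P ≠ 0 := by
    intro p hp
    rw [hint1 p hp]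
    have := (Pool.Agent.LM.mgb_pos h (hI p hp) hP hp).2.2.1
    exact_mod_cast this.ne'
  have hne2 : ∀ p ∈ I, ∫ x, w2 χ 0 0 0 p (x p) ∂P ≠ 0 := by
    intro p hp
    rw [hint2 p hp]
    have := (Pool.Agent.LM.mgb_pos h (hI p hp) hP hp).2.2.2.1
    exact_mod_cast this.ne'
  have hrat1 : ∏ p ∈ B, ((∫ x, ((Real.exp (-1 * lx χ p (x p)) : ℝ) : ℂ) * w1 χ 0 p (x p) ∂P) /
        ∫ x, w1 χ 0 p (x p) ∂P) = ((∏ p ∈ B, r1 χ P p : ℝ) : ℂ) := by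
    rw [Complex.ofReal_prod]
    refine Finset.prod_congr rfl fun p hp => ?_
    rw [hint1 p (hB hp)]
    unfold r1
    rw [Complex.ofReal_div]
    congr 1
    rw [← integral_complex_ofReal]
    refine integral_congr_ae ?_
    filter_upwards [ae1] with x hx
    rw [hx p (hB hp), neg_one_mul]
    push_cast
    ring
  have hrat2 : ∏ p ∈ B, ((∫ x, ((Real.exp (-2 * lx χ p (x p)) : ℝ) : ℂ) *
      w2 χ 0 0 0 p (x p) ∂P) / ∫ x, w2 χ 0 0 0 p (x p) ∂P) = ((∏ p ∈ B, r2 χ P p : ℝ) : ℂ) := by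
    rw [Complex.ofReal_prod]
    refine Finset.prod_congr rfl fun p hp => ?_
    rw [hint2 p (hB hp)]
    unfold r2
    rw [Complex.ofReal_div]
    congr 1
    rw [← integral_complex_ofReal]
    refine integral_congr_ae ?_
    filter_upwards [ae2] with x hx
    rw [hx p (hB hp)]
    have : -2 * lx χ p (x p) = -(2 * lx χ p (x p)) := by ring
    rw [this]
    push_cast
    ring
  have z0 : ‖(0 : ℂ)‖ ≤ 0 := by rw [norm_zero]
  have hδz : ∀ p ∈ B, (0 : ℝ) * Real.log p ≤ 1 := fun p _ => by rw [zero_mul]; norm_num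
  have c1 := fam1 0 le_rfl hδz 0 z0
  have c2 := fam2 0 le_rfl hδz 0 0 0 z0 z0 z0
  rw [← bm_eq hP hB (hwm1 0) hF1 hD1 hne1, hrat1] at c1
  rw [← bm_eq hP hB (hwm2 0 0 0) hF2 hD2 hne2, hrat2] at c2
  have g1 := bm_real ae1 (fun x => ex K (-PX χ B x))
  have g2 := bm_real (w := w2 χ 0 0 0) (u := fun p y => pp χ p y ^ 2) ae2
    (fun x => ex K (-PX χ B x) ^ 2)
  rw [g1, ← Complex.ofReal_sub, Complex.norm_real, Real.norm_eq_abs] at c1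
  rw [g2, ← Complex.ofReal_sub, Complex.norm_real, Real.norm_eq_abs] at c2
  have hu : ∀ δ : ℝ, 0 ≤ δ → ∀ p ∈ B,
      0 ≤ δ * Real.log p / p + (p : ℝ) ^ (-(3 / 2) : ℝ) := by
    intro δ hδ0 p _
    have : 0 ≤ Real.log p := Real.log_natCast_nonneg p
    positivity
  refine ⟨_, _, g1, g2, c1, c2, fun δ hδ0 hδ => ⟨?_, ?_⟩⟩
  · intro r s z hr hs hz
    refine (bm_norm hP hB (hwm2 r s z) hF2 hD2).trans ?_
    refine bm_size (fam2 δ hδ0 hδ r s z hr hs hz) (C2 := C2)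
      (u := fun p => δ * Real.log p / p + (p : ℝ) ^ (-(3 / 2) : ℝ)) ?_ (by linarith)
      (hu δ hδ0) hr2n
    intro p hp
    have h5 := (H2 q χ h p (hI p (hB hp)) (hpp2 p hp) I P hP (hB hp) δ hδ0 (hδ p hp) r s z
        hr hs hz).2.2.1
    have e1 : ∀ y : ℝ, -2 * lx χ p y = -(2 * lx χ p y) := fun y => by ring
    simp only [e1]
    exact h5
  · intro z hz
    have hz0 : ‖(0 : ℂ)‖ ≤ δ := by rw [norm_zero]; exact hδ0
    refine (bm_norm hP hB (hwm1 z) hF1 hD1).trans ?_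
    refine bm_size (fam1 δ hδ0 hδ z hz) (C2 := C2)
      (u := fun p => δ * Real.log p / p + (p : ℝ) ^ (-(3 / 2) : ℝ)) ?_ (by linarith)
      (hu δ hδ0) hr1n
    intro p hp
    have h5 := (H2 q χ h p (hI p (hB hp)) (hpp2 p hp) I P hP (hB hp) δ hδ0 (hδ p hp) 0 0 z
        hz0 hz0 hz).2.2.2.1
    simp only [neg_one_mul]
    exact h5

end Pool.Agent.TEM

namespace Pool.Agent.TEM

/-- block BM -/
theorem block_main : type_of% @block_main_pr := @block_main_pr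

end Pool.Agent.TEM
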