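import Pool.Agent.Lib_helper15.TEM.Defs
import Pool.Agent.Lib_helper53.LMF.MA
import Pool.Agent.Lib_helper53.LMF.ME
import Pool.Agent.Lib_helper53.LMF.MG
import Pool.Agent.Lib_helper15.TEM.B.BM
import Pool.Agent.Lib_helper15.TEM.B.BK
import Pool.Agent.Lib_helper15.TEM.B.LB

/-! T12, block TR: the rough part. -/

set_option autoImplicit false
set_option linter.unusedSectionVars false

namespace Pool.Agent.TEM

open Complex MeasureTheory ProbabilityTheory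
open Pool.Agent.LSP (tau MX)
open Pool.Agent.LEV (Uu Um)
open Pool.Agent.LVB (IsST el ex HB PB JJ Bk Kk)
open Pool.Agent.LK (PQ)
open Pool.Agent.LE
open Pool.Agent.LM (cv pp ep Pz th IsV)

/-! ### Independence -/

theorem tr_one {I : Finset ℕ} {P : Measure (ℕ → ℝ)} (hP : IsST I P) {w : ℕ → ℝ → ℂ}
    (hw : ∀ p ∈ I, Measurable (w p)) (hw0 : ∀ p ∈ I, ∫ x, w p (x p) ∂P ≠ 0) :
    EW P I w (fun _ => 1) = 1 := by
  unfold EW
  have h1 := LM.mab_prodI hP hw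
  have h2 : ∏ p ∈ I, ∫ x, w p (x p) ∂P ≠ 0 := Finset.prod_ne_zero_iff.2 hw0
  simp only [Complex.ofReal_one, one_mul]
  rw [h1, div_self h2]

theorem tr_prod {I : Finset ℕ} {P : Measure (ℕ → ℝ)} (hP : IsST I P) {w : ℕ → ℝ → ℂ}
    (hw : ∀ p ∈ I, Measurable (w p)) (hw0 : ∀ p ∈ I, ∫ x, w p (x p) ∂P ≠ 0)
    (B : ℕ → Finset ℕ) (f : ℕ → (ℕ → ℝ) → ℝ) (n : ℕ) (hB : ∀ i < n, B i ⊆ I)
    (hd : ∀ i < n, ∀ j < n, i ≠ j → Disjoint (B i) (B j))
    (hf : ∀ i < n, Measurable (f i))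
    (hD : ∀ i < n, ∀ x y : ℕ → ℝ, (∀ p ∈ B i, x p = y p) → f i x = f i y) :
    EW P I w (fun x => ∏ i ∈ Finset.range n, f i x) = ∏ i ∈ Finset.range n, EW P I w (f i) := by
  induction n with
  | zero => simpa using tr_one hP hw hw0
  | succ n ih =>
    have ih' := ih (fun i hi => hB i (Nat.lt_succ_of_lt hi))
      (fun i hi j hj => hd i (Nat.lt_succ_of_lt hi) j (Nat.lt_succ_of_lt hj))
      (fun i hi => hf i (Nat.lt_succ_of_lt hi)) (fun i hi => hD i (Nat.lt_succ_of_lt hi))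
    rw [Finset.prod_range_succ, ← ih']
    simp only [Finset.prod_range_succ]
    refine LM.ew_indep_pr hP hw hw0 (J₁ := (Finset.range n).biUnion B) (J₂ := B n) ?_
      (hB n (Nat.lt_succ_self n)) ?_ ?_ (hf n (Nat.lt_succ_self n)) ?_ (hD n (Nat.lt_succ_self n))
    · exact Finset.biUnion_subset.2 fun i hi =>
        hB i (Nat.lt_succ_of_lt (Finset.mem_range.1 hi))
    · rw [Finset.disjoint_biUnion_left]
      intro i hi
      have hi' := Finset.mem_range.1 hi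
      exact hd i (Nat.lt_succ_of_lt hi') n (Nat.lt_succ_self n) hi'.ne
    · exact Finset.measurable_fun_prod _ fun i hi =>
        hf i (Nat.lt_succ_of_lt (Finset.mem_range.1 hi))
    · intro x y h
      refine Finset.prod_congr rfl fun i hi => ?_
      refine hD i (Nat.lt_succ_of_lt (Finset.mem_range.1 hi)) x y fun p hp => ?_
      exact h p (Finset.mem_biUnion.2 ⟨i, hi, hp⟩)

theorem tr_zero {I : Finset ℕ} {P : Measure (ℕ → ℝ)} {w : ℕ → ℝ → ℂ}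
    (hw0 : ¬ ∀ p ∈ I, ∫ x, w p (x p) ∂P ≠ 0) (F : (ℕ → ℝ) → ℝ) : EW P I w F = 0 := by
  push Not at hw0
  obtain ⟨p, hp, h⟩ := hw0
  unfold EW
  rw [Finset.prod_eq_zero hp h, div_zero]

/-! ### Measurability -/

theorem tr_el (p : ℕ) (a : ℂ) : Measurable (fun y : ℝ => el p a y) := by
  unfold el
  fun_prop

section
variable {q : ℕ} [NeZero q]

theorem tr_w1 (χ : DirichletCharacter ℂ q) (z : ℂ) (p : ℕ) : Measurable (w1 χ z p) :=
  (tr_el p _).mul (tr_el p _)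

theorem tr_w2 (χ : DirichletCharacter ℂ q) (r s z : ℂ) (p : ℕ) : Measurable (w2 χ r s z p) :=
  (((tr_el p _).pow_const 2).mul (tr_el p _)).mul (tr_el p _)

/-- a block of the mollifier -/
noncomputable def trf (χ : DirichletCharacter ℂ q) (B : Finset ℕ) (K : ℕ) (x : ℕ → ℝ) : ℝ :=
  ex K (-PX χ B x)

theorem tr_f (χ : DirichletCharacter ℂ q) (B : Finset ℕ) (K : ℕ) :
    Measurable (trf χ B K) ∧
      ∀ x y : ℕ → ℝ, (∀ p ∈ B, x p = y p) → trf χ B K x = trf χ B K y := by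
  constructor
  · unfold trf ex PX lx
    fun_prop
  · intro x y h
    unfold trf PX
    rw [Finset.sum_congr rfl fun p hp => by rw [h p hp]]

theorem tr_pos1 {χ : DirichletCharacter ℂ q} (h : PQ χ) {I : Finset ℕ} {P : Measure (ℕ → ℝ)}
    (hI : ∀ p ∈ I, p.Prime) (hP : IsST I P) : ∀ p ∈ I, ∫ x, w1 χ 0 p (x p) ∂P ≠ 0 := by
  intro p hp
  obtain ⟨-, -, h3, -, -⟩ := LM.mgb_pos h (hI p hp) hP hp
  have e : ∫ x, w1 χ 0 p (x p) ∂P = ((∫ x, pp χ p (x p) ∂P : ℝ) : ℂ) := by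
    rw [← integral_complex_ofReal]
    exact integral_congr_ae (Filter.Eventually.of_forall fun x => (LM.me_w1 h (x p)).symm)
  rw [e]
  exact_mod_cast h3.ne'

theorem tr_pos2 {χ : DirichletCharacter ℂ q} (h : PQ χ) {I : Finset ℕ} {P : Measure (ℕ → ℝ)}
    (hI : ∀ p ∈ I, p.Prime) (hP : IsST I P) : ∀ p ∈ I, ∫ x, w2 χ 0 0 0 p (x p) ∂P ≠ 0 := by
  intro p hp
  obtain ⟨-, -, -, h4, -⟩ := LM.mgb_pos h (hI p hp) hP hp
  have e : ∫ x, w2 χ 0 0 0 p (x p) ∂P = ((∫ x, pp χ p (x p) ^ 2 ∂P : ℝ) : ℂ) := by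
    rw [← integral_complex_ofReal]
    refine integral_congr_ae ?_
    filter_upwards [hP.bdd] with x hx
    exact (LM.pp_facts_pr h (hI p hp) (hx p hp)).2.2.2.symm
  rw [e]
  exact_mod_cast h4.ne'

end

/-! ### Products close to one -/

theorem tr_near {n : ℕ} {g R η : ℕ → ℝ} {ε : ℝ} (hη : ∀ i < n, 0 ≤ η i)
    (hs : ∑ i ∈ Finset.range n, η i ≤ ε) (hε : ε ≤ 1 / 2) (hR : ∀ i < n, 0 < R i)
    (hg : ∀ i < n, |g i - R i| ≤ η i * R i) :
    Real.exp (-(2 * ε)) * ∏ i ∈ Finset.range n, R i ≤ ∏ i ∈ Finset.range n, g i ∧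
      ∏ i ∈ Finset.range n, g i ≤ Real.exp ε * ∏ i ∈ Finset.range n, R i := by
  have hη2 : ∀ i < n, η i ≤ 1 / 2 := by
    intro i hi
    refine le_trans ?_ (hs.trans hε)
    exact Finset.single_le_sum (fun j hj => hη j (Finset.mem_range.1 hj)) (Finset.mem_range.2 hi)
  have h1 : ∀ i < n, Real.exp (-(2 * η i)) * R i ≤ g i := by
    intro i hi
    have h0 := hη i hi
    have h2 := hη2 i hi
    have h3 : Real.exp (-(2 * η i)) ≤ 1 - η i := by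
      rw [Real.exp_neg]
      have h4 : 1 + 2 * η i ≤ Real.exp (2 * η i) := by
        have := Real.add_one_le_exp (2 * η i)
        linarith
      have h5 : 0 < 1 + 2 * η i := by linarith
      calc (Real.exp (2 * η i))⁻¹ ≤ (1 + 2 * η i)⁻¹ := inv_anti₀ h5 h4
        _ ≤ 1 - η i := by
            rw [inv_le_iff_one_le_mul₀ h5]
            nlinarith
    have h6 := (abs_le.1 (hg i hi)).1
    have h7 := mul_le_mul_of_nonneg_right h3 (hR i hi).le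
    linarith
  have h2 : ∀ i < n, g i ≤ Real.exp (η i) * R i := by
    intro i hi
    have h3 : 1 + η i ≤ Real.exp (η i) := by
      have := Real.add_one_le_exp (η i)
      linarith
    have h6 := (abs_le.1 (hg i hi)).2
    have h7 := mul_le_mul_of_nonneg_right h3 (hR i hi).le
    linarith
  have hR0 : 0 ≤ ∏ i ∈ Finset.range n, R i :=
    Finset.prod_nonneg fun i hi => (hR i (Finset.mem_range.1 hi)).le
  constructor
  · have e : ∏ i ∈ Finset.range n, (Real.exp (-(2 * η i)) * R i) =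
        Real.exp (-(2 * ∑ i ∈ Finset.range n, η i)) * ∏ i ∈ Finset.range n, R i := by
      rw [Finset.prod_mul_distrib, ← Real.exp_sum, Finset.sum_neg_distrib, Finset.mul_sum]
    calc Real.exp (-(2 * ε)) * ∏ i ∈ Finset.range n, R i ≤
        Real.exp (-(2 * ∑ i ∈ Finset.range n, η i)) * ∏ i ∈ Finset.range n, R i :=
          mul_le_mul_of_nonneg_right (Real.exp_le_exp.2 (by linarith)) hR0
      _ = ∏ i ∈ Finset.range n, (Real.exp (-(2 * η i)) * R i) := e.symm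
      _ ≤ _ := Finset.prod_le_prod
          (fun i hi => mul_nonneg (Real.exp_pos _).le (hR i (Finset.mem_range.1 hi)).le)
          (fun i hi => h1 i (Finset.mem_range.1 hi))
  · have e : ∏ i ∈ Finset.range n, (Real.exp (η i) * R i) =
        Real.exp (∑ i ∈ Finset.range n, η i) * ∏ i ∈ Finset.range n, R i := by
      rw [Finset.prod_mul_distrib, ← Real.exp_sum]
    calc ∏ i ∈ Finset.range n, g i ≤ ∏ i ∈ Finset.range n, (Real.exp (η i) * R i) :=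
          Finset.prod_le_prod (fun i hi => by
            have hi' := Finset.mem_range.1 hi
            exact le_trans (mul_nonneg (Real.exp_pos _).le (hR i hi').le) (h1 i hi'))
          (fun i hi => h2 i (Finset.mem_range.1 hi))
      _ = Real.exp (∑ i ∈ Finset.range n, η i) * ∏ i ∈ Finset.range n, R i := e
      _ ≤ _ := mul_le_mul_of_nonneg_right (Real.exp_le_exp.2 hs) hR0

/-! ### Products over primes -/

section
variable {q : ℕ} [NeZero q]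

theorem tr_PP {z₀ A₁ q p : ℕ} (hp : p ∈ PP z₀ A₁ q) : p.Prime ∧ p ≤ q ^ A₁ ∧ z₀ < p := by
  unfold PP at hp
  rw [Finset.mem_sdiff] at hp
  obtain ⟨h1, h2⟩ := hp
  unfold Pz at h1 h2
  rw [Finset.mem_filter, Finset.mem_Icc] at h1 h2
  refine ⟨h1.2, h1.1.2, ?_⟩
  by_contra h
  exact h2 ⟨⟨h1.1.1, by omega⟩, h1.2⟩

theorem tr_W {χ : DirichletCharacter ℂ q} (h : PQ χ) {p : ℕ} (hp : p.Prime) :
    0 < (1 - 1 / (p : ℝ)) * (1 - cv χ p / p) := by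
  have h2 : (2 : ℝ) ≤ p := by exact_mod_cast hp.two_le
  have h0 : (0 : ℝ) < p := by linarith
  have hc := abs_le.1 (LM.me_cv h p)
  have h3 : 1 / (p : ℝ) ≤ 1 / 2 := one_div_le_one_div_of_le (by norm_num) h2
  have h4 : cv χ p / p ≤ 1 / p := div_le_div_of_nonneg_right hc.2 h0.le
  exact mul_pos (by linarith) (by linarith)

/-- the primes dividing `q` -/
theorem tr_ram {χ : DirichletCharacter ℂ q} (h : PQ χ) {S : Finset ℕ} (hS : ∀ p ∈ S, p.Prime) :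
    ∏ p ∈ S, (1 + (1 - cv χ p ^ 2) / (p : ℝ)) ≤ ∏ p ∈ q.primeFactors, (1 + 1 / (p : ℝ)) := by
  have hq : q ≠ 0 := NeZero.ne q
  have h1 : ∏ p ∈ S, (1 + (1 - cv χ p ^ 2) / (p : ℝ)) ≤
      ∏ p ∈ S.filter (fun p => p ∈ q.primeFactors), (1 + 1 / (p : ℝ)) := by
    rw [Finset.prod_filter]
    refine Finset.prod_le_prod (fun p hp => ?_) (fun p hp => ?_)
    · have h0 : (0 : ℝ) < p := by exact_mod_cast (hS p hp).pos
      have hc : cv χ p ^ 2 ≤ 1 := by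
        rw [← sq_abs]
        exact pow_le_one₀ (abs_nonneg _) (LM.me_cv h p)
      have : 0 ≤ (1 - cv χ p ^ 2) / (p : ℝ) := div_nonneg (by linarith) h0.le
      linarith
    · have h0 : (0 : ℝ) < p := by exact_mod_cast (hS p hp).pos
      split_ifs with hpq
      · have : (1 - cv χ p ^ 2) / (p : ℝ) ≤ 1 / p :=
          div_le_div_of_nonneg_right (by linarith [sq_nonneg (cv χ p)]) h0.le
        linarith
      · have hnd : ¬ p ∣ q := fun hd => hpq (Nat.mem_primeFactors.2 ⟨hS p hp, hd, hq⟩)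
        have hcop : p.Coprime q := ((hS p hp).coprime_iff_not_dvd).2 hnd
        have hu : IsUnit (p : ZMod q) := (ZMod.isUnit_iff_coprime p q).2 hcop
        have hne : χ (p : ZMod q) ≠ 0 := (hu.map χ).ne_zero
        obtain ⟨hc, hc'⟩ := LM.cv_cases_pr h p
        have hcv : cv χ p ^ 2 = 1 := by
          rcases hc' with h1 | h1 | h1
          · rw [h1]
            norm_num
          · exfalso
            apply hne
            rw [hc, h1]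
            simp
          · rw [h1]
            norm_num
        rw [hcv]
        simp
  refine h1.trans (Finset.prod_le_prod_of_subset_of_one_le
    (fun p hp => (Finset.mem_filter.1 hp).2) (fun p hp => by positivity) (fun p hp _ => ?_))
  have : 0 ≤ 1 / (p : ℝ) := by positivity
  linarith

end

/-- block TR (uses block_main, bl_facts, rat_zero, LM.ew_indep): the rough part -/
theorem te_rough_pr {ε : ℝ} (hε : 0 < ε) (A₁ : ℕ) (hA₁ : 1 ≤ A₁) : ∃ (A : ℕ) (C : ℝ) (z₂ : ℕ),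
    1 ≤ A ∧ 1 ≤ C ∧ ∀ z₀ : ℕ, z₂ ≤ z₀ → ∃ q₀ : ℕ, ∀ (q : ℕ) [NeZero q]
    (χ : DirichletCharacter ℂ q), PQ χ → q₀ ≤ q → ∀ (I : Finset ℕ) (P : Measure (ℕ → ℝ)),
    (∀ p ∈ I, p.Prime) → IsST I P → Pz (q ^ A₁) ⊆ I → ∃ T₁ T₂ : ℝ, 0 < T₁ ∧ 0 < T₂ ∧
      EW P I (w1 χ 0) (te χ A z₀ A₁) = (T₁ : ℂ) ∧
      EW P I (w2 χ 0 0 0) (fun x => te χ A z₀ A₁ x ^ 2) = (T₂ : ℂ) ∧
      T₂ ≤ (1 + ε) * (∏ p ∈ PP z₀ A₁ q, ep χ p) * T₁ ^ 2 ∧
      WW χ (PP z₀ A₁ q) ≤ C * T₁ ∧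
      T₁ ≤ C * WW χ (PP z₀ A₁ q) * ∏ p ∈ q.primeFactors, (1 + 1 / (p : ℝ)) ∧
      ∀ δ : ℝ, 0 ≤ δ → δ * (A₁ * Real.log q) ≤ 1 →
        (∀ r s z : ℂ, ‖r‖ ≤ δ → ‖s‖ ≤ δ → ‖z‖ ≤ δ →
          ‖EW P I (w2 χ r s z) (fun x => te χ A z₀ A₁ x ^ 2)‖ ≤ C * T₂) ∧
        ∀ z : ℂ, ‖z‖ ≤ δ → ‖EW P I (w1 χ z) (te χ A z₀ A₁)‖ ≤ C * T₁ := by
  obtain ⟨Cr, p1, hCr, hrat⟩ := rat_zero
  obtain ⟨Cb, p2, hCb, hblock⟩ := block_main
  set ε' : ℝ := min (1 / 2) (Real.log (1 + ε) / (5 + Cr)) with hε'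
  have hlog : 0 < Real.log (1 + ε) := Real.log_pos (by linarith)
  have hε'0 : 0 < ε' := lt_min (by norm_num) (div_pos hlog (by linarith))
  have hε'1 : ε' ≤ 1 / 2 := min_le_left _ _
  have hε'2 : (5 + Cr) * ε' ≤ Real.log (1 + ε) := by
    have h1 : ε' ≤ Real.log (1 + ε) / (5 + Cr) := min_le_right _ _
    rw [le_div_iff₀ (by linarith)] at h1
    linarith
  obtain ⟨A, Ck, z2, hA, hCk, hbl⟩ := bl_facts hε'0 Cb A₁ hA₁
  set C : ℝ := Real.exp (Cb * (Ck + 1) + Cr + 4) with hC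
  have hCb0 : 0 ≤ Cb * (Ck + 1) := by positivity
  refine ⟨A, C, max z2 (max p1 p2), hA, Real.one_le_exp (by linarith), fun z₀ hz₀ => ?_⟩
  obtain ⟨q₀, hq₀⟩ := hbl z₀ (le_trans (le_max_left _ _) hz₀)
  have hz1 : p1 ≤ z₀ := le_trans (le_trans (le_max_left _ _) (le_max_right _ _)) hz₀
  have hz2 : p2 ≤ z₀ := le_trans (le_trans (le_max_right _ _) (le_max_right _ _)) hz₀
  refine ⟨q₀, fun q _ χ hχ hq I P hI hP hPz => ?_⟩
  obtain ⟨hdisj, hunion, hdeg, -, hsum, h32, hlogs, -⟩ := hq₀ q hq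
  have hqpos : 0 < q := Nat.pos_of_ne_zero (NeZero.ne q)
  set n := nb A₁ q with hn
  have hBPP : ∀ i < n, bl z₀ A₁ q i ⊆ PP z₀ A₁ q := by
    intro i hi
    rw [← hunion]
    exact Finset.subset_biUnion_of_mem (bl z₀ A₁ q) (Finset.mem_range.2 hi)
  have hPPI : PP z₀ A₁ q ⊆ I := Finset.sdiff_subset.trans hPz
  have hBI : ∀ i < n, bl z₀ A₁ q i ⊆ I := fun i hi => (hBPP i hi).trans hPPI
  have hPPp : ∀ p ∈ PP z₀ A₁ q, p.Prime := fun p hp => (tr_PP hp).1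
  -- the blocks
  have hmain : ∀ i < n, ∃ g₁ g₂ : ℝ,
      EW P I (w1 χ 0) (fun x => ex (dg A A₁ q i) (-PX χ (bl z₀ A₁ q i) x)) = (g₁ : ℂ) ∧
      EW P I (w2 χ 0 0 0) (fun x => ex (dg A A₁ q i) (-PX χ (bl z₀ A₁ q i) x) ^ 2) = (g₂ : ℂ) ∧
      |g₁ - ∏ p ∈ bl z₀ A₁ q i, r1 χ P p| ≤
        4 * Real.exp (-(dg A A₁ q i : ℝ)) * ∏ p ∈ bl z₀ A₁ q i, r1 χ P p ∧
      |g₂ - ∏ p ∈ bl z₀ A₁ q i, r2 χ P p| ≤
        4 * Real.exp (-(dg A A₁ q i : ℝ)) * ∏ p ∈ bl z₀ A₁ q i, r2 χ P p ∧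
      ∀ δ : ℝ, 0 ≤ δ → (∀ p ∈ bl z₀ A₁ q i, δ * Real.log p ≤ 1) →
        (∀ r s z : ℂ, ‖r‖ ≤ δ → ‖s‖ ≤ δ → ‖z‖ ≤ δ →
          ‖EW P I (w2 χ r s z) (fun x => ex (dg A A₁ q i) (-PX χ (bl z₀ A₁ q i) x) ^ 2)‖ ≤
            (Real.exp (Cb * ∑ p ∈ bl z₀ A₁ q i, (δ * Real.log p / p + (p : ℝ) ^ (-(3 / 2) : ℝ))) +
              4 * Real.exp (-(dg A A₁ q i : ℝ))) * ∏ p ∈ bl z₀ A₁ q i, r2 χ P p) ∧
        ∀ z : ℂ, ‖z‖ ≤ δ → ‖EW P I (w1 χ z) (fun x => ex (dg A A₁ q i) (-PX χ (bl z₀ A₁ q i) x))‖ ≤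
          (Real.exp (Cb * ∑ p ∈ bl z₀ A₁ q i, (δ * Real.log p / p + (p : ℝ) ^ (-(3 / 2) : ℝ))) +
            4 * Real.exp (-(dg A A₁ q i : ℝ))) * ∏ p ∈ bl z₀ A₁ q i, r1 χ P p := by
    intro i hi
    exact hblock q χ hχ I P hI hP (bl z₀ A₁ q i) (hBI i hi)
      (fun p hp => hz2.trans (tr_PP (hBPP i hi hp)).2.2.le) (dg A A₁ q i) (hdeg i hi)
  choose! g₁ g₂ hg1 hg2 hg3 hg4 hg5 using hmain
  -- local means
  have hr : ∀ p ∈ PP z₀ A₁ q, 0 < r1 χ P p ∧ 0 < r2 χ P p ∧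
      r2 χ P p ≤ Real.exp (Cr * (p : ℝ) ^ (-(3 / 2) : ℝ)) * ep χ p * r1 χ P p ^ 2 ∧
      (1 - 1 / (p : ℝ)) * (1 - cv χ p / p) ≤
        Real.exp (Cr * (p : ℝ) ^ (-(3 / 2) : ℝ)) * r1 χ P p ∧
      r1 χ P p ≤ Real.exp (Cr * (p : ℝ) ^ (-(3 / 2) : ℝ)) * ((1 - 1 / (p : ℝ)) *
        (1 - cv χ p / p)) * (1 + (1 - cv χ p ^ 2) / p) := by
    intro p hp
    obtain ⟨hp1, -, hp3⟩ := tr_PP hp
    obtain ⟨a1, a2, -, -, a5, a6, a7⟩ := hrat q χ hχ p hp1 (hz1.trans hp3.le) I P hP (hPPI hp)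
    refine ⟨(Real.exp_pos _).trans_le a1, (Real.exp_pos _).trans_le a2, a5, ?_, a7⟩
    have h1 := mul_le_mul_of_nonneg_left a6 (Real.exp_pos (Cr * (p : ℝ) ^ (-(3 / 2) : ℝ))).le
    rw [← mul_assoc, ← Real.exp_add, add_neg_cancel, Real.exp_zero, one_mul] at h1
    exact h1
  have hR1p : ∀ i < n, 0 < ∏ p ∈ bl z₀ A₁ q i, r1 χ P p := fun i hi =>
    Finset.prod_pos fun p hp => (hr p (hBPP i hi hp)).1
  have hR2p : ∀ i < n, 0 < ∏ p ∈ bl z₀ A₁ q i, r2 χ P p := fun i hi =>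
    Finset.prod_pos fun p hp => (hr p (hBPP i hi hp)).2.1
  have hbiU : ∀ f : ℕ → ℝ, ∏ i ∈ Finset.range n, ∏ p ∈ bl z₀ A₁ q i, f p =
      ∏ p ∈ PP z₀ A₁ q, f p := by
    intro f
    rw [← hunion, Finset.prod_biUnion]
    intro i hi j hj hij
    exact hdisj i (Finset.mem_range.1 hi) j (Finset.mem_range.1 hj) hij
  have hbiS : ∀ f : ℕ → ℝ, ∑ i ∈ Finset.range n, ∑ p ∈ bl z₀ A₁ q i, f p =
      ∑ p ∈ PP z₀ A₁ q, f p := by
    intro f
    rw [← hunion, Finset.sum_biUnion]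
    intro i hi j hj hij
    exact hdisj i (Finset.mem_range.1 hi) j (Finset.mem_range.1 hj) hij
  set R₁ : ℝ := ∏ p ∈ PP z₀ A₁ q, r1 χ P p with hR1
  set R₂ : ℝ := ∏ p ∈ PP z₀ A₁ q, r2 χ P p with hR2
  have hR10 : 0 < R₁ := Finset.prod_pos fun p hp => (hr p hp).1
  have hR20 : 0 < R₂ := Finset.prod_pos fun p hp => (hr p hp).2.1
  have hη : ∀ i < n, 0 ≤ 4 * Real.exp (-(dg A A₁ q i : ℝ)) := fun i _ => by positivity
  obtain ⟨t1, t2⟩ := tr_near hη hsum hε'1 hR1p hg3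
  obtain ⟨t3, t4⟩ := tr_near hη hsum hε'1 hR2p hg4
  rw [hbiU] at t1 t2 t3 t4
  set T₁ : ℝ := ∏ i ∈ Finset.range n, g₁ i with hT1
  set T₂ : ℝ := ∏ i ∈ Finset.range n, g₂ i with hT2
  have hT10 : 0 < T₁ := (mul_pos (Real.exp_pos _) hR10).trans_le t1
  have hT20 : 0 < T₂ := (mul_pos (Real.exp_pos _) hR20).trans_le t3
  have u1 : R₁ ≤ Real.exp (2 * ε') * T₁ := by
    have h1 := mul_le_mul_of_nonneg_left t1 (Real.exp_pos (2 * ε')).le
    rw [← mul_assoc, ← Real.exp_add, add_neg_cancel, Real.exp_zero, one_mul] at h1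
    exact h1
  have u2 : R₂ ≤ Real.exp (2 * ε') * T₂ := by
    have h1 := mul_le_mul_of_nonneg_left t3 (Real.exp_pos (2 * ε')).le
    rw [← mul_assoc, ← Real.exp_add, add_neg_cancel, Real.exp_zero, one_mul] at h1
    exact h1
  -- measurability
  have hfm : ∀ i < n, Measurable (fun x => ex (dg A A₁ q i) (-PX χ (bl z₀ A₁ q i) x)) :=
    fun i _ => (tr_f χ (bl z₀ A₁ q i) (dg A A₁ q i)).1
  have hfD : ∀ i < n, ∀ x y : ℕ → ℝ, (∀ p ∈ bl z₀ A₁ q i, x p = y p) →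
      ex (dg A A₁ q i) (-PX χ (bl z₀ A₁ q i) x) = ex (dg A A₁ q i) (-PX χ (bl z₀ A₁ q i) y) :=
    fun i _ => (tr_f χ (bl z₀ A₁ q i) (dg A A₁ q i)).2
  have hE1 : ∀ z : ℂ, (∀ p ∈ I, ∫ x, w1 χ z p (x p) ∂P ≠ 0) →
      EW P I (w1 χ z) (te χ A z₀ A₁) = ∏ i ∈ Finset.range n,
        EW P I (w1 χ z) (fun x => ex (dg A A₁ q i) (-PX χ (bl z₀ A₁ q i) x)) := by
    intro z hz
    exact tr_prod hP (fun p _ => tr_w1 χ z p) hz (bl z₀ A₁ q)
      (fun i x => ex (dg A A₁ q i) (-PX χ (bl z₀ A₁ q i) x)) n hBI hdisj hfm hfD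
  have hE2 : ∀ r s z : ℂ, (∀ p ∈ I, ∫ x, w2 χ r s z p (x p) ∂P ≠ 0) →
      EW P I (w2 χ r s z) (fun x => te χ A z₀ A₁ x ^ 2) = ∏ i ∈ Finset.range n,
        EW P I (w2 χ r s z) (fun x => ex (dg A A₁ q i) (-PX χ (bl z₀ A₁ q i) x) ^ 2) := by
    intro r s z hz
    have h1 := tr_prod hP (fun p _ => tr_w2 χ r s z p) hz (bl z₀ A₁ q)
      (fun i x => ex (dg A A₁ q i) (-PX χ (bl z₀ A₁ q i) x) ^ 2) n hBI hdisj
      (fun i hi => (hfm i hi).pow_const 2) (fun i hi x y h => by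
        rw [hfD i hi x y h])
    rw [← h1]
    congr 1
    funext x
    unfold te
    rw [Finset.prod_pow]
  -- the Euler products
  have hep : ∀ p ∈ PP z₀ A₁ q, 0 < ep χ p := by
    intro p hp
    obtain ⟨a1, a2, a3, -, -⟩ := hr p hp
    have h1 : 0 < Real.exp (Cr * (p : ℝ) ^ (-(3 / 2) : ℝ)) * ep χ p * r1 χ P p ^ 2 :=
      a2.trans_le a3
    have h2 : 0 < Real.exp (Cr * (p : ℝ) ^ (-(3 / 2) : ℝ)) * ep χ p :=
      pos_of_mul_pos_left h1 (by positivity)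
    exact pos_of_mul_pos_right h2 (Real.exp_pos _).le
  have hEp0 : 0 < ∏ p ∈ PP z₀ A₁ q, ep χ p := Finset.prod_pos hep
  have hexp : ∏ p ∈ PP z₀ A₁ q, Real.exp (Cr * (p : ℝ) ^ (-(3 / 2) : ℝ)) ≤
      Real.exp (Cr * ε') := by
    rw [← Real.exp_sum, ← Finset.mul_sum]
    exact Real.exp_le_exp.2 (mul_le_mul_of_nonneg_left h32 (by linarith))
  have hexp0 : 0 ≤ ∏ p ∈ PP z₀ A₁ q, Real.exp (Cr * (p : ℝ) ^ (-(3 / 2) : ℝ)) :=
    Finset.prod_nonneg fun p _ => (Real.exp_pos _).le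
  have hW0 : 0 < WW χ (PP z₀ A₁ q) := Finset.prod_pos fun p hp => tr_W hχ (hPPp p hp)
  have v1 : R₂ ≤ Real.exp (Cr * ε') * (∏ p ∈ PP z₀ A₁ q, ep χ p) * R₁ ^ 2 := by
    have h1 : R₂ ≤ ∏ p ∈ PP z₀ A₁ q,
        (Real.exp (Cr * (p : ℝ) ^ (-(3 / 2) : ℝ)) * ep χ p * r1 χ P p ^ 2) :=
      Finset.prod_le_prod (fun p hp => (hr p hp).2.1.le) (fun p hp => (hr p hp).2.2.1)
    rw [Finset.prod_mul_distrib, Finset.prod_mul_distrib, Finset.prod_pow, ← hR1] at h1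
    refine h1.trans ?_
    refine mul_le_mul_of_nonneg_right ?_ (sq_nonneg _)
    exact mul_le_mul_of_nonneg_right hexp hEp0.le
  have v2 : WW χ (PP z₀ A₁ q) ≤ Real.exp (Cr * ε') * R₁ := by
    have h1 : WW χ (PP z₀ A₁ q) ≤ ∏ p ∈ PP z₀ A₁ q,
        (Real.exp (Cr * (p : ℝ) ^ (-(3 / 2) : ℝ)) * r1 χ P p) :=
      Finset.prod_le_prod (fun p hp => (tr_W hχ (hPPp p hp)).le) (fun p hp => (hr p hp).2.2.2.1)
    rw [Finset.prod_mul_distrib, ← hR1] at h1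
    exact h1.trans (mul_le_mul_of_nonneg_right hexp hR10.le)
  have v3 : R₁ ≤ Real.exp (Cr * ε') * WW χ (PP z₀ A₁ q) *
      ∏ p ∈ q.primeFactors, (1 + 1 / (p : ℝ)) := by
    have h1 : R₁ ≤ ∏ p ∈ PP z₀ A₁ q,
        (Real.exp (Cr * (p : ℝ) ^ (-(3 / 2) : ℝ)) * ((1 - 1 / (p : ℝ)) *
        (1 - cv χ p / p)) * (1 + (1 - cv χ p ^ 2) / p)) :=
      Finset.prod_le_prod (fun p hp => (hr p hp).1.le) (fun p hp => (hr p hp).2.2.2.2)
    rw [Finset.prod_mul_distrib, Finset.prod_mul_distrib] at h1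
    refine h1.trans ?_
    have h2 := tr_ram hχ hPPp
    have h3 : (∏ p ∈ PP z₀ A₁ q, Real.exp (Cr * (p : ℝ) ^ (-(3 / 2) : ℝ))) *
        (∏ p ∈ PP z₀ A₁ q, ((1 - 1 / (p : ℝ)) * (1 - cv χ p / p))) ≤
        Real.exp (Cr * ε') * WW χ (PP z₀ A₁ q) :=
      mul_le_mul_of_nonneg_right hexp hW0.le
    refine (mul_le_mul_of_nonneg_left h2 ?_).trans (mul_le_mul_of_nonneg_right h3 ?_)
    · exact mul_nonneg hexp0 hW0.le
    · exact Finset.prod_nonneg fun p _ => by positivity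
  -- perturbed bound
  have hpert : ∀ (δ : ℝ) (F : ℕ → ℂ) (G : ℕ → ℝ) (T : ℝ), 0 ≤ δ → δ * (A₁ * Real.log q) ≤ 1 →
      (∀ i < n, 0 < ∏ p ∈ bl z₀ A₁ q i, G p) →
      (∏ p ∈ PP z₀ A₁ q, G p) ≤ Real.exp (2 * ε') * T → 0 < T →
      (∀ i < n, ‖F i‖ ≤ (Real.exp (Cb * ∑ p ∈ bl z₀ A₁ q i,
        (δ * Real.log p / p + (p : ℝ) ^ (-(3 / 2) : ℝ))) + 4 * Real.exp (-(dg A A₁ q i : ℝ))) *
          ∏ p ∈ bl z₀ A₁ q i, G p) →
      ‖∏ i ∈ Finset.range n, F i‖ ≤ C * T := by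
    intro δ F G T hδ hδ1 hG hGT hT hF
    have hS0 : ∀ i < n, 0 ≤ Cb * ∑ p ∈ bl z₀ A₁ q i,
        (δ * Real.log p / p + (p : ℝ) ^ (-(3 / 2) : ℝ)) := by
      intro i hi
      refine mul_nonneg (by linarith) (Finset.sum_nonneg fun p hp => ?_)
      have hp1 : (1 : ℝ) ≤ p := by exact_mod_cast (hPPp p (hBPP i hi hp)).one_lt.le
      have := Real.log_nonneg hp1
      positivity
    have h1 : ∀ i < n, ‖F i‖ ≤ Real.exp (Cb * (∑ p ∈ bl z₀ A₁ q i,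
        (δ * Real.log p / p + (p : ℝ) ^ (-(3 / 2) : ℝ))) + 4 * Real.exp (-(dg A A₁ q i : ℝ))) *
          ∏ p ∈ bl z₀ A₁ q i, G p := by
      intro i hi
      refine (hF i hi).trans (mul_le_mul_of_nonneg_right ?_ (hG i hi).le)
      rw [Real.exp_add]
      have h2 := Real.one_le_exp (hS0 i hi)
      have h3 := Real.add_one_le_exp (4 * Real.exp (-(dg A A₁ q i : ℝ)))
      have h4 := hη i hi
      nlinarith
    rw [norm_prod]
    have h2 : ∏ i ∈ Finset.range n, ‖F i‖ ≤ ∏ i ∈ Finset.range n,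
        (Real.exp (Cb * (∑ p ∈ bl z₀ A₁ q i,
        (δ * Real.log p / p + (p : ℝ) ^ (-(3 / 2) : ℝ))) + 4 * Real.exp (-(dg A A₁ q i : ℝ))) *
          ∏ p ∈ bl z₀ A₁ q i, G p) :=
      Finset.prod_le_prod (fun i _ => norm_nonneg _) (fun i hi => h1 i (Finset.mem_range.1 hi))
    rw [Finset.prod_mul_distrib, hbiU, ← Real.exp_sum, Finset.sum_add_distrib, ← Finset.mul_sum,
      hbiS] at h2
    have h3 : ∑ p ∈ PP z₀ A₁ q, (δ * Real.log p / p + (p : ℝ) ^ (-(3 / 2) : ℝ)) ≤ Ck + 1 := by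
      rw [Finset.sum_add_distrib]
      have e1 : ∑ p ∈ PP z₀ A₁ q, δ * Real.log p / p = δ * ∑ p ∈ PP z₀ A₁ q, Real.log p / p := by
        rw [Finset.mul_sum]
        refine Finset.sum_congr rfl fun p _ => by ring
      rw [e1]
      have h4 : δ * ∑ p ∈ PP z₀ A₁ q, Real.log p / p ≤ δ * (Ck * Real.log q) :=
        mul_le_mul_of_nonneg_left hlogs hδ
      have hlq : 0 ≤ Real.log q := Real.log_nonneg (by exact_mod_cast hqpos)
      have hA1' : (1 : ℝ) ≤ A₁ := by exact_mod_cast hA₁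
      have h5 : δ * Real.log q ≤ 1 := by
        have : δ * Real.log q ≤ δ * (A₁ * Real.log q) :=
          mul_le_mul_of_nonneg_left (by nlinarith) hδ
        linarith
      have h6 : δ * (Ck * Real.log q) ≤ Ck := by
        have : Ck * (δ * Real.log q) ≤ Ck * 1 := mul_le_mul_of_nonneg_left h5 (by linarith)
        linarith
      linarith
    have h4 : Cb * ∑ p ∈ PP z₀ A₁ q, (δ * Real.log p / p + (p : ℝ) ^ (-(3 / 2) : ℝ)) ≤
        Cb * (Ck + 1) := mul_le_mul_of_nonneg_left h3 (by linarith)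
    have hG0 : 0 ≤ ∏ p ∈ PP z₀ A₁ q, G p := by
      rw [← hbiU]
      exact Finset.prod_nonneg fun i hi => (hG i (Finset.mem_range.1 hi)).le
    calc ∏ i ∈ Finset.range n, ‖F i‖ ≤ _ := h2
      _ ≤ Real.exp (Cb * (Ck + 1) + ε') * (Real.exp (2 * ε') * T) := by
          refine mul_le_mul (Real.exp_le_exp.2 (by linarith)) hGT hG0 (Real.exp_pos _).le
      _ = Real.exp (Cb * (Ck + 1) + ε' + 2 * ε') * T := by
          rw [← mul_assoc, ← Real.exp_add]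
      _ ≤ C * T := by
          refine mul_le_mul_of_nonneg_right (Real.exp_le_exp.2 ?_) hT.le
          linarith
  refine ⟨T₁, T₂, hT10, hT20, ?_, ?_, ?_, ?_, ?_, ?_⟩
  · rw [hE1 0 (tr_pos1 hχ hI hP), hT1]
    push_cast
    exact Finset.prod_congr rfl fun i hi => hg1 i (Finset.mem_range.1 hi)
  · rw [hE2 0 0 0 (tr_pos2 hχ hI hP), hT2]
    push_cast
    exact Finset.prod_congr rfl fun i hi => hg2 i (Finset.mem_range.1 hi)
  · calc T₂ ≤ Real.exp ε' * R₂ := t4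
      _ ≤ Real.exp ε' * (Real.exp (Cr * ε') * (∏ p ∈ PP z₀ A₁ q, ep χ p) * R₁ ^ 2) :=
          mul_le_mul_of_nonneg_left v1 (Real.exp_pos _).le
      _ ≤ Real.exp ε' * (Real.exp (Cr * ε') * (∏ p ∈ PP z₀ A₁ q, ep χ p) *
          (Real.exp (2 * ε') * T₁) ^ 2) := by
          refine mul_le_mul_of_nonneg_left ?_ (Real.exp_pos _).le
          refine mul_le_mul_of_nonneg_left (pow_le_pow_left₀ hR10.le u1 2) ?_
          exact mul_nonneg (Real.exp_pos _).le hEp0.le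
      _ = Real.exp ((5 + Cr) * ε') * (∏ p ∈ PP z₀ A₁ q, ep χ p) * T₁ ^ 2 := by
          have e : Real.exp ((5 + Cr) * ε') =
              Real.exp ε' * (Real.exp (Cr * ε') * (Real.exp (2 * ε') * Real.exp (2 * ε'))) := by
            rw [← Real.exp_add, ← Real.exp_add, ← Real.exp_add]
            congr 1
            ring
          rw [e]
          ring
      _ ≤ (1 + ε) * (∏ p ∈ PP z₀ A₁ q, ep χ p) * T₁ ^ 2 := by
          refine mul_le_mul_of_nonneg_right ?_ (sq_nonneg _)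
          refine mul_le_mul_of_nonneg_right ?_ hEp0.le
          calc Real.exp ((5 + Cr) * ε') ≤ Real.exp (Real.log (1 + ε)) := Real.exp_le_exp.2 hε'2
            _ = 1 + ε := Real.exp_log (by linarith)
  · calc WW χ (PP z₀ A₁ q) ≤ Real.exp (Cr * ε') * R₁ := v2
      _ ≤ Real.exp (Cr * ε') * (Real.exp (2 * ε') * T₁) :=
          mul_le_mul_of_nonneg_left u1 (Real.exp_pos _).le
      _ = Real.exp (Cr * ε' + 2 * ε') * T₁ := by rw [← mul_assoc, ← Real.exp_add]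
      _ ≤ C * T₁ := by
          refine mul_le_mul_of_nonneg_right (Real.exp_le_exp.2 ?_) hT10.le
          nlinarith
  · have hPf : 0 ≤ ∏ p ∈ q.primeFactors, (1 + 1 / (p : ℝ)) :=
      Finset.prod_nonneg fun p _ => by positivity
    calc T₁ ≤ Real.exp ε' * R₁ := t2
      _ ≤ Real.exp ε' * (Real.exp (Cr * ε') * WW χ (PP z₀ A₁ q) *
          ∏ p ∈ q.primeFactors, (1 + 1 / (p : ℝ))) :=
          mul_le_mul_of_nonneg_left v3 (Real.exp_pos _).le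
      _ = Real.exp (ε' + Cr * ε') * WW χ (PP z₀ A₁ q) *
          ∏ p ∈ q.primeFactors, (1 + 1 / (p : ℝ)) := by
          rw [Real.exp_add]
          ring
      _ ≤ _ := by
          refine mul_le_mul_of_nonneg_right ?_ hPf
          refine mul_le_mul_of_nonneg_right (Real.exp_le_exp.2 ?_) hW0.le
          nlinarith
  · intro δ hδ hδ1
    have hδp : ∀ i < n, ∀ p ∈ bl z₀ A₁ q i, δ * Real.log p ≤ 1 := by
      intro i hi p hp
      obtain ⟨h1, h2, -⟩ := tr_PP (hBPP i hi hp)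
      have hp0 : (0 : ℝ) < p := by exact_mod_cast h1.pos
      have h3 : Real.log p ≤ A₁ * Real.log q := by
        rw [← Real.log_pow]
        exact Real.log_le_log hp0 (by exact_mod_cast h2)
      exact (mul_le_mul_of_nonneg_left h3 hδ).trans hδ1
    constructor
    · intro r s z hr' hs' hz'
      by_cases hz : ∀ p ∈ I, ∫ x, w2 χ r s z p (x p) ∂P ≠ 0
      · rw [hE2 r s z hz]
        exact hpert δ _ (fun p => r2 χ P p) T₂ hδ hδ1 hR2p u2 hT20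
          (fun i hi => (hg5 i hi δ hδ (hδp i hi)).1 r s z hr' hs' hz')
      · rw [tr_zero hz, norm_zero]
        exact mul_nonneg (Real.exp_pos _).le hT20.le
    · intro z hz'
      by_cases hz : ∀ p ∈ I, ∫ x, w1 χ z p (x p) ∂P ≠ 0
      · rw [hE1 z hz]
        exact hpert δ _ (fun p => r1 χ P p) T₁ hδ hδ1 hR1p u1 hT10
          (fun i hi => (hg5 i hi δ hδ (hδp i hi)).2 z hz')
      · rw [tr_zero hz, norm_zero]
        exact mul_nonneg (Real.exp_pos _).le hT10.le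

end Pool.Agent.TEM

namespace Pool.Agent.TEM

/-- block TR -/
theorem te_rough : type_of% @te_rough_pr := @te_rough_pr

end Pool.Agent.TEM
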