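import Pool.Agent.Lib_helper15.TEM.Defs
import Pool.Agent.Lib_helper41.LVBF.LEN
import Pool.Agent.Lib_helper41.LVBF.HPM
import Pool.Agent.Lib_helper68.LEV.HPO
import Pool.Agent.Lib_helper53.LMF.ME

set_option autoImplicit false

namespace Pool.Agent.TEM

open Complex MeasureTheory ProbabilityTheory
open Pool.Agent.LSP (tau MX)
open Pool.Agent.LEV (Uu Um HPoly)
open Pool.Agent.LVB (IsST el ex HB PB JJ Bk Kk)
open Pool.Agent.LK (PQ)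
open Pool.Agent.LE
open Pool.Agent.LM (cv pp ep Pz th IsV)

variable {q : ℕ} [NeZero q]

theorem tv_px (χ : DirichletCharacter ℂ q) (B : Finset ℕ) (x : ℕ → ℝ) :
    -PX χ B x = ∑ p ∈ B, (-((1 + cv χ p) / Real.sqrt p)) * x p := by
  unfold PX lx
  rw [← Finset.sum_neg_distrib]
  exact Finset.sum_congr rfl fun p _ => by ring

theorem tv_hpoly (χ : DirichletCharacter ℂ q) {I : Finset ℕ} (hI : ∀ p ∈ I, p.Prime) {Z : ℕ}
    (hZ1 : 1 ≤ Z) (hZ : ∀ p ∈ I, p ≤ Z) (K : ℕ) :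
    HPoly I (Z ^ (2 * K)) (fun x => ex K (-PX χ I x)) := by
  have h1 : HPoly I (Z ^ (2 * K)) (fun x => ∑ k ∈ Finset.range (2 * K + 1),
      (1 / (k.factorial : ℝ)) *
        (∑ p ∈ I, (-((1 + cv χ p) / Real.sqrt p)) * x p) ^ k) := by
    refine LVB.hpoly_sum_pr (G := fun k x => (1 / (k.factorial : ℝ)) *
        (∑ p ∈ I, (-((1 + cv χ p) / Real.sqrt p)) * x p) ^ k) _ fun k hk => ?_
    rw [Finset.mem_range] at hk
    exact LEV.hpoly_smul_pr (LEV.hpoly_mono_pr (Nat.pow_le_pow_right hZ1 (by omega))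
      (LEV.hpoly_pow_pr hI hZ (fun p => -((1 + cv χ p) / Real.sqrt p)) k)) _
  refine LVB.HPM_congr (fun x => ?_) h1
  unfold ex
  refine Finset.sum_congr rfl fun k _ => ?_
  rw [tv_px]
  ring

/-- the upper end of the block `i` -/
noncomputable def tv_z (A₁ q i : ℕ) : ℝ :=
  ((q ^ (2 * A₁) : ℕ) : ℝ) ^ ((1 / 2 : ℝ) * Real.exp (-(i : ℝ)))

theorem tv_one (A₁ i : ℕ) (hq : 1 ≤ q) : 1 ≤ tv_z A₁ q i := by
  unfold tv_z
  have h : (1 : ℝ) ≤ ((q ^ (2 * A₁) : ℕ) : ℝ) := by exact_mod_cast Nat.one_le_pow _ _ hq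
  exact Real.one_le_rpow h (by positivity)

theorem tv_le (A₁ i : ℕ) (hq : 1 ≤ q) : tv_z A₁ q i ≤ (q : ℝ) ^ A₁ := by
  unfold tv_z
  have h : (1 : ℝ) ≤ ((q ^ (2 * A₁) : ℕ) : ℝ) := by exact_mod_cast Nat.one_le_pow _ _ hq
  have h1 : Real.exp (-(i : ℝ)) ≤ 1 := Real.exp_le_one_iff.2 (by simp)
  calc ((q ^ (2 * A₁) : ℕ) : ℝ) ^ ((1 / 2 : ℝ) * Real.exp (-(i : ℝ)))
      ≤ ((q ^ (2 * A₁) : ℕ) : ℝ) ^ (1 / 2 : ℝ) :=
        Real.rpow_le_rpow_of_exponent_le h (by linarith)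
    _ = (q : ℝ) ^ A₁ := by
        rw [← Real.sqrt_eq_rpow]
        push_cast
        rw [mul_comm 2 A₁, pow_mul, Real.sqrt_sq (by positivity)]

theorem tv_mem {z₀ A₁ i p : ℕ} (hq : 1 ≤ q) (hp : p ∈ bl z₀ A₁ q i) :
    p.Prime ∧ (p : ℝ) ≤ tv_z A₁ q i ∧ p ∈ PP z₀ A₁ q := by
  unfold bl Bk at hp
  obtain ⟨h0, h1, h2, -, h3⟩ := Finset.mem_filter.1 hp
  have h4 : (p : ℝ) ≤ tv_z A₁ q i := h3
  refine ⟨h1, h4, ?_⟩
  have h5 : (p : ℝ) ≤ ((q ^ A₁ : ℕ) : ℝ) := by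
    push_cast
    exact h4.trans (tv_le A₁ i hq)
  have h6 : p ≤ q ^ A₁ := by exact_mod_cast h5
  unfold PP Pz
  rw [Finset.mem_sdiff, Finset.mem_filter, Finset.mem_filter, Finset.mem_Icc, Finset.mem_Icc]
  exact ⟨⟨⟨h1.one_le, h6⟩, h1⟩, fun h => by omega⟩

theorem tv_card {z₀ A₁ i : ℕ} (hq : 1 ≤ q) : ((bl z₀ A₁ q i).card : ℝ) ≤ tv_z A₁ q i := by
  have h1 : bl z₀ A₁ q i ⊆ Finset.Icc 1 ⌊tv_z A₁ q i⌋₊ := by
    intro p hp
    obtain ⟨h1, h2, -⟩ := tv_mem hq hp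
    exact Finset.mem_Icc.2 ⟨h1.one_le, Nat.le_floor h2⟩
  have h2 := Finset.card_le_card h1
  rw [Nat.card_Icc, Nat.add_sub_cancel] at h2
  calc ((bl z₀ A₁ q i).card : ℝ) ≤ (⌊tv_z A₁ q i⌋₊ : ℝ) := by exact_mod_cast h2
    _ ≤ tv_z A₁ q i := Nat.floor_le (by linarith [tv_one (q := q) A₁ i hq])

theorem tv_prod (A A₁ k : ℕ) (hA₁ : 1 ≤ A₁) (hq : 1 ≤ q)
    (hL : 2 ≤ Real.log (Real.log ((q ^ (2 * A₁) : ℕ) : ℝ))) :
    ∏ i ∈ Finset.range (nb A₁ q), tv_z A₁ q i ^ (k * dg A A₁ q i) ≤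
      (q : ℝ) ^ (5 * k * A * A₁) := by
  have hZ1 : (1 : ℝ) ≤ ((q ^ (2 * A₁) : ℕ) : ℝ) := by exact_mod_cast Nat.one_le_pow _ _ hq
  have h1 : ∀ i ∈ Finset.range (nb A₁ q), tv_z A₁ q i ^ (k * dg A A₁ q i) =
      ((q ^ (2 * A₁) : ℕ) : ℝ) ^
        ((k / 2 : ℝ) * ((dg A A₁ q i : ℝ) * Real.exp (-(i : ℝ)))) := by
    intro i _
    unfold tv_z
    rw [← Real.rpow_natCast, ← Real.rpow_mul (by positivity)]
    congr 1
    push_cast
    ring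
  rw [Finset.prod_congr rfl h1]
  calc ∏ i ∈ Finset.range (nb A₁ q), ((q ^ (2 * A₁) : ℕ) : ℝ) ^
        ((k / 2 : ℝ) * ((dg A A₁ q i : ℝ) * Real.exp (-(i : ℝ))))
      = ((q ^ (2 * A₁) : ℕ) : ℝ) ^ ((k / 2 : ℝ) *
          ∑ i ∈ Finset.range (nb A₁ q), (dg A A₁ q i : ℝ) * Real.exp (-(i : ℝ))) := by
        rw [Finset.mul_sum, Real.rpow_sum_of_pos (by linarith)]
    _ ≤ ((q ^ (2 * A₁) : ℕ) : ℝ) ^ ((k / 2 : ℝ) * (5 * A)) := by
        refine Real.rpow_le_rpow_of_exponent_le hZ1 ?_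
        exact mul_le_mul_of_nonneg_left (LVB.LEN_sum A (q ^ (2 * A₁)) hL) (by positivity)
    _ = (q : ℝ) ^ (5 * k * A * A₁) := by
        push_cast
        rw [← Real.rpow_natCast, ← Real.rpow_natCast, ← Real.rpow_mul (by positivity)]
        congr 1
        push_cast
        ring

theorem tv_ex (K : ℕ) (t : ℝ) : |ex K t| ≤ (1 + |t|) ^ (2 * K) := by
  unfold ex
  refine (Finset.abs_sum_le_sum_abs _ _).trans ?_
  rw [add_comm (1 : ℝ) |t|, add_pow]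
  refine Finset.sum_le_sum fun k hk => ?_
  rw [Finset.mem_range] at hk
  rw [abs_div, abs_pow, one_pow, mul_one, Nat.abs_cast]
  have h1 : (1 : ℝ) ≤ k.factorial := by exact_mod_cast Nat.factorial_pos k
  have h2 : (1 : ℝ) ≤ ((2 * K).choose k : ℝ) := by
    exact_mod_cast Nat.choose_pos (by omega)
  have h3 : 0 ≤ |t| ^ k := by positivity
  calc |t| ^ k / (k.factorial : ℝ) ≤ |t| ^ k := div_le_self h3 h1
    _ ≤ |t| ^ k * ((2 * K).choose k : ℝ) := le_mul_of_one_le_right h3 h2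

theorem tv_cv {χ : DirichletCharacter ℂ q} (hχ : PQ χ) (p : ℕ) : |1 + cv χ p| ≤ 2 := by
  rcases (LM.cv_cases_pr hχ p).2 with h | h | h <;> rw [h] <;> norm_num

theorem tv_block {χ : DirichletCharacter ℂ q} (hχ : PQ χ) (hq : 1 ≤ q) (z₀ A₁ i K : ℕ)
    (x : ℕ → ℝ) (hx : ∀ p ∈ PP z₀ A₁ q, |x p| ≤ 2) :
    |ex K (-PX χ (bl z₀ A₁ q i) x)| ≤ tv_z A₁ q i ^ (8 * K) := by
  have hz1 := tv_one (q := q) A₁ i hq
  rcases (bl z₀ A₁ q i).eq_empty_or_nonempty with h0 | ⟨p₁, hp₁⟩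
  · rw [h0]
    have h1 : -PX χ ∅ x = 0 := by
      unfold PX
      rw [Finset.sum_empty, neg_zero]
    have h2 := tv_ex K (-PX χ ∅ x)
    rw [h1, abs_zero, add_zero, one_pow] at h2
    rw [h1]
    exact h2.trans (one_le_pow₀ hz1)
  · obtain ⟨h1, h2, -⟩ := tv_mem hq hp₁
    have hz2 : 2 ≤ tv_z A₁ q i := by
      have : (2 : ℝ) ≤ p₁ := by exact_mod_cast h1.two_le
      linarith
    have h3 : |PX χ (bl z₀ A₁ q i) x| ≤ 4 * tv_z A₁ q i := by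
      unfold PX
      refine (Finset.abs_sum_le_sum_abs _ _).trans ?_
      have h4 : ∀ p ∈ bl z₀ A₁ q i, |lx χ p (x p)| ≤ 4 := by
        intro p hp
        obtain ⟨h5, -, h6⟩ := tv_mem hq hp
        unfold lx
        rw [abs_div, abs_mul, abs_of_nonneg (Real.sqrt_nonneg _)]
        have h7 : 1 ≤ Real.sqrt p := by
          rw [Real.one_le_sqrt]
          exact_mod_cast h5.one_le
        have h8 : |1 + cv χ p| * |x p| ≤ 2 * 2 :=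
          mul_le_mul (tv_cv hχ p) (hx p h6) (abs_nonneg _) (by norm_num)
        calc |1 + cv χ p| * |x p| / Real.sqrt p ≤ |1 + cv χ p| * |x p| :=
              div_le_self (by positivity) h7
          _ ≤ 4 := by linarith
      have h5 := Finset.sum_le_sum h4
      rw [Finset.sum_const, nsmul_eq_mul] at h5
      refine h5.trans ?_
      have := tv_card (q := q) (z₀ := z₀) (A₁ := A₁) (i := i) hq
      linarith
    refine (tv_ex K _).trans ?_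
    rw [abs_neg]
    have h6 : 1 + |PX χ (bl z₀ A₁ q i) x| ≤ tv_z A₁ q i ^ 4 := by
      have h7 : 5 * tv_z A₁ q i ≤ tv_z A₁ q i ^ 4 := by
        have h8 : (2 : ℝ) ^ 3 ≤ tv_z A₁ q i ^ 3 := pow_le_pow_left₀ (by norm_num) hz2 3
        calc 5 * tv_z A₁ q i ≤ tv_z A₁ q i ^ 3 * tv_z A₁ q i :=
              mul_le_mul_of_nonneg_right (by linarith) (by linarith)
          _ = tv_z A₁ q i ^ 4 := by ring
      linarith
    calc (1 + |PX χ (bl z₀ A₁ q i) x|) ^ (2 * K) ≤ (tv_z A₁ q i ^ 4) ^ (2 * K) :=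
          pow_le_pow_left₀ (by positivity) h6 _
      _ = tv_z A₁ q i ^ (8 * K) := by
          rw [← pow_mul]
          congr 1
          ring

theorem tv_meas (χ : DirichletCharacter ℂ q) (A z₀ A₁ : ℕ) : Measurable (te χ A z₀ A₁) := by
  unfold te
  refine Finset.measurable_prod _ fun i _ => ?_
  unfold ex
  refine Finset.measurable_sum _ fun k _ => ?_
  refine Measurable.div_const ?_ _
  refine Measurable.pow_const ?_ _
  refine Measurable.neg ?_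
  unfold PX lx
  refine Finset.measurable_sum _ fun p _ => ?_
  exact (Measurable.const_mul (measurable_pi_apply p) _).div_const _

theorem tv_bound {χ : DirichletCharacter ℂ q} (hχ : PQ χ) (hq : 1 ≤ q) (A z₀ A₁ : ℕ)
    (hA₁ : 1 ≤ A₁) (hL : 2 ≤ Real.log (Real.log ((q ^ (2 * A₁) : ℕ) : ℝ)))
    (x : ℕ → ℝ) (hx : ∀ p ∈ PP z₀ A₁ q, |x p| ≤ 2) :
    |te χ A z₀ A₁ x| ≤ (q : ℝ) ^ (40 * A * A₁) := by
  unfold te
  rw [Finset.abs_prod]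
  calc ∏ i ∈ Finset.range (nb A₁ q), |ex (dg A A₁ q i) (-PX χ (bl z₀ A₁ q i) x)|
      ≤ ∏ i ∈ Finset.range (nb A₁ q), tv_z A₁ q i ^ (8 * dg A A₁ q i) :=
        Finset.prod_le_prod (fun i _ => abs_nonneg _) fun i _ => tv_block hχ hq z₀ A₁ i _ x hx
    _ ≤ (q : ℝ) ^ (5 * 8 * A * A₁) := tv_prod A A₁ 8 hA₁ hq hL
    _ = (q : ℝ) ^ (40 * A * A₁) := by norm_num

theorem tv_isv (χ : DirichletCharacter ℂ q) (hq : 1 ≤ q) (A z₀ A₁ : ℕ)
    (hA₁ : 1 ≤ A₁) (hL : 2 ≤ Real.log (Real.log ((q ^ (2 * A₁) : ℕ) : ℝ))) :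
    ∃ x, IsV (q ^ (40 * A * A₁ + 1)) x (te χ A z₀ A₁) := by
  have hPP : ∀ p ∈ PP z₀ A₁ q, p.Prime := by
    intro p hp
    unfold PP Pz at hp
    exact (Finset.mem_filter.1 (Finset.mem_sdiff.1 hp).1).2
  have hblock : ∀ i, HPoly (PP z₀ A₁ q) (⌊tv_z A₁ q i⌋₊ ^ (2 * dg A A₁ q i))
      (fun x => ex (dg A A₁ q i) (-PX χ (bl z₀ A₁ q i) x)) := by
    intro i
    refine LVB.LEN_mono (fun p hp => (tv_mem hq hp).2.2) le_rfl
      (tv_hpoly χ (fun p hp => (tv_mem hq hp).1) ?_ ?_ _)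
    · exact Nat.le_floor (by
        rw [Nat.cast_one]
        exact tv_one A₁ i hq)
    · intro p hp
      exact Nat.le_floor (tv_mem hq hp).2.1
  have hprod := LVB.LEN_prod hPP hblock (nb A₁ q)
  have hle : ∏ i ∈ Finset.range (nb A₁ q), ⌊tv_z A₁ q i⌋₊ ^ (2 * dg A A₁ q i) ≤
      q ^ (40 * A * A₁ + 1) := by
    have h1 : ((∏ i ∈ Finset.range (nb A₁ q), ⌊tv_z A₁ q i⌋₊ ^ (2 * dg A A₁ q i) : ℕ) : ℝ) ≤
        (q : ℝ) ^ (10 * A * A₁) := by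
      push_cast
      calc ∏ i ∈ Finset.range (nb A₁ q), (⌊tv_z A₁ q i⌋₊ : ℝ) ^ (2 * dg A A₁ q i)
          ≤ ∏ i ∈ Finset.range (nb A₁ q), tv_z A₁ q i ^ (2 * dg A A₁ q i) := by
            refine Finset.prod_le_prod (fun i _ => by positivity) fun i _ => ?_
            exact pow_le_pow_left₀ (by positivity)
              (Nat.floor_le (by linarith [tv_one (q := q) A₁ i hq])) _
        _ ≤ (q : ℝ) ^ (5 * 2 * A * A₁) := tv_prod A A₁ 2 hA₁ hq hL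
        _ = (q : ℝ) ^ (10 * A * A₁) := by norm_num
    have h2 : ∏ i ∈ Finset.range (nb A₁ q), ⌊tv_z A₁ q i⌋₊ ^ (2 * dg A A₁ q i) ≤
        q ^ (10 * A * A₁) := by exact_mod_cast h1
    refine h2.trans (Nat.pow_le_pow_right hq ?_)
    have h3 : 10 * A * A₁ ≤ 40 * A * A₁ :=
      Nat.mul_le_mul_right _ (Nat.mul_le_mul_right _ (by norm_num))
    omega
  obtain ⟨c, hc, hG⟩ := LVB.LEN_mono (Finset.Subset.refl _) hle hprod
  refine ⟨fun e => Real.sqrt e * c e, ?_, ?_⟩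
  · intro e he
    obtain ⟨h1, h2, -⟩ := hc e (right_ne_zero_of_mul he)
    exact ⟨h1, h2⟩
  · intro la
    have h1 : te χ A z₀ A₁ la = ∑ m ∈ Finset.Icc 1 (q ^ (40 * A * A₁ + 1)), c m * Um m la :=
      hG la
    rw [h1]
    unfold MX
    refine Finset.sum_congr rfl fun e he => ?_
    have h2 : (0 : ℝ) < Real.sqrt e := by
      rw [Real.sqrt_pos]
      exact_mod_cast (Finset.mem_Icc.1 he).1
    rw [mul_div_assoc, mul_comm (Real.sqrt e), div_mul_cancel₀ _ h2.ne']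

theorem te_isv_pr (A A₁ z₀ : ℕ) (hA₁ : 1 ≤ A₁) : ∃ A' q₀ : ℕ, 1 ≤ A' ∧ ∀ (q : ℕ) [NeZero q]
    (χ : DirichletCharacter ℂ q), PQ χ → q₀ ≤ q →
      (∃ x, IsV (q ^ A') x (te χ A z₀ A₁)) ∧ Measurable (te χ A z₀ A₁) ∧
      (∀ x : ℕ → ℝ, (∀ p, |x p| ≤ 2) → |te χ A z₀ A₁ x| ≤ (q : ℝ) ^ A') ∧
      (∀ x : ℕ → ℝ, (∀ p ∈ PP z₀ A₁ q, |x p| ≤ 2) → |te χ A z₀ A₁ x| ≤ (q : ℝ) ^ A') ∧
      (∀ x y : ℕ → ℝ, (∀ p ∈ PP z₀ A₁ q, x p = y p) → te χ A z₀ A₁ x = te χ A z₀ A₁ y) := by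
  obtain ⟨N₁, hN₁⟩ := (Filter.tendsto_atTop.1 LVB.LEN_logs 2).exists_forall_of_atTop
  refine ⟨40 * A * A₁ + 1, max N₁ 1, by omega, ?_⟩
  intro q _ χ hχ hq
  have hq1 : 1 ≤ q := (le_max_right _ _).trans hq
  have hqN : N₁ ≤ q ^ (2 * A₁) := by
    calc N₁ ≤ q := (le_max_left _ _).trans hq
      _ = q ^ 1 := (pow_one q).symm
      _ ≤ q ^ (2 * A₁) := Nat.pow_le_pow_right hq1 (by omega)
  have hL : 2 ≤ Real.log (Real.log ((q ^ (2 * A₁) : ℕ) : ℝ)) := hN₁ _ hqN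
  have hqr : (1 : ℝ) ≤ q := by exact_mod_cast hq1
  have hb : ∀ x : ℕ → ℝ, (∀ p ∈ PP z₀ A₁ q, |x p| ≤ 2) →
      |te χ A z₀ A₁ x| ≤ (q : ℝ) ^ (40 * A * A₁ + 1) := by
    intro x hx
    refine (tv_bound hχ hq1 A z₀ A₁ hA₁ hL x hx).trans ?_
    exact pow_le_pow_right₀ hqr (by omega)
  refine ⟨tv_isv χ hq1 A z₀ A₁ hA₁ hL, tv_meas χ A z₀ A₁, fun x hx => hb x fun p _ => hx p, hb,
    ?_⟩
  intro x y hxy
  unfold te
  refine Finset.prod_congr rfl fun i _ => ?_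
  have h1 : PX χ (bl z₀ A₁ q i) x = PX χ (bl z₀ A₁ q i) y := by
    unfold PX
    refine Finset.sum_congr rfl fun p hp => ?_
    rw [hxy p (tv_mem hq1 hp).2.2]
  rw [h1]

end Pool.Agent.TEM

namespace Pool.Agent.TEM

/-- block TV -/
theorem te_isv : type_of% @te_isv_pr := @te_isv_pr

end Pool.Agent.TEM
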