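import Pool.Agent.Lib_helper15.TEM.Defs
import Pool.Agent.Lib_helper41.LVBF.EXT
import Pool.Agent.Lib_helper68.LEV.MRT

/-! T12, parts I and IV. Block TX: pointwise bounds; the product over the primes dividing `q`. -/

set_option autoImplicit false

namespace Pool.Agent.TEM

open Complex MeasureTheory ProbabilityTheory
open Pool.Agent.LSP (tau MX)
open Pool.Agent.LEV (Uu Um)
open Pool.Agent.LVB (IsST el ex HB PB JJ Bk Kk)
open Pool.Agent.LK (PQ)
open Pool.Agent.LE
open Pool.Agent.LM (cv pp ep Pz th IsV)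

theorem tx_ex_ge (K : ℕ) (t : ℝ) : Real.exp (-|t|) ≤ ex K t := by
  rcases le_total t 0 with h | h
  · rw [abs_of_nonpos h, neg_neg]
    exact (Pool.Agent.LVB.EXT_alt K).2 t h
  · rw [abs_of_nonneg h]
    have h1 : Real.exp (-t) ≤ 1 := Real.exp_le_one_iff.2 (by linarith)
    refine h1.trans ?_
    unfold ex
    rw [Finset.sum_range_succ']
    have : 0 ≤ ∑ k ∈ Finset.range (2 * K), t ^ (k + 1) / ((k + 1).factorial : ℝ) :=
      Finset.sum_nonneg fun k _ => by positivity
    simp only [pow_zero, Nat.factorial_zero, Nat.cast_one, div_one]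
    linarith

theorem te_two_pr {q : ℕ} [NeZero q] (χ : DirichletCharacter ℂ q) (A z₀ A₁ : ℕ) (x : ℕ → ℝ) :
    Real.exp (-sx χ z₀ A₁ x) ≤ te χ A z₀ A₁ x ∧ te χ A z₀ A₁ x ≤ Real.exp (sx χ z₀ A₁ x) := by
  unfold sx te
  constructor
  · rw [← Finset.sum_neg_distrib, Real.exp_sum]
    refine Finset.prod_le_prod (fun i _ => (Real.exp_pos _).le) fun i _ => ?_
    have := tx_ex_ge (dg A A₁ q i) (-PX χ (bl z₀ A₁ q i) x)
    rwa [abs_neg] at this
  · rw [Real.exp_sum]
    refine Finset.prod_le_prod (fun i _ => ?_) fun i _ => ?_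
    · exact (Real.exp_pos _).le.trans (tx_ex_ge _ _)
    · have := Pool.Agent.LVB.ex_le_pr (dg A A₁ q i) (-PX χ (bl z₀ A₁ q i) x)
      rwa [abs_neg] at this

theorem tx_card {q : ℕ} (hq : 1 ≤ q) : (q.primeFactors.card : ℝ) ≤ 2 * Real.log q := by
  have h1 : 2 ^ q.primeFactors.card ≤ q := by
    calc 2 ^ q.primeFactors.card = ∏ _p ∈ q.primeFactors, 2 := by rw [Finset.prod_const]
      _ ≤ ∏ p ∈ q.primeFactors, p :=
          Finset.prod_le_prod' fun p hp => (Nat.prime_of_mem_primeFactors hp).two_le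
      _ ≤ q := Nat.le_of_dvd (by omega) (Nat.prod_primeFactors_dvd q)
  have h2 : ((2 : ℝ) ^ q.primeFactors.card) ≤ q := by exact_mod_cast h1
  have h3 := Real.log_le_log (by positivity) h2
  rw [Real.log_pow] at h3
  have h4 : (1 / 2 : ℝ) ≤ Real.log 2 := by linarith [Real.log_two_gt_d9]
  have h5 : (0 : ℝ) ≤ q.primeFactors.card := Nat.cast_nonneg _
  nlinarith

theorem pf_prod_pr {δ : ℝ} (hδ : 0 < δ) : ∃ q₀ : ℕ, ∀ q : ℕ, q₀ ≤ q →
    ∏ p ∈ q.primeFactors, (1 + 1 / (p : ℝ)) ≤ Real.log q ^ δ := by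
  obtain ⟨C, hC⟩ := Pool.Agent.LEV.mertens_two
  -- `exp (C + 2) * log y ≤ y ^ δ` eventually
  have hev : ∀ᶠ y : ℝ in Filter.atTop, Real.exp (C + 2) * Real.log y ≤ y ^ δ := by
    have h := isLittleO_log_rpow_atTop hδ
    have h1 := h.def (Real.exp_pos (-(C + 2)))
    filter_upwards [h1, Filter.eventually_ge_atTop (1 : ℝ)] with y hy hy1
    rw [Real.norm_eq_abs, Real.norm_eq_abs, abs_of_nonneg (Real.log_nonneg hy1),
      abs_of_nonneg (by positivity)] at hy
    calc Real.exp (C + 2) * Real.log y ≤ Real.exp (C + 2) * (Real.exp (-(C + 2)) * y ^ δ) :=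
          mul_le_mul_of_nonneg_left hy (Real.exp_pos _).le
      _ = y ^ δ := by
          rw [← mul_assoc, ← Real.exp_add]; simp
  have hlog : Filter.Tendsto (fun n : ℕ => Real.log (n : ℝ)) Filter.atTop Filter.atTop :=
    Real.tendsto_log_atTop.comp tendsto_natCast_atTop_atTop
  have h2 := hlog.eventually (hev.and (Filter.eventually_ge_atTop (3 : ℝ)))
  obtain ⟨q₀, hq₀⟩ := Filter.eventually_atTop.1 h2
  refine ⟨max q₀ 1, fun q hq => ?_⟩
  obtain ⟨h3, h4⟩ := hq₀ q (le_trans (le_max_left _ _) hq)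
  have hq1 : 1 ≤ q := le_trans (le_max_right _ _) hq
  set y := Real.log q with hy
  have hy0 : 0 < y := by linarith
  refine le_trans ?_ h3
  have h5 : ∏ p ∈ q.primeFactors, (1 + 1 / (p : ℝ)) ≤ Real.exp (∑ p ∈ q.primeFactors, 1 / (p : ℝ)) := by
    rw [Real.exp_sum]
    refine Finset.prod_le_prod (fun p _ => by positivity) fun p _ => ?_
    linarith [Real.add_one_le_exp (1 / (p : ℝ))]
  refine h5.trans ?_
  have h6 : ∑ p ∈ q.primeFactors, 1 / (p : ℝ) ≤ (Real.log (Real.log y) + C) + 2 := by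
    have e : ∑ p ∈ q.primeFactors, 1 / (p : ℝ) =
        ∑ p ∈ q.primeFactors.filter (fun p : ℕ => (p : ℝ) ≤ y), 1 / (p : ℝ) +
          ∑ p ∈ q.primeFactors.filter (fun p : ℕ => ¬ (p : ℝ) ≤ y), 1 / (p : ℝ) :=
      (Finset.sum_filter_add_sum_filter_not _ _ _).symm
    rw [e]
    refine add_le_add ?_ ?_
    · have h7 := (abs_le.1 (hC y (by linarith))).2
      refine le_trans ?_ (by linarith : ∑ p ∈ (Finset.Icc 1 ⌊y⌋₊).filter Nat.Prime, 1 / (p : ℝ) ≤
        Real.log (Real.log y) + C)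
      refine Finset.sum_le_sum_of_subset_of_nonneg ?_ fun p _ _ => by positivity
      intro p hp
      rw [Finset.mem_filter] at hp
      have hpp := Nat.prime_of_mem_primeFactors hp.1
      rw [Finset.mem_filter, Finset.mem_Icc]
      exact ⟨⟨hpp.one_lt.le, Nat.le_floor hp.2⟩, hpp⟩
    · calc ∑ p ∈ q.primeFactors.filter (fun p : ℕ => ¬ (p : ℝ) ≤ y), 1 / (p : ℝ)
          ≤ ∑ _p ∈ q.primeFactors.filter (fun p : ℕ => ¬ (p : ℝ) ≤ y), 1 / y := by
            refine Finset.sum_le_sum fun p hp => ?_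
            rw [Finset.mem_filter, not_le] at hp
            exact one_div_le_one_div_of_le hy0 hp.2.le
        _ = ((q.primeFactors.filter (fun p : ℕ => ¬ (p : ℝ) ≤ y)).card : ℝ) * (1 / y) := by
            rw [Finset.sum_const, nsmul_eq_mul]
        _ ≤ (q.primeFactors.card : ℝ) * (1 / y) := by
            refine mul_le_mul_of_nonneg_right ?_ (by positivity)
            exact_mod_cast Finset.card_filter_le _ _
        _ ≤ (2 * y) * (1 / y) := mul_le_mul_of_nonneg_right (tx_card hq1) (by positivity)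
        _ = 2 := by field_simp
  calc Real.exp (∑ p ∈ q.primeFactors, 1 / (p : ℝ))
      ≤ Real.exp ((Real.log (Real.log y) + C) + 2) := Real.exp_le_exp.2 h6
    _ = Real.exp (C + 2) * Real.exp (Real.log (Real.log y)) := by
        rw [← Real.exp_add]; ring_nf
    _ = Real.exp (C + 2) * Real.log y := by
        rw [Real.exp_log]
        exact Real.log_pos (by linarith)

end Pool.Agent.TEM

namespace Pool.Agent.TEM

/-- block TX -/
theorem te_two : type_of% @te_two_pr := @te_two_pr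

/-- block TX -/
theorem pf_prod : type_of% @pf_prod_pr := @pf_prod_pr

end Pool.Agent.TEM
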