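import Pool.Agent.Lib_helper15.TEM.Defs
import Pool.Agent.Lib_helper15.TEM.B.MOa
import Pool.Agent.Lib_helper15.TEM.B.TR
import Pool.Agent.Lib_helper15.TEM.B.TV
import Pool.Agent.Lib_helper15.TEM.B.TX

/-! T12, block MS: the mollifier without the small primes. -/

set_option autoImplicit false

namespace Pool.Agent.TEM

open Complex MeasureTheory ProbabilityTheory
open Pool.Agent.LSP (tau MX sg1 wX)
open Pool.Agent.LEV (Uu Um)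
open Pool.Agent.LVB (IsST el ex HB PB JJ Bk Kk)
open Pool.Agent.LK (PQ)
open Pool.Agent.LE
open Pool.Agent.LM (cv pp ep Pz th IsV mm_prime mm_memPz)

theorem ms_sqrt_le {n : ℕ} (hn : 1 ≤ n) : Real.sqrt n ≤ n := by
  have : (1 : ℝ) ≤ n := by exact_mod_cast hn
  rw [Real.sqrt_le_iff]
  exact ⟨by linarith, by nlinarith⟩

theorem ms_prod16 {S : Finset ℕ} {f : ℕ → ℝ} (hf : ∀ p ∈ S, 1 / 16 ≤ f p) :
    1 ≤ 16 ^ S.card * ∏ p ∈ S, f p := by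
  have h : ∏ p ∈ S, (1 / 16 : ℝ) ≤ ∏ p ∈ S, f p :=
    Finset.prod_le_prod (fun _ _ => by norm_num) hf
  rw [Finset.prod_const] at h
  calc (1 : ℝ) = 16 ^ S.card * (1 / 16) ^ S.card := by rw [← mul_pow]; norm_num
    _ ≤ _ := mul_le_mul_of_nonneg_left h (by positivity)

/-- the numbers of the last inequality -/
theorem ms_num {G T₂ R₁ R₂ E₀ E₁ W W₀ W₁ D C k : ℝ} (hG : 0 ≤ G) (hR₁ : 0 ≤ R₁)
    (hT₂ : T₂ ≤ 2) (hR₂0 : 0 ≤ R₂) (hR₂ : R₂ ≤ 2 * E₁ * R₁ ^ 2) (hE₁ : 0 ≤ E₁)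
    (hk : 0 < k) (hE₀ : 1 ≤ k * E₀) (hW₀ : 1 ≤ k * W₀) (hW₁ : 0 ≤ W₁) (hWW : W = W₁ * W₀)
    (hGE : G * (E₁ * E₀) ≤ W ^ 2) (hC : 0 ≤ C) (hD : 0 ≤ D) (hR : R₁ ≤ C * W₁ * D) :
    G * (T₂ * R₂) ≤ (4 * k ^ 3 * C ^ 2) * W ^ 4 * D ^ 2 := by
  have h1 : W₁ ≤ k * W := by
    calc W₁ = W₁ * 1 := by ring
      _ ≤ W₁ * (k * W₀) := mul_le_mul_of_nonneg_left hW₀ hW₁
      _ = k * W := by rw [hWW]; ring
  have h2 : R₁ ≤ C * (k * W) * D :=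
    hR.trans (mul_le_mul_of_nonneg_right (mul_le_mul_of_nonneg_left h1 hC) hD)
  have h3 : R₁ ^ 2 ≤ (C * (k * W) * D) ^ 2 := pow_le_pow_left₀ hR₁ h2 2
  have h4 : G * E₁ ≤ k * W ^ 2 := by
    calc G * E₁ = G * E₁ * 1 := by ring
      _ ≤ G * E₁ * (k * E₀) := mul_le_mul_of_nonneg_left hE₀ (by positivity)
      _ = k * (G * (E₁ * E₀)) := by ring
      _ ≤ k * W ^ 2 := mul_le_mul_of_nonneg_left hGE hk.le
  calc G * (T₂ * R₂) ≤ G * (2 * (2 * E₁ * R₁ ^ 2)) := by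
        refine mul_le_mul_of_nonneg_left ?_ hG
        exact (mul_le_mul_of_nonneg_right hT₂ hR₂0).trans
          (mul_le_mul_of_nonneg_left hR₂ (by norm_num))
    _ = 4 * (G * E₁) * R₁ ^ 2 := by ring
    _ ≤ 4 * (k * W ^ 2) * (C * (k * W) * D) ^ 2 := by
        refine mul_le_mul (mul_le_mul_of_nonneg_left h4 (by norm_num)) h3 (by positivity)
          (by positivity)
    _ = _ := by ring

/-- block MS -/
theorem mollS_pr (A₁ : ℕ) (hA₁ : 1 ≤ A₁) :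
    ∃ (A AA z₀ : ℕ) (C c : ℝ) (q₀ : ℕ), 1 ≤ C ∧ 0 < c ∧ 1 ≤ A ∧ ∀ (q : ℕ) [NeZero q]
    (χ : DirichletCharacter ℂ q), PQ χ → q₀ ≤ q →
    ∀ (I : Finset ℕ) (P : Measure (ℕ → ℝ)), (∀ p ∈ I, p.Prime) → IsST I P → Pz (q ^ A) ⊆ I →
    ∃ (b : ℕ → ℝ) (p₀ : ℕ) (F₂ : ℝ), SuppIn (q ^ A) b ∧ (∀ e, |b e| ≤ (q : ℝ) ^ A) ∧
      ∑ e ∈ Finset.Icc 1 (q ^ A), b e * sg1 e / e = 0 ∧ 0 < F₂ ∧
      p₀.Prime ∧ q ≤ p₀ ∧ p₀ ≤ q ^ A ∧
      (∀ x : ℕ → ℝ, MX (q ^ A) b x = te χ AA z₀ A₁ x * th p₀ x) ∧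
      EW P I (w2 χ 0 0 0) (fun x => MX (q ^ A) b x ^ 2) = (F₂ : ℂ) ∧
      (∀ r s' z : ℂ, ‖r‖ ≤ c / Real.log q → ‖s'‖ ≤ c / Real.log q → ‖z‖ ≤ c / Real.log q →
        ‖EW P I (w2 χ r s' z) (fun x => MX (q ^ A) b x ^ 2)‖ ≤ C * F₂) ∧
      ((q.totient : ℝ) / q / ‖zq q 2‖) * F₂ ≤
        C * WW χ (Pz (q ^ A₁)) ^ 4 * (∏ p ∈ q.primeFactors, (1 + 1 / (p : ℝ))) ^ 2 := by
  obtain ⟨AA, Cr, z₂, -, hCr, hr⟩ := te_rough one_pos A₁ hA₁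
  obtain ⟨Cp, p₁, hCp, hp⟩ := LM.pert_pr
  obtain ⟨qr, hqr⟩ := hr z₂ le_rfl
  obtain ⟨A', qv, hA', hv⟩ := te_isv AA A₁ z₂ hA₁
  obtain ⟨c, hc0, hc1⟩ : ∃ c : ℝ, 0 < c ∧ c * (A₁ + 2) ≤ 1 := by
    refine ⟨1 / (A₁ + 2), by positivity, ?_⟩
    have h2 : (0 : ℝ) < A₁ + 2 := by positivity
    exact le_of_eq (by field_simp)
  set k : ℝ := 16 ^ (Pz z₂).card with hk
  have hk0 : 0 < k := by positivity
  obtain ⟨C, hC1, hC2, hC3⟩ : ∃ C : ℝ, 1 ≤ C ∧ 2 * Cr ≤ C ∧ 4 * k ^ 3 * Cr ^ 2 ≤ C :=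
    ⟨max 1 (max _ _), le_max_left _ _, (le_max_left _ _).trans (le_max_right _ _),
      (le_max_right _ _).trans (le_max_right _ _)⟩
  set κ : ℝ := (1 + 2 ^ (0 + 1)) * (1 * ∑ t ∈ Finset.Icc 1 1, tau t ^ (0 + 1)) with hκ
  obtain ⟨q₀, hq₀⟩ := LM.mm_large z₂ 1 p₁ 0 (Cp / (1 / 8))
  refine ⟨A₁ + 2 * A' + 2, AA, z₂, C, c, q₀ + qr + qv + ⌈κ⌉₊, hC1, hc0, by omega, ?_⟩
  intro q _ χ h hq I P hI hP hAI
  obtain ⟨q1, q2, q3, q4, q5, -, q7⟩ := hq₀ q (by omega)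
  have hq0 : 0 < q := by omega
  have hqR : (1 : ℝ) ≤ q := by exact_mod_cast hq0
  have hκq : κ ≤ q := (Nat.le_ceil κ).trans (by exact_mod_cast (by omega : ⌈κ⌉₊ ≤ q))
  have hqz : q ≤ q ^ A₁ := Nat.le_self_pow (by omega) q
  have hz01 : z₂ < q ^ A₁ := by omega
  obtain ⟨p₀, hp₀, hp₀1, hp₀2⟩ := Nat.exists_prime_lt_and_le_two_mul (q ^ A₁) (by omega)
  have hp₀q : p₀ ≤ q ^ (A₁ + 1) := by
    rw [pow_succ, mul_comm (q ^ A₁) q]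
    exact hp₀2.trans (Nat.mul_le_mul_right _ (by omega))
  have hp₀A : p₀ ≤ q ^ (A₁ + 2 * A' + 2) := hp₀q.trans (Nat.pow_le_pow_right hq0 (by omega))
  have hp₀I : p₀ ∈ I := hAI (mm_memPz hp₀ hp₀A)
  have hN : p₀ * (1 * q ^ A') ≤ q ^ (A₁ + 2 * A' + 2) := by
    calc p₀ * (1 * q ^ A') ≤ q ^ (A₁ + 1) * (1 * q ^ A') :=
          Nat.mul_le_mul_right _ hp₀q
      _ = q ^ (A₁ + A' + 1) := by ring
      _ ≤ _ := Nat.pow_le_pow_right hq0 (by omega)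
  have hzI : Pz (q ^ A₁) ⊆ I := fun p hp => hAI (mm_memPz (mm_prime hp).1
    ((mm_prime hp).2.trans (Nat.pow_le_pow_right hq0 (by omega))))
  set L : ℝ := Real.log q with hL
  have hL0 : 0 < L := by linarith
  have hA1R : (1 : ℝ) ≤ A₁ := by exact_mod_cast hA₁
  have hcle : c ≤ 1 := (le_mul_of_one_le_right hc0.le (by linarith)).trans hc1
  set δ : ℝ := c / L with hδ
  have hδ0 : 0 ≤ δ := by positivity
  have hδL : δ * L = c := by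
    rw [hδ]
    field_simp
  have hδ8 : δ ≤ 1 / 8 := by
    rw [hδ, div_le_iff₀ hL0]
    linarith
  have hδz : δ * (A₁ * L) ≤ 1 := by
    calc _ = (δ * L) * A₁ := by ring
      _ ≤ 1 := by
        rw [hδL]
        exact (mul_le_mul_of_nonneg_left (by linarith) hc0.le).trans hc1
  have hδp : δ * Real.log p₀ ≤ 1 := by
    have h1 : Real.log p₀ ≤ (A₁ + 1) * L := by
      calc Real.log p₀ ≤ Real.log ((q ^ (A₁ + 1) : ℕ) : ℝ) :=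
            Real.log_le_log (by exact_mod_cast hp₀.pos) (by exact_mod_cast hp₀q)
        _ = _ := by rw [Nat.cast_pow, Real.log_pow]; push_cast; ring
    calc δ * Real.log p₀ ≤ δ * ((A₁ + 1) * L) := mul_le_mul_of_nonneg_left h1 hδ0
      _ = (δ * L) * (A₁ + 1) := by ring
      _ ≤ 1 := by
        rw [hδL]
        exact (mul_le_mul_of_nonneg_left (by linarith) hc0.le).trans hc1
  have hCpp : Cp / Real.sqrt p₀ ≤ 1 / 8 := by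
    have h1 : Real.sqrt q ≤ Real.sqrt p₀ := Real.sqrt_le_sqrt (by exact_mod_cast (by omega : q ≤ p₀))
    have h2 : Cp / (1 / 8) ≤ Real.sqrt p₀ := q7.trans h1
    have h3 : 0 < Real.sqrt p₀ := Real.sqrt_pos.mpr (by exact_mod_cast hp₀.pos)
    rw [div_le_iff₀ h3]
    have := (div_le_iff₀ (by norm_num : (0 : ℝ) < 1 / 8)).mp h2
    linarith
  obtain ⟨R₁, R₂, hR₁, hR₂, r1, r2, r3, r4, r5, r6⟩ := hqr q χ h (by omega) I P hI hP hzI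
  obtain ⟨r7, r8⟩ := r6 δ hδ0 hδz
  obtain ⟨⟨v, hvv⟩, hvm, hvb, -, hvd⟩ := hv q χ h (by omega)
  -- the vector
  have hvRb : ∀ e, |v e| ≤ (q : ℝ) ^ A' * (q : ℝ) ^ A' * tau e ^ 0 := by
    intro e
    rw [pow_zero, mul_one]
    have h1 : |v e| ≤ ((q ^ A' : ℕ) : ℝ) * (q : ℝ) ^ A' :=
      mo_bound hvv hvb (ms_sqrt_le (Nat.one_le_pow _ _ hq0)) e
    rwa [Nat.cast_pow] at h1
  obtain ⟨b, b1, b2, b3, b4⟩ := LM.mm_vec (N := q ^ (A₁ + 2 * A' + 2)) LM.mm_isv_one hvv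
    (M := 1) (fun e => by
      split_ifs
      · simp
      · simp) (L := (q : ℝ) ^ A' * (q : ℝ) ^ A') (by positivity) hvRb hp₀ hN le_rfl
    (Nat.one_le_pow _ _ hq0)
  have b2' : ∀ x : ℕ → ℝ, MX (q ^ (A₁ + 2 * A' + 2)) b x = th p₀ x * te χ AA z₂ A₁ x := by
    intro x
    rw [b2, one_mul]
  -- independence
  obtain ⟨t1, T₁, T₂, t2, t3⟩ := LM.mm_th h hI hP hp₀I hδ8
    (fun r s' z hr' hs' hz' => (hp q χ h p₀ hp₀ (by omega) I P hP hp₀I δ hδ0 hδ8 hδp r s' z hr'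
      hs' hz').2)
  have d0 : ‖(0 : ℂ)‖ ≤ δ := by rw [norm_zero]; exact hδ0
  have hJ2 : PP z₂ A₁ q ⊆ I := fun p hp' =>
    hzI (mm_memPz (mo_PP_prime hp').1 (mo_PP_prime hp').2.2)
  have hJ3 : ({p₀} : Finset ℕ) ⊆ I := by
    intro p hp'
    rw [Finset.mem_singleton] at hp'
    rw [hp']
    exact hp₀I
  have h32 : Disjoint ({p₀} : Finset ℕ) (PP z₂ A₁ q) := by
    rw [Finset.disjoint_singleton_left]
    intro hp'
    have := (mo_PP_prime hp').2.2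
    omega
  have e2 : (fun x : ℕ → ℝ => MX (q ^ (A₁ + 2 * A' + 2)) b x ^ 2) =
      fun x => th p₀ x ^ 2 * te χ AA z₂ A₁ x ^ 2 := by
    funext x
    rw [b2', mul_pow]
  have k2 : ∀ r s' z : ℂ, ‖r‖ ≤ δ → ‖s'‖ ≤ δ → ‖z‖ ≤ δ → EW P I (w2 χ r s' z)
      (fun x => th p₀ x ^ 2 * te χ AA z₂ A₁ x ^ 2) =
      EW P I (w2 χ r s' z) (fun x => th p₀ x ^ 2) *
        EW P I (w2 χ r s' z) (fun x => te χ AA z₂ A₁ x ^ 2) := by
    intro r s' z hr' hs' hz'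
    obtain ⟨a1, a2⟩ := LM.mm_w2_ok χ hI hP (hr'.trans hδ8) (hs'.trans hδ8) (hz'.trans hδ8)
    refine LM.ew_indep_pr hP a1 a2 hJ3 hJ2 h32 (F₁ := fun x => th p₀ x ^ 2)
      (F₂ := fun x => te χ AA z₂ A₁ x ^ 2)
      ((LM.th_meas p₀).pow_const 2) (hvm.pow_const 2) ?_ ?_
    · intro x y hxy
      simp only [LM.th_dep p₀ x y hxy]
    · intro x y hxy
      simp only [hvd x y hxy]
  have hT2 : |T₂ - 1| ≤ 1 / 8 := by
    have e1 := (t1 0 0 0 d0 d0 d0).1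
    rw [t2, ← Complex.ofReal_one, ← Complex.ofReal_sub, Complex.norm_real] at e1
    exact e1.trans hCpp
  have hT2a : 7 / 8 ≤ T₂ := by
    have := (abs_le.mp hT2).1
    linarith
  have hT2b : T₂ ≤ 2 := by
    have := (abs_le.mp hT2).2
    linarith
  -- the Euler products
  have hPPp : ∀ p ∈ PP z₂ A₁ q, p.Prime := fun p hp => (mo_PP_prime hp).1
  have hWPP := mo_WW_pos h hPPp
  have hWsp := mo_WW_split χ (q := q) (z₀ := z₂) (A₁ := A₁) hz01.le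
  have hW0 : 1 ≤ k * WW χ (Pz z₂) := ms_prod16 fun p hp => by
    have := (mo_fac h (mm_prime hp).1).1
    linarith
  have hE0 : 1 ≤ k * ∏ p ∈ Pz z₂, ep χ p := ms_prod16 fun p hp => mo_ep h (mm_prime hp).1
  refine ⟨b, p₀, T₂ * R₂, b1, ?_, b3, by positivity, hp₀, by omega, hp₀A, ?_, ?_, ?_, ?_⟩
  · intro e
    refine (b4 e).trans ?_
    rw [pow_zero, mul_one]
    calc κ * ((q : ℝ) ^ A' * (q : ℝ) ^ A') ≤ q * ((q : ℝ) ^ A' * (q : ℝ) ^ A') :=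
          mul_le_mul_of_nonneg_right hκq (by positivity)
      _ = (q : ℝ) ^ (2 * A' + 1) := by ring
      _ ≤ (q : ℝ) ^ (A₁ + 2 * A' + 2) := pow_le_pow_right₀ hqR (by omega)
  · intro x
    rw [b2', mul_comm]
  · rw [e2, k2 0 0 0 d0 d0 d0, t2, r2, Complex.ofReal_mul]
  · intro r s' z hr' hs' hz'
    rw [e2, k2 r s' z hr' hs' hz', norm_mul]
    have g1 : ‖EW P I (w2 χ r s' z) (fun x => th p₀ x ^ 2)‖ ≤ 1 + 1 / 8 := by
      have := ((t1 r s' z hr' hs' hz').1).trans hCpp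
      calc _ = ‖1 + (EW P I (w2 χ r s' z) (fun x => th p₀ x ^ 2) - 1)‖ := by
            rw [add_sub_cancel]
        _ ≤ ‖(1 : ℂ)‖ + _ := norm_add_le _ _
        _ ≤ 1 + 1 / 8 := by
            rw [norm_one]
            linarith
    have g2 := r7 r s' z hr' hs' hz'
    calc _ ≤ (1 + 1 / 8) * (Cr * R₂) := mul_le_mul g1 g2 (norm_nonneg _) (by norm_num)
      _ = ((1 + 1 / 8) * Cr) * R₂ := by ring
      _ ≤ (C * T₂) * R₂ := by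
        refine mul_le_mul_of_nonneg_right ?_ hR₂.le
        have h2 : 2 * Cr * (7 / 8) ≤ C * T₂ := mul_le_mul hC2 hT2a (by norm_num) (by linarith)
        linarith
      _ = _ := by ring
  · have hE1 : 0 ≤ ∏ p ∈ PP z₂ A₁ q, ep χ p := Finset.prod_nonneg fun p hp => by
      have := mo_ep h (hPPp p hp)
      linarith
    have hD0 : 0 ≤ ∏ p ∈ q.primeFactors, (1 + 1 / (p : ℝ)) :=
      Finset.prod_nonneg fun p _ => by positivity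
    have hGE : ((q.totient : ℝ) / q / ‖zq q 2‖) * ((∏ p ∈ PP z₂ A₁ q, ep χ p) *
        ∏ p ∈ Pz z₂, ep χ p) ≤ WW χ (Pz (q ^ A₁)) ^ 2 := by
      rw [← mo_ep_split χ hz01.le]
      exact LM.euler_le_pr h hqz
    have h1 := ms_num (G := (q.totient : ℝ) / q / ‖zq q 2‖) (T₂ := T₂) (R₁ := R₁) (R₂ := R₂)
      (E₀ := ∏ p ∈ Pz z₂, ep χ p) (E₁ := ∏ p ∈ PP z₂ A₁ q, ep χ p) (W := WW χ (Pz (q ^ A₁)))
      (W₀ := WW χ (Pz z₂)) (W₁ := WW χ (PP z₂ A₁ q))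
      (D := ∏ p ∈ q.primeFactors, (1 + 1 / (p : ℝ))) (C := Cr) (k := k) (by positivity) hR₁.le
      hT2b hR₂.le (by linarith) hE1 hk0 hE0 hW0 hWPP.le hWsp hGE (by linarith) hD0 r5
    refine h1.trans ?_
    have hW4 : 0 ≤ WW χ (Pz (q ^ A₁)) ^ 4 := by positivity
    exact mul_le_mul_of_nonneg_right (mul_le_mul_of_nonneg_right hC3 hW4) (by positivity)

end Pool.Agent.TEM

namespace Pool.Agent.TEM

/-- block MS -/
theorem mollS : type_of% @mollS_pr := @mollS_pr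

end Pool.Agent.TEM
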