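import Pool.Agent.Lib_helper15.TEM.Defs
import Pool.Agent.Lib_helper71.LSP3.ExF
import Pool.Agent.Lib_helper41.LVBF.MUP
import Pool.Agent.Lib_helper53.LMF.ME

/-! T12, block TY: typical sizes. -/

set_option autoImplicit false

namespace Pool.Agent.TEM

open Complex MeasureTheory ProbabilityTheory Filter
open Pool.Agent.LSP (tau MX)
open Pool.Agent.LEV (Uu Um S2 IsNew co la Lh)
open Pool.Agent.LVB (IsST el ex HB PB JJ Bk Kk AllNew om)
open Pool.Agent.LK (PQ)
open Pool.Agent.LE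
open Pool.Agent.LM (cv pp ep Pz th IsV)

theorem ty_om {N : ℕ} [Fact N.Prime] {ι : Type} (f : ι → S2 N) (hf : AllNew f) (i : ι) :
    0 ≤ om (f i) := Pool.Agent.LVB.MUP_om ((hf.2 (f i)).2 ⟨i, rfl⟩)

/-- Chebyshev for squares -/
theorem ty_cheb {ι : Type} [Fintype ι] (w g : ι → ℝ) (hw : ∀ i, 0 ≤ w i) {t M : ℝ} (ht : 0 < t)
    (h : ∑ i, w i * g i ^ 2 ≤ M) (u : Finset ι) (hu : ∀ i ∈ u, t ≤ |g i|) :
    (∑ i ∈ u, w i) * t ^ 2 ≤ M := by
  refine le_trans ?_ h
  rw [Finset.sum_mul]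
  refine le_trans (Finset.sum_le_sum fun i hi => ?_)
    (Finset.sum_le_sum_of_subset_of_nonneg (Finset.subset_univ u)
      (fun i _ _ => mul_nonneg (hw i) (sq_nonneg _)))
  refine mul_le_mul_of_nonneg_left ?_ (hw i)
  rw [← sq_abs (g i)]
  exact pow_le_pow_left₀ ht.le (hu i hi) 2

/-- the blocks are disjoint -/
theorem ty_disj (z₀ M : ℕ) (hM : 1 ≤ M) (i j : ℕ) (hi : i < JJ M) (hj : j < JJ M) (hij : i ≠ j) :
    Disjoint (Bk (1 / 2) z₀ M i) (Bk (1 / 2) z₀ M j) := by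
  have hM1 : (1 : ℝ) ≤ M := by exact_mod_cast hM
  have hlt : ∀ i j, i < j → j < JJ M → Disjoint (Bk (1 / 2) z₀ M i) (Bk (1 / 2) z₀ M j) := by
    intro i j hij hj
    rw [Finset.disjoint_left]
    intro p hp hp'
    simp only [Bk, Finset.mem_filter] at hp hp'
    have h2 := hp.2.2.2.1 (by omega)
    have h3 := hp'.2.2.2.2
    have h4 : (i : ℝ) + 1 ≤ j := by exact_mod_cast hij
    have h5 : (M : ℝ) ^ ((1 / 2 : ℝ) * Real.exp (-(j : ℝ))) ≤
        (M : ℝ) ^ ((1 / 2 : ℝ) * Real.exp (-(i + 1 : ℝ))) := by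
      apply Real.rpow_le_rpow_of_exponent_le hM1
      apply mul_le_mul_of_nonneg_left _ (by norm_num)
      exact Real.exp_le_exp.2 (by linarith)
    linarith
  rcases lt_or_gt_of_ne hij with h | h
  · exact hlt i j h hj
  · exact (hlt j i h hi).symm

theorem ty_HB (z₀ M N : ℕ) (hM : 1 ≤ M) (hMN : M ≤ N) :
    ∑ i ∈ Finset.range (JJ M), HB (Bk (1 / 2) z₀ M i) ≤
      ∑ p ∈ (Finset.Icc 1 N).filter Nat.Prime, 1 / (p : ℝ) := by
  classical
  unfold HB
  rw [← Finset.sum_biUnion]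
  · refine Finset.sum_le_sum_of_subset_of_nonneg ?_ (fun p _ _ => by positivity)
    intro p hp
    rw [Finset.mem_biUnion] at hp
    obtain ⟨i, -, hp⟩ := hp
    simp only [Bk, Finset.mem_filter, Finset.mem_Icc] at hp
    rw [Finset.mem_filter, Finset.mem_Icc]
    exact ⟨⟨hp.1.1, hp.1.2.trans hMN⟩, hp.2.1⟩
  · intro i hi j hj hij
    rw [Finset.mem_coe, Finset.mem_range] at hi hj
    exact ty_disj z₀ M hM i j hi hj hij

theorem ty_JJ (M N : ℕ) (hM : 1 ≤ M) (hMN : M ≤ N) (hN : 1 ≤ Real.log (Real.log N)) :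
    JJ M ≤ JJ N := by
  unfold JJ
  refine Nat.add_le_add_right (Nat.ceil_mono ?_) 1
  refine mul_le_mul_of_nonneg_left ?_ (by norm_num)
  have hb : 0 ≤ Real.log (Real.log (Real.log N)) := Real.log_nonneg hN
  have hM0 : (0 : ℝ) < M := by exact_mod_cast hM
  rcases Nat.lt_or_ge 1 M with h1 | h1
  · have hM2 : (2 : ℝ) ≤ M := by exact_mod_cast h1
    have hl2 : (1 / 2 : ℝ) ≤ Real.log 2 := by
      have := Real.log_two_gt_d9
      linarith
    have hlM : (1 / 2 : ℝ) ≤ Real.log M := hl2.trans (Real.log_le_log (by norm_num) hM2)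
    have hlMN : Real.log M ≤ Real.log N := Real.log_le_log hM0 (by exact_mod_cast hMN)
    set a := Real.log (Real.log M) with ha
    have ha1 : a ≤ Real.log (Real.log N) := Real.log_le_log (by linarith) hlMN
    have ha2 : -1 ≤ a := by
      have h3 : Real.log (1 / 2) ≤ a := Real.log_le_log (by norm_num) hlM
      have h4 : Real.log (1 / 2) = -Real.log 2 := by
        rw [one_div, Real.log_inv]
      have h5 := Real.log_two_lt_d9
      linarith
    have habs : |a| ≤ Real.log (Real.log N) := by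
      rw [abs_le]
      constructor <;> linarith
    rcases eq_or_ne a 0 with h0 | h0
    · rw [h0, Real.log_zero]
      exact hb
    · rw [← Real.log_abs a]
      exact Real.log_le_log (abs_pos.2 h0) habs
  · have h2 : M = 1 := by omega
    rw [h2]
    simp only [Nat.cast_one, Real.log_one, Real.log_zero]
    exact hb

/-- the second moment of one block -/
theorem ty_block {N : ℕ} [Fact N.Prime] (hN : 16 ≤ N) {q : ℕ} [NeZero q] (χ : DirichletCharacter ℂ q)
    (hχ : PQ χ) {ι : Type} [Fintype ι] (f : ι → S2 N) (hf : AllNew f) (B : Finset ℕ)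
    (hB : ∀ p ∈ B, 1 ≤ p ∧ (p : ℝ) ≤ (N : ℝ) ^ (1 / 2 : ℝ)) :
    ∑ i, om (f i) * PX χ B (la (f i)) ^ 2 ≤ 8 * (Real.exp (8 * Real.pi * (1 / 2)) * HB B) := by
  classical
  set B1 := B.filter (fun p => cv χ p = 0) with hB1
  set B2 := B.filter (fun p => cv χ p = 1) with hB2
  have hPX : ∀ x : ℕ → ℝ, PX χ B x = PB B1 x + 2 * PB B2 x := by
    intro x
    unfold PX PB
    rw [hB1, hB2, Finset.sum_filter, Finset.sum_filter, Finset.mul_sum, ← Finset.sum_add_distrib]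
    refine Finset.sum_congr rfl fun p _ => ?_
    unfold lx
    rcases (Pool.Agent.LM.cv_cases_pr hχ p).2 with h | h | h
    · rw [if_neg (by rw [h]; norm_num), if_pos h, h]
      ring
    · rw [if_pos h, if_neg (by rw [h]; norm_num), h]
      ring
    · rw [if_neg (by rw [h]; norm_num), if_neg (by rw [h]; norm_num), h]
      ring
  have hi := hf.1
  have hn : ∀ i, IsNew (f i) := fun i => (hf.2 (f i)).2 ⟨i, rfl⟩
  have m1 := Pool.Agent.LVB.MUP_block hN f hi hn (I := B1)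
    (fun p hp => hB p (Finset.mem_of_mem_filter p hp))
  have m2 := Pool.Agent.LVB.MUP_block hN f hi hn (I := B2)
    (fun p hp => hB p (Finset.mem_of_mem_filter p hp))
  have hH : HB B1 + HB B2 ≤ HB B := by
    unfold HB
    rw [← Finset.sum_union]
    · refine Finset.sum_le_sum_of_subset_of_nonneg ?_ (fun p _ _ => by positivity)
      exact Finset.union_subset (Finset.filter_subset _ _) (Finset.filter_subset _ _)
    · rw [Finset.disjoint_left]
      intro p hp hp'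
      have h1 := (Finset.mem_filter.1 hp).2
      have h2 := (Finset.mem_filter.1 hp').2
      rw [h1] at h2
      norm_num at h2
  have hH1 : 0 ≤ HB B1 := Finset.sum_nonneg fun p _ => by positivity
  set K := Real.exp (8 * Real.pi * (1 / 2)) with hK
  have hK0 : 0 < K := Real.exp_pos _
  calc ∑ i, om (f i) * PX χ B (la (f i)) ^ 2
      ≤ ∑ i, (2 * (om (f i) * PB B1 (la (f i)) ^ 2) + 8 * (om (f i) * PB B2 (la (f i)) ^ 2)) := by
        refine Finset.sum_le_sum fun i _ => ?_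
        rw [hPX]
        have h1 : (PB B1 (la (f i)) + 2 * PB B2 (la (f i))) ^ 2 ≤
            2 * PB B1 (la (f i)) ^ 2 + 8 * PB B2 (la (f i)) ^ 2 := by
          nlinarith [sq_nonneg (PB B1 (la (f i)) - 2 * PB B2 (la (f i)))]
        have h2 := mul_le_mul_of_nonneg_left h1 (ty_om f hf i)
        linarith
    _ = 2 * ∑ i, om (f i) * PB B1 (la (f i)) ^ 2 + 8 * ∑ i, om (f i) * PB B2 (la (f i)) ^ 2 := by
        rw [Finset.sum_add_distrib, Finset.mul_sum, Finset.mul_sum]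
    _ ≤ 2 * (K * HB B1) + 8 * (K * HB B2) := by linarith
    _ ≤ 8 * (K * (HB B1 + HB B2)) := by
        have : 0 ≤ K * HB B1 := mul_nonneg hK0.le hH1
        nlinarith
    _ ≤ 8 * (K * HB B) := by
        have := mul_le_mul_of_nonneg_left hH hK0.le
        linarith

theorem typ_te_pr {ε δ : ℝ} (hε : 0 < ε) (hδ : 0 < δ) (z₀ A₁ : ℕ) : ∃ N₀ : ℕ, ∀ (N : ℕ)
    [Fact N.Prime], N₀ ≤ N → ∀ (q : ℕ) [NeZero q] (χ : DirichletCharacter ℂ q), PQ χ →
    (q : ℝ) ^ (2 * A₁) ≤ N → ∀ {ι : Type} [Fintype ι] (f : ι → S2 N), AllNew f →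
    ∀ u : Finset ι, (∀ i ∈ u, δ * Real.log (Real.log N) < sx χ z₀ A₁ (la (f i))) →
      ∑ i ∈ u, om (f i) ≤ ε := by
  classical
  obtain ⟨C, hC⟩ := Pool.Agent.LEV.mertens_two
  set K : ℝ := Real.exp (8 * Real.pi * (1 / 2)) with hK
  have hKp : 0 < K := Real.exp_pos _
  set κ : ℝ := ε * δ ^ 2 / (16 * K) with hκ
  have hκp : 0 < κ := by positivity
  obtain ⟨N₂, hN₂⟩ := eventually_atTop.1
    (Pool.Agent.LVB.MUP_lim (ε := 1) (δ := κ) one_pos hκp C)
  refine ⟨max N₂ 16, ?_⟩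
  intro N _ hN q _ χ hχ hqN ι _ f hf u hu
  have hNb : N₂ ≤ N := le_trans (le_max_left _ _) hN
  have hNc : 16 ≤ N := le_trans (le_max_right _ _) hN
  have hNr : (16 : ℝ) ≤ N := by exact_mod_cast hNc
  obtain ⟨l1, -, l3, -, l5⟩ := hN₂ N hNb
  set L : ℝ := Real.log (Real.log N) with hL
  set M : ℕ := q ^ (2 * A₁) with hM
  have hM1 : 1 ≤ M := Nat.one_le_pow _ _ (Nat.pos_of_ne_zero (NeZero.ne q))
  have hMN : M ≤ N := by
    rw [hM]
    exact_mod_cast hqN
  have hMR1 : (1 : ℝ) ≤ M := by exact_mod_cast hM1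
  have hMRN : (M : ℝ) ≤ N := by exact_mod_cast hMN
  set B : ℕ → Finset ℕ := fun j => bl z₀ A₁ q j with hB
  have hBk : ∀ j, ∀ p ∈ B j, 1 ≤ p ∧ (p : ℝ) ≤ (N : ℝ) ^ (1 / 2 : ℝ) := by
    intro j p hp
    rw [hB] at hp
    simp only [bl, Bk, Finset.mem_filter, Finset.mem_Icc] at hp
    obtain ⟨⟨hp1, -⟩, -, -, -, hp2⟩ := hp
    refine ⟨hp1, hp2.trans ?_⟩
    have hexp : Real.exp (-(j : ℝ)) ≤ 1 := by
      rw [Real.exp_le_one_iff]
      have : (0 : ℝ) ≤ j := Nat.cast_nonneg j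
      linarith
    have h1 : ((q ^ (2 * A₁) : ℕ) : ℝ) ^ (1 / 2 * Real.exp (-(j : ℝ))) ≤
        ((q ^ (2 * A₁) : ℕ) : ℝ) ^ (1 / 2 : ℝ) := by
      apply Real.rpow_le_rpow_of_exponent_le hMR1
      linarith
    exact h1.trans (Real.rpow_le_rpow (by positivity) hMRN (by norm_num))
  have hnb : (nb A₁ q : ℝ) ≤ κ * L := by
    have h1 : nb A₁ q ≤ JJ N := ty_JJ M N hM1 hMN l1
    have h2 : (nb A₁ q : ℝ) ≤ JJ N := by exact_mod_cast h1
    exact h2.trans l5
  have hom : ∀ i, 0 ≤ om (f i) := ty_om f hf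
  have hsum : ∑ j ∈ Finset.range (nb A₁ q), HB (B j) ≤ L + C := by
    have h1 := ty_HB z₀ M N hM1 hMN
    have h2 := hC N (by linarith)
    rw [Nat.floor_natCast] at h2
    have h3 := (abs_le.1 h2).2
    have h4 : ∑ j ∈ Finset.range (nb A₁ q), HB (B j) =
        ∑ i ∈ Finset.range (JJ M), HB (Bk (1 / 2) z₀ M i) := rfl
    rw [h4]
    linarith
  -- second moment
  have hmom : ∑ i, om (f i) * (∑ j ∈ Finset.range (nb A₁ q), |PX χ (B j) (la (f i))|) ^ 2 ≤
      nb A₁ q * (8 * (K * (L + C))) := by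
    have e1 : ∀ i, om (f i) * (∑ j ∈ Finset.range (nb A₁ q), |PX χ (B j) (la (f i))|) ^ 2 ≤
        nb A₁ q * ∑ j ∈ Finset.range (nb A₁ q), om (f i) * PX χ (B j) (la (f i)) ^ 2 := by
      intro i
      have h := sq_sum_le_card_mul_sum_sq (s := Finset.range (nb A₁ q))
        (f := fun j => |PX χ (B j) (la (f i))|)
      rw [Finset.card_range] at h
      simp only [sq_abs] at h
      have h2 := mul_le_mul_of_nonneg_left h (hom i)
      refine h2.trans (le_of_eq ?_)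
      rw [← Finset.mul_sum]
      ring
    have e2 : ∑ i, om (f i) * (∑ j ∈ Finset.range (nb A₁ q), |PX χ (B j) (la (f i))|) ^ 2 ≤
        ∑ i, nb A₁ q * ∑ j ∈ Finset.range (nb A₁ q), om (f i) * PX χ (B j) (la (f i)) ^ 2 :=
      Finset.sum_le_sum fun i _ => e1 i
    rw [← Finset.mul_sum, Finset.sum_comm] at e2
    refine e2.trans (mul_le_mul_of_nonneg_left ?_ (Nat.cast_nonneg _))
    have e3 : ∑ j ∈ Finset.range (nb A₁ q), ∑ i, om (f i) * PX χ (B j) (la (f i)) ^ 2 ≤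
        ∑ j ∈ Finset.range (nb A₁ q), 8 * (K * HB (B j)) :=
      Finset.sum_le_sum fun j _ => ty_block hNc χ hχ f hf (B j) (hBk j)
    refine e3.trans ?_
    rw [← Finset.mul_sum, ← Finset.mul_sum]
    have := mul_le_mul_of_nonneg_left hsum hKp.le
    linarith
  -- Chebyshev
  have hLp : 0 < L := by linarith
  have hpos : 0 < δ * L := by positivity
  have e4 := ty_cheb (fun i => om (f i))
    (fun i => ∑ j ∈ Finset.range (nb A₁ q), |PX χ (B j) (la (f i))|) hom hpos hmom u (by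
      intro i hi
      have h1 : δ * L < ∑ j ∈ Finset.range (nb A₁ q), |PX χ (B j) (la (f i))| := hu i hi
      exact h1.le.trans (le_abs_self _))
  have e5 : (nb A₁ q : ℝ) * (8 * (K * (L + C))) ≤ ε * (δ * L) ^ 2 := by
    have a : (nb A₁ q : ℝ) * (8 * (K * (L + C))) ≤ κ * L * (8 * (K * (L + L))) := by
      have h1 : (nb A₁ q : ℝ) * (8 * (K * (L + C))) ≤ (nb A₁ q : ℝ) * (8 * (K * (L + L))) := by
        refine mul_le_mul_of_nonneg_left ?_ (Nat.cast_nonneg _)
        have := mul_le_mul_of_nonneg_left (show L + C ≤ L + L by linarith) hKp.le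
        linarith
      exact h1.trans (mul_le_mul_of_nonneg_right hnb (by positivity))
    refine a.trans (le_of_eq ?_)
    rw [hκ]
    field_simp
    ring
  exact le_of_mul_le_mul_right (e4.trans e5) (by positivity)

theorem typ_th_pr {ε : ℝ} (hε : 0 < ε) : ∃ C : ℕ, ∀ (N : ℕ) [Fact N.Prime], C ≤ N →
    ∀ p₀ : ℕ, p₀.Prime → C ≤ p₀ → (p₀ : ℝ) ^ 2 ≤ N →
    ∀ {ι : Type} [Fintype ι] (f : ι → S2 N), AllNew f →
    ∀ u : Finset ι, (∀ i ∈ u, ¬ (1 / 2 ≤ th p₀ (la (f i)) ∧ th p₀ (la (f i)) ≤ 2)) →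
      ∑ i ∈ u, om (f i) ≤ ε := by
  classical
  set K : ℝ := Real.exp (8 * Real.pi * (1 / 2)) with hK
  have hKp : 0 < K := Real.exp_pos _
  obtain ⟨C, hC⟩ := exists_nat_gt (4 * K / ε)
  refine ⟨max C 16, fun N _ hN p₀ hp hCp hpN ι _ f hf u hu => ?_⟩
  have hNc : 16 ≤ N := le_trans (le_max_right _ _) hN
  have hp0 : (0 : ℝ) < p₀ := by exact_mod_cast hp.pos
  have hCp' : (C : ℝ) ≤ p₀ := by exact_mod_cast le_trans (le_max_left _ _) hCp
  have hn : ∀ i, IsNew (f i) := fun i => (hf.2 (f i)).2 ⟨i, rfl⟩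
  have hle : (p₀ : ℝ) ≤ (N : ℝ) ^ (1 / 2 : ℝ) := by
    rw [← Real.sqrt_eq_rpow]
    exact Real.le_sqrt_of_sq_le hpN
  have m := Pool.Agent.LVB.MUP_block hNc f hf.1 hn (I := {p₀}) (fun p hp' => by
    rw [Finset.mem_singleton] at hp'
    subst hp'
    exact ⟨hp.pos, hle⟩)
  have hPB : ∀ x : ℕ → ℝ, PB {p₀} x = x p₀ / Real.sqrt p₀ := by
    intro x
    unfold PB
    rw [Finset.sum_singleton]
  have hHB : HB {p₀} = 1 / (p₀ : ℝ) := by
    unfold HB
    rw [Finset.sum_singleton]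
  rw [hHB, ← hK] at m
  have hpos : (0 : ℝ) < 1 / 2 := by norm_num
  have e4 := ty_cheb (fun i => om (f i)) (fun i => PB {p₀} (la (f i))) (ty_om f hf) hpos m u (by
    intro i hi
    have h1 := hu i hi
    rw [hPB]
    by_contra hcon
    push Not at hcon
    apply h1
    have h2 := abs_lt.1 hcon
    set y := la (f i) p₀ / Real.sqrt p₀ with hy
    have h3 : th p₀ (la (f i)) = 1 - p₀ / (p₀ + 1) * y := by
      unfold Pool.Agent.LM.th
      rw [hy]
      ring
    have h4 : (0 : ℝ) ≤ p₀ / (p₀ + 1) := by positivity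
    have h5 : (p₀ : ℝ) / (p₀ + 1) ≤ 1 := by
      rw [div_le_one (by positivity)]
      linarith
    rw [h3]
    constructor <;> nlinarith)
  rw [div_lt_iff₀ hε] at hC
  have h6 : K * (1 / (p₀ : ℝ)) ≤ ε * (1 / 2) ^ 2 := by
    rw [mul_one_div, div_le_iff₀ hp0]
    nlinarith
  exact le_of_mul_le_mul_right (e4.trans h6) (by norm_num)

theorem typ_b_pr {ε : ℝ} (hε : 0 < ε) (C : ℝ) (m₁ : ℕ) : ∃ (C' : ℝ) (N₀ : ℕ), 0 < C' ∧ ∀ (N : ℕ)
    [Fact N.Prime], N₀ ≤ N → ∀ vB : ℕ → ℝ, SuppIn m₁ vB → (∀ e, |vB e| ≤ C) →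
    ∀ {ι : Type} [Fintype ι] (f : ι → S2 N), AllNew f →
    ∀ u : Finset ι, (∀ i ∈ u, C' < |MX m₁ vB (la (f i))|) → ∑ i ∈ u, om (f i) ≤ ε := by
  classical
  set V : ℝ := 2 * (C ^ 2 * m₁) with hV
  have hV0 : 0 ≤ V := by positivity
  refine ⟨V / ε + 1, 10000 * m₁, by positivity, fun N _ hN vB hs hb ι _ f hf u hu => ?_⟩
  have hn : ∀ i, IsNew (f i) := fun i => (hf.2 (f i)).2 ⟨i, rfl⟩
  rcases Nat.eq_zero_or_pos m₁ with h0 | h0
  · have hue : u = ∅ := by
      rw [Finset.eq_empty_iff_forall_notMem]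
      intro i hi
      have h1 := hu i hi
      have h2 : MX m₁ vB (la (f i)) = 0 := by
        rw [h0]
        simp [MX]
      rw [h2, abs_zero] at h1
      have : 0 < V / ε + 1 := by positivity
      linarith
    rw [hue, Finset.sum_empty]
    exact hε.le
  · have hE : (m₁ : ℝ) ≤ (1 / 100) ^ 2 * N := by
      have h1 : ((10000 * m₁ : ℕ) : ℝ) ≤ N := by exact_mod_cast hN
      push_cast at h1
      linarith
    have m := Pool.Agent.LSP.mx_sq f hf.1 hn (E := m₁) h0 hE (x := vB) hs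
    have hm : ∑ n ∈ Finset.Icc 1 m₁, vB n ^ 2 / n ≤ C ^ 2 * m₁ := by
      calc ∑ n ∈ Finset.Icc 1 m₁, vB n ^ 2 / (n : ℝ) ≤ ∑ n ∈ Finset.Icc 1 m₁, C ^ 2 := by
            refine Finset.sum_le_sum fun n hn' => ?_
            have hn1 : (1 : ℝ) ≤ n := by exact_mod_cast (Finset.mem_Icc.1 hn').1
            have h2 : vB n ^ 2 ≤ C ^ 2 := by
              rw [← sq_abs (vB n)]
              exact pow_le_pow_left₀ (abs_nonneg _) (hb n) 2
            exact (div_le_self (sq_nonneg _) hn1).trans h2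
        _ = C ^ 2 * m₁ := by
            rw [Finset.sum_const, Nat.card_Icc, nsmul_eq_mul, Nat.add_sub_cancel]
            ring
    have m' : ∑ i, om (f i) * MX m₁ vB (la (f i)) ^ 2 ≤ V := by
      rw [hV]
      linarith
    have hpos : 0 < V / ε + 1 := by positivity
    have e4 := ty_cheb (fun i => om (f i)) (fun i => MX m₁ vB (la (f i))) (ty_om f hf) hpos m' u
      (fun i hi => (hu i hi).le)
    have h6 : V ≤ ε * (V / ε + 1) ^ 2 := by
      have h7 : ε * (V / ε) = V := by field_simp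
      have h8 : 0 ≤ V / ε := by positivity
      nlinarith [mul_nonneg hε.le (sq_nonneg (V / ε))]
    exact le_of_mul_le_mul_right (e4.trans h6) (by positivity)

end Pool.Agent.TEM

namespace Pool.Agent.TEM

/-- block TY -/
theorem typ_te : type_of% @typ_te_pr := @typ_te_pr

/-- block TY -/
theorem typ_th : type_of% @typ_th_pr := @typ_th_pr

/-- block TY -/
theorem typ_b : type_of% @typ_b_pr := @typ_b_pr

end Pool.Agent.TEM
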