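import Pool.Agent.Lib_helper15.TEM.Defs
import Pool.Agent.Lib_helper15.EXC.DefsI
import Pool.Agent.Lib_helper15.EXC.XD
import Pool.Agent.Lib_helper53.LMF.MC
import Pool.Agent.Lib_helper53.LMF.ME

set_option autoImplicit false

namespace Pool.Agent.TEM

open Complex MeasureTheory ProbabilityTheory Filter Topology
open Pool.Agent.LK (PQ)
open Pool.Agent.LM (cv Pz)

theorem xl_one {x y : ℝ} (hy : 0 ≤ y) (hyx : y ≤ x) (hx : x ≤ 1 / 2) :
    (1 - y) * Real.exp (-(4 * (x - y))) ≤ 1 - x := by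
  have hd : 0 ≤ x - y := by linarith
  have h1 : 1 + 4 * (x - y) ≤ Real.exp (4 * (x - y)) := by
    have := Real.add_one_le_exp (4 * (x - y))
    linarith
  have h2 : 0 < 1 + 4 * (x - y) := by linarith
  have h3 : Real.exp (-(4 * (x - y))) ≤ 1 / (1 + 4 * (x - y)) := by
    rw [Real.exp_neg, ← one_div]
    exact one_div_le_one_div_of_le h2 h1
  refine (mul_le_mul_of_nonneg_left h3 (by linarith)).trans ?_
  rw [mul_one_div, div_le_iff₀ h2]
  nlinarith [mul_nonneg hd (show (0 : ℝ) ≤ 3 - 4 * x by linarith)]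

theorem xl_loc {x y c : ℝ} (hy : 0 ≤ y) (hyx : y ≤ x) (hx : x ≤ 1 / 2)
    (hc : c = 1 ∨ c = 0 ∨ c = -1) :
    (1 - y) * (1 - c * y) * Real.exp (-(8 * (x - y))) ≤ (1 - x) * (1 - c * x) := by
  have h1 := xl_one hy hyx hx
  have hd : 0 ≤ x - y := by linarith
  have h2 : Real.exp (-(8 * (x - y))) = Real.exp (-(4 * (x - y))) * Real.exp (-(4 * (x - y))) := by
    rw [← Real.exp_add]
    congr 1
    ring
  have h3 : Real.exp (-(4 * (x - y))) ≤ 1 := Real.exp_le_one_iff.2 (by linarith)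
  have h4 : 0 < Real.exp (-(4 * (x - y))) := Real.exp_pos _
  have h5 : 0 ≤ 1 - y := by linarith
  have h6 : 0 ≤ 1 - x := by linarith
  rw [h2]
  rcases hc with rfl | rfl | rfl
  · calc (1 - y) * (1 - 1 * y) * (Real.exp (-(4 * (x - y))) * Real.exp (-(4 * (x - y))))
        = ((1 - y) * Real.exp (-(4 * (x - y)))) * ((1 - y) * Real.exp (-(4 * (x - y)))) := by ring
      _ ≤ (1 - x) * (1 - x) := mul_le_mul h1 h1 (by positivity) h6
      _ = (1 - x) * (1 - 1 * x) := by ring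
  · calc (1 - y) * (1 - 0 * y) * (Real.exp (-(4 * (x - y))) * Real.exp (-(4 * (x - y))))
        = ((1 - y) * Real.exp (-(4 * (x - y)))) * Real.exp (-(4 * (x - y))) := by ring
      _ ≤ (1 - x) * 1 := mul_le_mul h1 h3 h4.le h6
      _ = (1 - x) * (1 - 0 * x) := by ring
  · calc (1 - y) * (1 - -1 * y) * (Real.exp (-(4 * (x - y))) * Real.exp (-(4 * (x - y))))
        = ((1 - y) * Real.exp (-(4 * (x - y)))) * (Real.exp (-(4 * (x - y))) * (1 + y)) := by ring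
      _ ≤ (1 - x) * (1 * (1 + x)) :=
          mul_le_mul h1 (mul_le_mul h3 (by linarith) (by linarith) (by norm_num))
            (by positivity) h6
      _ = (1 - x) * (1 - -1 * x) := by ring

/-- `p ^ (-1 - w)` -/
noncomputable def xl_y (w : ℝ) (p : ℕ) : ℝ := (p : ℝ) ^ (-(1 + w))

theorem xl_y_facts {w : ℝ} (hw : 0 < w) {p : ℕ} (hp : p.Prime) :
    0 < xl_y w p ∧ xl_y w p ≤ 1 / p ∧ 1 / (p : ℝ) - xl_y w p ≤ w * (Real.log p / p) ∧
      1 / (p : ℝ) ≤ 1 / 2 := by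
  have hp2 : (2 : ℝ) ≤ p := by exact_mod_cast hp.two_le
  have hp0 : (0 : ℝ) < p := by linarith
  have h1 : xl_y w p = 1 / p * Real.exp (-(w * Real.log p)) := by
    unfold xl_y
    rw [neg_add, Real.rpow_add hp0, Real.rpow_neg_one, one_div, Real.rpow_def_of_pos hp0]
    congr 2
    ring
  have h2 : 0 ≤ Real.log p := Real.log_nonneg (by linarith)
  have h3 : Real.exp (-(w * Real.log p)) ≤ 1 :=
    Real.exp_le_one_iff.2 (by have := mul_nonneg hw.le h2; linarith)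
  have h4 : 1 - w * Real.log p ≤ Real.exp (-(w * Real.log p)) := by
    have := Real.add_one_le_exp (-(w * Real.log p))
    linarith
  have h5 : (0 : ℝ) < 1 / p := by positivity
  refine ⟨by rw [h1]; positivity, ?_, ?_, ?_⟩
  · rw [h1]
    calc 1 / (p : ℝ) * Real.exp (-(w * Real.log p)) ≤ 1 / p * 1 :=
          mul_le_mul_of_nonneg_left h3 h5.le
      _ = 1 / p := mul_one _
  · rw [h1]
    have h6 := mul_le_mul_of_nonneg_left h4 h5.le
    have h7 : w * (Real.log p / p) = 1 / p * (w * Real.log p) := by ring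
    rw [h7]
    linarith
  · exact one_div_le_one_div_of_le (by norm_num) hp2

variable {q : ℕ} [NeZero q]

/-- the local factor at `1 + w` -/
noncomputable def xl_a (χ : DirichletCharacter ℂ q) (w : ℝ) (p : ℕ) : ℝ :=
  (1 - xl_y w p) * (1 - cv χ p * xl_y w p)

theorem xl_a_facts {χ : DirichletCharacter ℂ q} (hχ : PQ χ) {w : ℝ} (hw : 0 < w) {p : ℕ}
    (hp : p.Prime) : 0 < xl_a χ w p ∧ xl_a χ w p ≤ 1 := by
  obtain ⟨h1, h2, -, h4⟩ := xl_y_facts hw hp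
  unfold xl_a
  rcases (LM.cv_cases_pr hχ p).2 with h | h | h <;> rw [h]
  · exact ⟨by nlinarith, by nlinarith⟩
  · exact ⟨by nlinarith, by nlinarith⟩
  · exact ⟨by nlinarith, by nlinarith⟩

theorem xl_norm {χ : DirichletCharacter ℂ q} (hχ : PQ χ) {w : ℝ} (hw : 0 < w) {p : ℕ}
    (hp : p.Prime) :
    ‖(1 - (p : ℂ) ^ (-((1 + w : ℝ) : ℂ)))⁻¹ * (1 - χ p * (p : ℂ) ^ (-((1 + w : ℝ) : ℂ)))⁻¹‖ =
      (xl_a χ w p)⁻¹ := by
  have h1 : (p : ℂ) ^ (-((1 + w : ℝ) : ℂ)) = ((xl_y w p : ℝ) : ℂ) := by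
    unfold xl_y
    rw [Complex.ofReal_cpow (by positivity)]
    push_cast
    rfl
  have h2 : (1 - (p : ℂ) ^ (-((1 + w : ℝ) : ℂ)))⁻¹ *
      (1 - χ p * (p : ℂ) ^ (-((1 + w : ℝ) : ℂ)))⁻¹ = (((xl_a χ w p)⁻¹ : ℝ) : ℂ) := by
    rw [h1, (LM.cv_cases_pr hχ p).1]
    unfold xl_a
    push_cast
    rw [mul_inv]
  rw [h2, Complex.norm_real, Real.norm_eq_abs, abs_of_pos (inv_pos.2 (xl_a_facts hχ hw hp).1)]

theorem xl_euler {χ : DirichletCharacter ℂ q} (hχ : PQ χ) {w : ℝ} (hw : 0 < w) (z : ℕ) :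
    (∏ p ∈ Pz z, xl_a χ w p)⁻¹ ≤ ‖riemannZeta ((1 + w : ℝ) : ℂ)‖ *
      ‖DirichletCharacter.LFunction χ ((1 + w : ℝ) : ℂ)‖ := by
  have hs : 1 < (((1 + w : ℝ) : ℂ)).re := by
    rw [Complex.ofReal_re]
    linarith
  have h1 := riemannZeta_eulerProduct hs
  have h2 := DirichletCharacter.LSeries_eulerProduct χ hs
  have h3 := (h1.mul h2).norm
  rw [norm_mul] at h3
  have h4 : ∀ n : ℕ, ‖(∏ p ∈ n.primesBelow, (1 - (p : ℂ) ^ (-((1 + w : ℝ) : ℂ)))⁻¹) *
      ∏ p ∈ n.primesBelow, (1 - χ p * (p : ℂ) ^ (-((1 + w : ℝ) : ℂ)))⁻¹‖ =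
      ∏ p ∈ n.primesBelow, (xl_a χ w p)⁻¹ := by
    intro n
    rw [← Finset.prod_mul_distrib, norm_prod]
    exact Finset.prod_congr rfl fun p hp => xl_norm hχ hw (Nat.prime_of_mem_primesBelow hp)
  simp only [h4] at h3
  have h5 : Monotone (fun n : ℕ => ∏ p ∈ n.primesBelow, (xl_a χ w p)⁻¹) := by
    intro m n hmn
    have hsub : m.primesBelow ⊆ n.primesBelow := by
      intro p hp
      rw [Nat.mem_primesBelow] at hp ⊢
      exact ⟨hp.1.trans_le hmn, hp.2⟩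
    simp only
    rw [← Finset.prod_sdiff hsub]
    have h6 : 0 ≤ ∏ p ∈ m.primesBelow, (xl_a χ w p)⁻¹ :=
      Finset.prod_nonneg fun p hp =>
        inv_nonneg.2 (xl_a_facts hχ hw (Nat.prime_of_mem_primesBelow hp)).1.le
    refine le_mul_of_one_le_left h6 ?_
    refine Finset.prod_induction _ (fun x : ℝ => 1 ≤ x)
      (fun a b ha hb => one_le_mul_of_one_le_of_one_le ha hb) le_rfl ?_
    intro p hp
    rw [Finset.mem_sdiff, Nat.mem_primesBelow] at hp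
    obtain ⟨h7, h8⟩ := xl_a_facts hχ hw hp.1.2
    exact (one_le_inv₀ h7).2 h8
  have h6 := h5.ge_of_tendsto h3 (z + 1)
  have h7 : (z + 1).primesBelow = Pz z := by
    ext p
    unfold Pz
    rw [Nat.mem_primesBelow, Finset.mem_filter, Finset.mem_Icc, Nat.lt_succ_iff]
    exact ⟨fun h => ⟨⟨h.2.one_le, h.1⟩, h.2⟩, fun h => ⟨h.1.2, h.2⟩⟩
  rw [h7, Finset.prod_inv_distrib] at h6
  rw [DirichletCharacter.LFunction_eq_LSeries χ hs]
  exact h6

theorem xl_ww {χ : DirichletCharacter ℂ q} (hχ : PQ χ) {w : ℝ} (hw : 0 < w) (z : ℕ) :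
    (∏ p ∈ Pz z, xl_a χ w p) * Real.exp (-(8 * w * ∑ p ∈ Pz z, Real.log p / p)) ≤
      WW χ (Pz z) := by
  have h1 : Real.exp (-(8 * w * ∑ p ∈ Pz z, Real.log p / p)) =
      ∏ p ∈ Pz z, Real.exp (-(8 * w * (Real.log p / p))) := by
    rw [← Real.exp_sum, Finset.mul_sum, Finset.sum_neg_distrib]
  rw [h1, ← Finset.prod_mul_distrib]
  unfold WW
  refine Finset.prod_le_prod ?_ ?_
  · intro p hp
    exact mul_nonneg (xl_a_facts hχ hw (Finset.mem_filter.1 hp).2).1.le (Real.exp_pos _).le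
  · intro p hp
    have hpp := (Finset.mem_filter.1 hp).2
    obtain ⟨h2, h3, h4, h5⟩ := xl_y_facts hw hpp
    have h6 := xl_loc h2.le h3 h5 (LM.cv_cases_pr hχ p).2
    have h7 : cv χ p * (1 / (p : ℝ)) = cv χ p / p := by ring
    rw [h7] at h6
    refine le_trans ?_ h6
    refine mul_le_mul_of_nonneg_left ?_ (xl_a_facts hχ hw hpp).1.le
    refine Real.exp_le_exp.2 ?_
    have h8 : 8 * w * (Real.log p / p) = 8 * (w * (Real.log p / p)) := by ring
    rw [h8]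
    linarith

theorem xlow_pr (A₁ : ℕ) {c : ℝ} (hc : 0 < c) (hc1 : c ≤ 1) : ∃ c' : ℝ, 0 < c' ∧
    ∀ (q : ℕ) [NeZero q]
    (χ : DirichletCharacter ℂ q), PQ χ → 3 ≤ q → ∀ (β : ℝ) (g : ℂ → ℂ) (g₀ : ℝ), β < 1 →
    (1 - β) * Real.log q ≤ c → Pool.Agent.EXC.GFun χ β c g g₀ →
    c' ≤ g₀ * WW χ (Pz (q ^ A₁)) := by
  obtain ⟨C, hC⟩ := LM.sum_log_le_pr
  refine ⟨Real.exp (-(8 * (A₁ + |C|))) / 8, by positivity, ?_⟩
  intro q _ χ hχ hq β g g₀ hβ hβq hG
  have hq3 : (3 : ℝ) ≤ q := by exact_mod_cast hq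
  have hlog : 1 < Real.log q := by
    rw [Real.lt_log_iff_exp_lt (by linarith)]
    exact lt_of_lt_of_le Real.exp_one_lt_three hq3
  have hlog0 : 0 < Real.log q := by linarith
  set w : ℝ := c / Real.log q with hwdef
  have hw : 0 < w := div_pos hc hlog0
  have hwl : w * Real.log q = c := div_mul_cancel₀ c hlog0.ne'
  have hw1 : w ≤ 1 := by
    rw [hwdef, div_le_one hlog0]
    linarith
  have hβw : 1 - β ≤ w := by
    rw [hwdef, le_div_iff₀ hlog0]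
    exact hβq
  -- the upper bound
  obtain ⟨ζ₀, hz1, hz2, hz3⟩ := EXC.xd_zeta hw
  have h1 : ‖riemannZeta ((1 + w : ℝ) : ℂ)‖ ≤ 2 / w := by
    rw [hz1, Complex.norm_real, Real.norm_eq_abs, abs_of_nonneg (le_trans (by positivity) hz2)]
    refine hz3.trans ?_
    exact div_le_div_of_nonneg_right (by linarith) hw.le
  have h2 : ‖DirichletCharacter.LFunction χ ((1 + w : ℝ) : ℂ)‖ ≤ 4 * w * g₀ := by
    have h3 : ((1 + w : ℝ) : ℂ) = 1 + (w : ℂ) := by push_cast; rfl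
    rw [h3, hG.fac, norm_mul]
    have h4 : ‖(w : ℂ) + ((1 - β : ℝ) : ℂ)‖ ≤ 2 * w := by
      rw [← Complex.ofReal_add, Complex.norm_real, Real.norm_eq_abs, abs_of_nonneg (by linarith)]
      linarith
    have h5 : ‖g (w : ℂ)‖ ≤ 2 * g₀ := by
      refine hG.bdd _ ?_
      rw [Complex.norm_real, Real.norm_eq_abs, abs_of_pos hw]
    have h6 : 0 ≤ g₀ := by linarith [hG.ge]
    calc ‖(w : ℂ) + ((1 - β : ℝ) : ℂ)‖ * ‖g (w : ℂ)‖ ≤ (2 * w) * (2 * g₀) :=
          mul_le_mul h4 h5 (norm_nonneg _) (by positivity)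
      _ = 4 * w * g₀ := by ring
  have h3 : ‖riemannZeta ((1 + w : ℝ) : ℂ)‖ *
      ‖DirichletCharacter.LFunction χ ((1 + w : ℝ) : ℂ)‖ ≤ 8 * g₀ := by
    calc _ ≤ (2 / w) * (4 * w * g₀) := mul_le_mul h1 h2 (norm_nonneg _) (by positivity)
      _ = 8 * g₀ := by
        field_simp
        ring
  have h4 := (xl_euler hχ hw (q ^ A₁)).trans h3
  have h5 := xl_ww hχ hw (q ^ A₁)
  have hpos : 0 < ∏ p ∈ Pz (q ^ A₁), xl_a χ w p :=
    Finset.prod_pos fun p hp => (xl_a_facts hχ hw (Finset.mem_filter.1 hp).2).1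
  -- the sum
  have h6 : w * ∑ p ∈ Pz (q ^ A₁), Real.log p / p ≤ A₁ + |C| := by
    rcases Nat.eq_zero_or_pos A₁ with h0 | h0
    · have h7 : Pz (q ^ A₁) = ∅ := by
        rw [h0, pow_zero]
        rfl
      rw [h7, Finset.sum_empty, mul_zero]
      positivity
    · have h7 : 2 ≤ q ^ A₁ := by
        calc 2 ≤ q := by omega
          _ = q ^ 1 := (pow_one q).symm
          _ ≤ q ^ A₁ := Nat.pow_le_pow_right (by omega) h0
      have h8 := hC (q ^ A₁) h7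
      have h9 : Real.log ((q ^ A₁ : ℕ) : ℝ) = A₁ * Real.log q := by
        push_cast
        rw [Real.log_pow]
      rw [h9] at h8
      have h10 := mul_le_mul_of_nonneg_left h8 hw.le
      have h11 : w * (A₁ * Real.log q + C) = A₁ * c + w * C := by
        rw [← hwl]
        ring
      rw [h11] at h10
      have h12 : (A₁ : ℝ) * c ≤ A₁ := by
        have : (0 : ℝ) ≤ A₁ := Nat.cast_nonneg _
        nlinarith
      have h13 : w * C ≤ |C| := by
        calc w * C ≤ w * |C| := mul_le_mul_of_nonneg_left (le_abs_self C) hw.le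
          _ ≤ 1 * |C| := mul_le_mul_of_nonneg_right hw1 (abs_nonneg C)
          _ = |C| := one_mul _
      linarith
  have h7 : Real.exp (-(8 * (A₁ + |C|))) ≤
      Real.exp (-(8 * w * ∑ p ∈ Pz (q ^ A₁), Real.log p / p)) := by
    refine Real.exp_le_exp.2 ?_
    have h8 : 8 * w * ∑ p ∈ Pz (q ^ A₁), Real.log p / p =
        8 * (w * ∑ p ∈ Pz (q ^ A₁), Real.log p / p) := by ring
    rw [h8]
    linarith
  have h8 : (∏ p ∈ Pz (q ^ A₁), xl_a χ w p) * Real.exp (-(8 * (A₁ + |C|))) ≤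
      WW χ (Pz (q ^ A₁)) := (mul_le_mul_of_nonneg_left h7 hpos.le).trans h5
  have h9 : (1 : ℝ) ≤ 8 * g₀ * ∏ p ∈ Pz (q ^ A₁), xl_a χ w p := by
    have h10 := mul_le_mul_of_nonneg_right h4 hpos.le
    rwa [inv_mul_cancel₀ hpos.ne'] at h10
  have hg0 : 0 ≤ g₀ := by linarith [hG.ge]
  have h10 : Real.exp (-(8 * (A₁ + |C|))) ≤
      8 * g₀ * (∏ p ∈ Pz (q ^ A₁), xl_a χ w p) * Real.exp (-(8 * (A₁ + |C|))) :=
    le_mul_of_one_le_left (Real.exp_pos _).le h9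
  have h11 : 8 * g₀ * (∏ p ∈ Pz (q ^ A₁), xl_a χ w p) * Real.exp (-(8 * (A₁ + |C|))) ≤
      8 * g₀ * WW χ (Pz (q ^ A₁)) := by
    rw [mul_assoc (8 * g₀)]
    exact mul_le_mul_of_nonneg_left h8 (by positivity)
  have h12 := h10.trans h11
  rw [div_le_iff₀ (by norm_num : (0 : ℝ) < 8)]
  linarith

end Pool.Agent.TEM

namespace Pool.Agent.TEM

/-- block XL -/
theorem xlow : type_of% @xlow_pr := @xlow_pr

end Pool.Agent.TEM
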