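import Pool.Agent.Lib_helper15.TEM.Defs
import Pool.Agent.Lib_helper15.TEM.B.MOa
import Pool.Agent.Lib_helper15.TEM.B.TR
import Pool.Agent.Lib_helper15.TEM.B.TV
import Pool.Agent.Lib_helper15.TEM.B.TX

/-! T12, block MO: the mollifier with pointwise form. -/

set_option autoImplicit false

namespace Pool.Agent.TEM

open Complex MeasureTheory ProbabilityTheory
open Pool.Agent.LSP (tau MX sg1 wX)
open Pool.Agent.LEV (Uu Um)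
open Pool.Agent.LVB (IsST el ex HB PB JJ Bk Kk)
open Pool.Agent.LK (PQ)
open Pool.Agent.LE
open Pool.Agent.LM (cv pp ep Pz th IsV mmS mmB mmK mm_prime mm_memPz)

/-- the vector of the quotient by a constant -/
theorem mo_isv_div {K : ℕ} {v : ℕ → ℝ} {F : (ℕ → ℝ) → ℝ} (hv : IsV K v F) (c : ℝ) :
    IsV K (fun e => v e / c) (fun x => F x / c) := by
  refine ⟨fun e he => hv.1 e fun h0 => he (by simp only [h0, zero_div]), fun la => ?_⟩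
  simp only [← hv.2 la]
  unfold MX
  rw [Finset.sum_div]
  exact Finset.sum_congr rfl fun e _ => by ring

theorem mo_sqrt_le {n : ℕ} (hn : 1 ≤ n) : Real.sqrt n ≤ n := by
  have : (1 : ℝ) ≤ n := by exact_mod_cast hn
  rw [Real.sqrt_le_iff]
  exact ⟨by linarith, by nlinarith⟩

/-- block MO -/
theorem mollT_pr {ε : ℝ} (hε : 0 < ε) {m₀ : ℕ} {s : ℕ → ℝ} (hs : SuppIn m₀ s)
    (hσ : 0 < ∑ m ∈ Finset.Icc 1 m₀, s m ^ 2) (A₁ : ℕ) (hA₁ : 1 ≤ A₁) :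
    ∃ (A AA z₀ m₁ : ℕ) (C c : ℝ) (q₀ : ℕ), 1 ≤ AA ∧ 1 ≤ C ∧ 0 < c ∧ 1 ≤ A ∧ ∀ (q : ℕ)
    [NeZero q] (χ : DirichletCharacter ℂ q), PQ χ → q₀ ≤ q → ∀ g₀ : ℝ, 0 ≤ g₀ →
    g₀ * WW χ (Pz (q ^ A₁)) ≤ 1 + ε →
    ∀ (I : Finset ℕ) (P : Measure (ℕ → ℝ)), (∀ p ∈ I, p.Prime) → IsST I P → Pz (q ^ A) ⊆ I →
    ∃ (b vB : ℕ → ℝ) (p₀ : ℕ) (F₁ F₂ T₁ : ℝ), SuppIn (q ^ A) b ∧ (∀ e, |b e| ≤ (q : ℝ) ^ A) ∧
      ∑ e ∈ Finset.Icc 1 (q ^ A), b e * sg1 e / e = 0 ∧ c ≤ F₁ ∧ 0 < F₂ ∧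
      SuppIn m₁ vB ∧ (∀ e, |vB e| ≤ C) ∧ p₀.Prime ∧ q ≤ p₀ ∧ p₀ ≤ q ^ A ∧
      0 < T₁ ∧ WW χ (Pz (q ^ A₁)) ≤ C * T₁ ∧
      (∀ x : ℕ → ℝ, MX (q ^ A) b x = MX m₁ vB x * te χ AA z₀ A₁ x * th p₀ x / T₁) ∧
      EW P I (w2 χ 0 0 0) (fun x => MX (q ^ A) b x ^ 2) = (F₂ : ℂ) ∧
      EW P I (w1 χ 0) (fun x => MX (q ^ A) b x * ∑ m ∈ Finset.Icc 1 m₀, s m * Um m x) =
        (F₁ : ℂ) ∧
      (∀ r s' z : ℂ, ‖r‖ ≤ c / Real.log q → ‖s'‖ ≤ c / Real.log q → ‖z‖ ≤ c / Real.log q →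
        ‖EW P I (w2 χ r s' z) (fun x => MX (q ^ A) b x ^ 2)‖ ≤ C * F₂) ∧
      (∀ z : ℂ, ‖z‖ ≤ c / Real.log q → ‖EW P I (w1 χ z)
        (fun x => MX (q ^ A) b x * ∑ m ∈ Finset.Icc 1 m₀, s m * Um m x)‖ ≤ C * F₁) ∧
      g₀ ^ 2 * ((q.totient : ℝ) / q / ‖zq q 2‖) * F₂ * ∑ m ∈ Finset.Icc 1 m₀, s m ^ 2 ≤
        (1 + ε) ^ 10 * F₁ ^ 2 := by
  obtain ⟨σ, hσd⟩ : ∃ σ : ℝ, σ = ∑ m ∈ Finset.Icc 1 m₀, s m ^ 2 := ⟨_, rfl⟩
  rw [← hσd] at hσ ⊢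
  obtain ⟨ε₁, hε₁0, hε₁8, h8ε⟩ : ∃ ε₁ : ℝ, 0 < ε₁ ∧ ε₁ ≤ 1 / 8 ∧ 8 * ε₁ ≤ ε := by
    refine ⟨min (ε / 8) (1 / 8), lt_min (by positivity) (by norm_num), min_le_right _ _, ?_⟩
    have := min_le_left (ε / 8) (1 / 8 : ℝ)
    linarith
  obtain ⟨AA, Cr, z₂, hAA1, hCr, hr⟩ := te_rough hε₁0 A₁ hA₁
  obtain ⟨Cp, p₁, hCp, hp⟩ := LM.pert_pr
  obtain ⟨z₀, z1, z4⟩ : ∃ z₀ : ℕ, z₂ ≤ z₀ ∧ m₀ ≤ z₀ := ⟨z₂ + m₀, by omega, by omega⟩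
  obtain ⟨qr, hqr⟩ := hr z₀ z1
  obtain ⟨δs, hδs0, hδs8, hsp⟩ := LM.small_pert_pr z₀
  obtain ⟨MB, hMB0, hMB⟩ := LM.mmB_isv_bound z₀ m₀ s
  obtain ⟨A', qv, hA', hv⟩ := te_isv AA A₁ z₀ hA₁
  have hm₀ : 1 ≤ m₀ := by
    by_contra hc
    have : m₀ = 0 := by omega
    rw [this] at hσd
    simp at hσd
    linarith
  have hκ1 : 1 ≤ mmK z₀ m₀ := by
    unfold LM.mmK
    exact Nat.mul_pos hm₀ (Finset.prod_pos fun p hp => Nat.mul_pos (mm_prime hp).1.pos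
      (mm_prime hp).1.pos)
  obtain ⟨c, hc0, hc1, hc2⟩ : ∃ c : ℝ, 0 < c ∧ c * (A₁ + 2) ≤ 1 ∧
      c ≤ σ / (2 * 2 ^ (Pz z₀).card) := by
    refine ⟨min (1 / (A₁ + 2)) (σ / (2 * 2 ^ (Pz z₀).card)), lt_min (by positivity)
      (by positivity), ?_, min_le_right _ _⟩
    have h1 := min_le_left (1 / ((A₁ : ℝ) + 2)) (σ / (2 * 2 ^ (Pz z₀).card))
    have h2 : (0 : ℝ) < A₁ + 2 := by positivity
    calc _ ≤ 1 / ((A₁ : ℝ) + 2) * (A₁ + 2) := mul_le_mul_of_nonneg_right h1 h2.le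
      _ = 1 := by field_simp
  obtain ⟨C, hC1, hC2, hC3⟩ : ∃ C : ℝ, 1 ≤ C ∧ 8 * Cr ≤ C ∧ MB ≤ C :=
    ⟨max 1 (max _ _), le_max_left _ _, (le_max_left _ _).trans (le_max_right _ _),
      (le_max_right _ _).trans (le_max_right _ _)⟩
  set κ : ℝ := (1 + 2 ^ (0 + 1)) * (MB * ∑ t ∈ Finset.Icc 1 (mmK z₀ m₀), tau t ^ (0 + 1)) * Cr
    with hκ
  obtain ⟨q₀, hq₀⟩ := LM.mm_large z₀ (mmK z₀ m₀) p₁ (1 / δs) (Cp / ε₁)
  refine ⟨2 * A₁ + 2 * A' + 3, AA, z₀, mmK z₀ m₀, C, c, q₀ + qr + qv + ⌈κ⌉₊, hAA1, hC1, hc0,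
    by omega, ?_⟩
  intro q _ χ h hq g₀ hg₀ hgW I P hI hP hAI
  obtain ⟨q1, q2, q3, q4, q5, q6, q7⟩ := hq₀ q (by omega)
  have hq0 : 0 < q := by omega
  have hqR : (1 : ℝ) ≤ q := by exact_mod_cast hq0
  have hκq : κ ≤ q := (Nat.le_ceil κ).trans (by exact_mod_cast (by omega : ⌈κ⌉₊ ≤ q))
  have hqz : q ≤ q ^ A₁ := Nat.le_self_pow (by omega) q
  have hz01 : z₀ < q ^ A₁ := by omega
  obtain ⟨p₀, hp₀, hp₀1, hp₀2⟩ := Nat.exists_prime_lt_and_le_two_mul (q ^ A₁) (by omega)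
  have hp₀q : p₀ ≤ q ^ (A₁ + 1) := by
    rw [pow_succ, mul_comm (q ^ A₁) q]
    exact hp₀2.trans (Nat.mul_le_mul_right _ (by omega))
  have hp₀A : p₀ ≤ q ^ (2 * A₁ + 2 * A' + 3) := hp₀q.trans (Nat.pow_le_pow_right hq0 (by omega))
  have hp₀I : p₀ ∈ I := hAI (mm_memPz hp₀ hp₀A)
  have hN : p₀ * (mmK z₀ m₀ * q ^ A') ≤ q ^ (2 * A₁ + 2 * A' + 3) := by
    calc p₀ * (mmK z₀ m₀ * q ^ A') ≤ q ^ (A₁ + 1) * (q * q ^ A') :=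
          Nat.mul_le_mul hp₀q (Nat.mul_le_mul_right _ q2)
      _ = q ^ (A₁ + A' + 2) := by ring
      _ ≤ _ := Nat.pow_le_pow_right hq0 (by omega)
  have hzI : Pz (q ^ A₁) ⊆ I := fun p hp => hAI (mm_memPz (mm_prime hp).1
    ((mm_prime hp).2.trans (Nat.pow_le_pow_right hq0 (by omega))))
  have hzI0 : Pz z₀ ⊆ I := fun p hp => hzI (mm_memPz (mm_prime hp).1 ((mm_prime hp).2.trans hz01.le))
  set L : ℝ := Real.log q with hL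
  have hL0 : 0 < L := by linarith
  have hA1R : (1 : ℝ) ≤ A₁ := by exact_mod_cast hA₁
  have hcle : c ≤ 1 := (le_mul_of_one_le_right hc0.le (by linarith)).trans hc1
  set δ : ℝ := c / L with hδ
  have hδ0 : 0 ≤ δ := by positivity
  have hδL : δ * L = c := by
    rw [hδ]
    field_simp
  have hδ8 : δ ≤ 1 / 8 := by
    rw [hδ, div_le_iff₀ hL0]
    linarith
  have hδs : δ ≤ δs := by
    rw [hδ, div_le_iff₀ hL0]
    have h1 : 1 ≤ δs * L := by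
      have := (div_le_iff₀ hδs0).mp q6
      linarith
    linarith
  have hδz : δ * (A₁ * L) ≤ 1 := by
    calc _ = (δ * L) * A₁ := by ring
      _ ≤ 1 := by
        rw [hδL]
        exact (mul_le_mul_of_nonneg_left (by linarith) hc0.le).trans hc1
  have hδp : δ * Real.log p₀ ≤ 1 := by
    have h1 : Real.log p₀ ≤ (A₁ + 1) * L := by
      calc Real.log p₀ ≤ Real.log ((q ^ (A₁ + 1) : ℕ) : ℝ) :=
            Real.log_le_log (by exact_mod_cast hp₀.pos) (by exact_mod_cast hp₀q)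
        _ = _ := by rw [Nat.cast_pow, Real.log_pow]; push_cast; ring
    calc δ * Real.log p₀ ≤ δ * ((A₁ + 1) * L) := mul_le_mul_of_nonneg_left h1 hδ0
      _ = (δ * L) * (A₁ + 1) := by ring
      _ ≤ 1 := by
        rw [hδL]
        exact (mul_le_mul_of_nonneg_left (by linarith) hc0.le).trans hc1
  have hCpp : Cp / Real.sqrt p₀ ≤ ε₁ := by
    have h1 : Real.sqrt q ≤ Real.sqrt p₀ := Real.sqrt_le_sqrt (by exact_mod_cast (by omega : q ≤ p₀))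
    have h2 : Cp / ε₁ ≤ Real.sqrt p₀ := q7.trans h1
    have h3 : 0 < Real.sqrt p₀ := Real.sqrt_pos.mpr (by exact_mod_cast hp₀.pos)
    rw [div_le_iff₀ h3]
    have := (div_le_iff₀ hε₁0).mp h2
    linarith
  obtain ⟨R₁, R₂, hR₁, hR₂, r1, r2, r3, r4, -, r6⟩ := hqr q χ h (by omega) I P hI hP hzI
  obtain ⟨r7, r8⟩ := r6 δ hδ0 hδz
  obtain ⟨⟨v, hvv⟩, hvm, hvb, -, hvd⟩ := hv q χ h (by omega)
  -- the Euler products
  have hPPp : ∀ p ∈ PP z₀ A₁ q, p.Prime := fun p hp => (mo_PP_prime hp).1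
  have hWPP := mo_WW_pos h hPPp
  have hWz := mo_WW_pos h (S := Pz z₀) fun p hp => (mm_prime hp).1
  have hWz1 := mo_WW_le_one h (S := Pz z₀) fun p hp => (mm_prime hp).1
  have hWsp := mo_WW_split χ (q := q) (z₀ := z₀) (A₁ := A₁) hz01.le
  have hWle : WW χ (Pz (q ^ A₁)) ≤ WW χ (PP z₀ A₁ q) := by
    rw [hWsp]
    exact mul_le_of_le_one_right hWPP.le hWz1
  have hWlow : 1 / (q : ℝ) ^ (2 * A₁) ≤ WW χ (PP z₀ A₁ q) := by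
    have h1 := mo_WW_low h (q ^ A₁) (Nat.one_le_pow _ _ hq0)
    rw [Nat.cast_pow, ← pow_mul, mul_comm A₁ 2] at h1
    exact h1.trans hWle
  have hR₁inv : 1 / R₁ ≤ Cr * (q : ℝ) ^ (2 * A₁) := by
    have h1 : 1 / (q : ℝ) ^ (2 * A₁) ≤ Cr * R₁ := hWlow.trans r4
    have hq2 : (0 : ℝ) < (q : ℝ) ^ (2 * A₁) := by positivity
    rw [div_le_iff₀ hR₁]
    rw [div_le_iff₀ hq2] at h1
    linarith
  -- the vectors
  obtain ⟨vB, hvB⟩ := LM.mmB_isv χ z₀ hs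
  have hvBb := hMB q χ h vB hvB
  have hvR := mo_isv_div hvv R₁
  have hvRb : ∀ e, |v e / R₁| ≤ (q : ℝ) ^ A' * (q : ℝ) ^ A' * (Cr * (q : ℝ) ^ (2 * A₁)) *
      tau e ^ 0 := by
    intro e
    rw [pow_zero, mul_one, abs_div, abs_of_pos hR₁, div_eq_mul_one_div]
    have h1 : |v e| ≤ ((q ^ A' : ℕ) : ℝ) * (q : ℝ) ^ A' :=
      mo_bound hvv hvb (mo_sqrt_le (Nat.one_le_pow _ _ hq0)) e
    rw [Nat.cast_pow] at h1
    exact mul_le_mul h1 hR₁inv (by positivity) (by positivity)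
  obtain ⟨b, b1, b2, b3, b4⟩ := LM.mm_vec (N := q ^ (2 * A₁ + 2 * A' + 3)) hvB hvR hvBb
    (L := (q : ℝ) ^ A' * (q : ℝ) ^ A' * (Cr * (q : ℝ) ^ (2 * A₁))) (by positivity) hvRb hp₀ hN hκ1
    (Nat.one_le_pow _ _ hq0)
  -- the expectations
  set R : (ℕ → ℝ) → ℝ := fun x => te χ AA z₀ A₁ x / R₁ with hR
  set H : ℝ := R₁ ^ 2 / R₂ with hH
  have hH0 : 0 < H := by positivity
  have hH1 : 1 / H = R₂ / R₁ ^ 2 := by rw [hH, one_div_div]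
  have hRsq : (fun x => R x ^ 2) = fun x => te χ AA z₀ A₁ x ^ 2 / R₁ ^ 2 := by
    funext x
    simp only [hR, div_pow]
  have g1 : EW P I (w2 χ 0 0 0) (fun x => R x ^ 2) = ((1 / H : ℝ) : ℂ) := by
    rw [hRsq, mo_ew_div, r2, hH1, Complex.ofReal_div]
  have g2 : EW P I (w1 χ 0) R = 1 := by
    rw [hR, mo_ew_div, r1, div_self]
    exact_mod_cast hR₁.ne'
  have g3 : ∀ r s z : ℂ, ‖r‖ ≤ δ → ‖s‖ ≤ δ → ‖z‖ ≤ δ →
      ‖EW P I (w2 χ r s z) (fun x => R x ^ 2)‖ ≤ Cr / H := by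
    intro r s z hr hs hz
    rw [hRsq, mo_ew_div, norm_div, Complex.norm_real, Real.norm_of_nonneg (by positivity),
      div_eq_mul_one_div Cr H, hH1, ← mul_div_assoc]
    exact div_le_div_of_nonneg_right (r7 r s z hr hs hz) (by positivity)
  have g4 : ∀ z : ℂ, ‖z‖ ≤ δ → ‖EW P I (w1 χ z) R‖ ≤ Cr := by
    intro z hz
    rw [hR, mo_ew_div, norm_div, Complex.norm_real, Real.norm_of_nonneg hR₁.le,
      div_le_iff₀ hR₁]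
    exact r8 z hz
  obtain ⟨U₁, hU₁⟩ : ∃ U₁ : ℝ, U₁ = ∏ p ∈ Pz z₀, ∫ x, pp χ p (x p) ∂P := ⟨_, rfl⟩
  obtain ⟨U₂, hU₂⟩ : ∃ U₂ : ℝ, U₂ = ∏ p ∈ Pz z₀, ∫ x, pp χ p (x p) ^ 2 ∂P := ⟨_, rfl⟩
  obtain ⟨u1, u2, u3, u4⟩ := LM.mm_U h hP hzI0 hU₁ hU₂
  obtain ⟨T₁, T₂, t1, t2, c1, c2, c3, c4⟩ := mo_core z4 hs hσd hδs0 hδ0 hδs hδ8
    (Cr := Cr) hsp h hI hP hz01 hzI hp₀I hp₀1 hCpp
    (fun r s' z hr' hs' hz' => (hp q χ h p₀ hp₀ (by omega) I P hP hp₀I δ hδ0 hδ8 hδp r s' z hr'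
      hs' hz').2) (R := R) (H := H) (hvm.div_const R₁) (fun x y hxy => by
        simp only [hR, hvd x y hxy]) g1 g2 g3 g4 hU₁ hU₂
  have hT1 : 7 / 8 ≤ T₁ := by
    have := (abs_le.mp t1).1
    linarith
  have hT2 : 7 / 8 ≤ T₂ := by
    have := (abs_le.mp t2).1
    linarith
  have e2 : (fun x : ℕ → ℝ => MX (q ^ (2 * A₁ + 2 * A' + 3)) b x ^ 2) =
      fun x => (th p₀ x * (mmB χ z₀ m₀ s x * R x)) ^ 2 := by
    funext x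
    rw [b2]
  have e1 : (fun x : ℕ → ℝ => MX (q ^ (2 * A₁ + 2 * A' + 3)) b x *
      ∑ m ∈ Finset.Icc 1 m₀, s m * Um m x) =
      fun x => th p₀ x * (mmB χ z₀ m₀ s x * R x) * mmS m₀ s x := by
    funext x
    rw [b2]
    rfl
  refine ⟨b, vB, p₀, T₁ * (σ / U₁), T₂ * (σ / U₂ * (1 / H)), R₁, b1, ?_, b3, ?_, ?_, hvB.1,
    fun e => (hvBb e).trans hC3, hp₀, by omega, hp₀A, hR₁, ?_, ?_, ?_, ?_, ?_, ?_, ?_⟩
  · intro e
    refine (b4 e).trans ?_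
    rw [pow_zero, mul_one]
    calc (1 + 2 ^ (0 + 1)) * (MB * ∑ t ∈ Finset.Icc 1 (mmK z₀ m₀), tau t ^ (0 + 1)) *
          ((q : ℝ) ^ A' * (q : ℝ) ^ A' * (Cr * (q : ℝ) ^ (2 * A₁)))
        = κ * ((q : ℝ) ^ A' * (q : ℝ) ^ A' * (q : ℝ) ^ (2 * A₁)) := by rw [hκ]; ring
      _ ≤ q * ((q : ℝ) ^ A' * (q : ℝ) ^ A' * (q : ℝ) ^ (2 * A₁)) :=
          mul_le_mul_of_nonneg_right hκq (by positivity)
      _ = (q : ℝ) ^ (2 * A₁ + 2 * A' + 1) := by ring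
      _ ≤ (q : ℝ) ^ (2 * A₁ + 2 * A' + 3) := pow_le_pow_right₀ hqR (by omega)
  · calc c ≤ σ / (2 * 2 ^ (Pz z₀).card) := hc2
      _ = 1 / 2 * (σ / 2 ^ (Pz z₀).card) := by field_simp
      _ ≤ T₁ * (σ / U₁) := by
        refine mul_le_mul (by linarith) ?_ (by positivity) (by linarith)
        exact div_le_div_of_nonneg_left hσ.le u1 u3
  · have : 0 < T₂ := by linarith
    positivity
  · calc WW χ (Pz (q ^ A₁)) ≤ WW χ (PP z₀ A₁ q) := hWle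
      _ ≤ Cr * R₁ := r4
      _ ≤ C * R₁ := mul_le_mul_of_nonneg_right (by linarith) hR₁.le
  · intro x
    rw [b2, hvB.2]
    ring
  · rw [e2, c1]
  · rw [e1, c2]
  · intro r s' z hr' hs' hz'
    rw [e2]
    refine (c3 r s' z hr' hs' hz').trans ?_
    have h1 : 0 ≤ σ / U₂ * (1 / H) := by positivity
    calc (1 + ε₁) * (2 * σ / U₂ * (Cr / H))
        = ((1 + ε₁) * 2 * Cr) * (σ / U₂ * (1 / H)) := by ring
      _ ≤ (C * T₂) * (σ / U₂ * (1 / H)) := by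
        refine mul_le_mul_of_nonneg_right ?_ h1
        have h2 : 8 * Cr * (7 / 8) ≤ C * T₂ := mul_le_mul hC2 hT2 (by norm_num) (by linarith)
        have h3 : (1 + ε₁) * 2 * Cr ≤ 7 * Cr :=
          mul_le_mul_of_nonneg_right (by linarith) (by linarith)
        linarith
      _ = _ := by ring
  · intro z hz'
    rw [e1]
    refine (c4 z hz').trans ?_
    have h1 : 0 ≤ σ / U₁ := by positivity
    calc (1 + ε₁) * (2 * σ / U₁ * Cr) = ((1 + ε₁) * 2 * Cr) * (σ / U₁) := by ring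
      _ ≤ (C * T₁) * (σ / U₁) := by
        refine mul_le_mul_of_nonneg_right ?_ h1
        have h2 : 8 * Cr * (7 / 8) ≤ C * T₁ := mul_le_mul hC2 hT1 (by norm_num) (by linarith)
        have h3 : (1 + ε₁) * 2 * Cr ≤ 7 * Cr :=
          mul_le_mul_of_nonneg_right (by linarith) (by linarith)
        linarith
      _ = _ := by ring
  · have hE1 : 0 ≤ ∏ p ∈ PP z₀ A₁ q, ep χ p := Finset.prod_nonneg fun p hp => by
      have := mo_ep h (hPPp p hp)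
      linarith
    have hHE : 1 / H ≤ (1 + ε₁) * ∏ p ∈ PP z₀ A₁ q, ep χ p := by
      rw [hH1, div_le_iff₀ (by positivity)]
      exact r3
    refine LM.mm_num (W := WW χ (Pz (q ^ A₁))) (E₀ := ∏ p ∈ Pz z₀, ep χ p) u1 u2 u4 hH0
      hHE hE1 (by positivity) ?_ hg₀ (mo_WW_pos h fun p hp => (mm_prime hp).1).le hgW t1 t2 hε
      h8ε hε₁8
    rw [mul_comm (∏ p ∈ Pz z₀, ep χ p), ← mo_ep_split χ hz01.le]
    exact LM.euler_le_pr h hqz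

end Pool.Agent.TEM

namespace Pool.Agent.TEM

/-- block MO -/
theorem mollT : type_of% @mollT_pr := @mollT_pr

end Pool.Agent.TEM
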